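import Pool.Agent.Work.MP_8f87b2_h6.TyJ3V
import Pool.Agent.Work.MP_8f87b2_h35.GadJB

/-!
# MP_8f87b2_co: type J2B = the pile pair `z = R(())`, `z' = (())R` (20 words `W R nil B S i`, helper35's `gadJB`)

`SqD k R B S` (no part 1 in `R`, at least two solitons, `sq R = (S, B)`, any `B`). Group `{cyc R(()), cyc (())R}`, words 0..19,
arcs 1 > 11, 3 > 12, 6 > 15, 8 > 14. `J2OK`: `z` is not fixed by `T^2`, `z'` is on another T-cycle, and for `B = nil` the word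
13 = `S(())` is on a third T-cycle. All old words are `Lower` than `z`, with the exception of the word 13 for `B = nil`, which has
the content of `z`.
-/

set_option autoImplicit false

namespace Pool.OddHC

open Finset Equiv BinaryTree Pool.Agent.Work.MP_8f87b2_co

namespace J3

variable {k : ℕ} {R B S : BinaryTree Unit}

/-- the conditions of J2B -/
structure J2OK (R B S : BinaryTree Unit) (w0 : X k) : Prop where
  n10 : sX R B S w0 0 ≠ sX R B S w0 10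
  n4 : cyc (sX R B S w0 4) ≠ cyc (sX R B S w0 0)
  b13 : B = .nil → cyc (sX R B S w0 13) ≠ cyc (sX R B S w0 0) ∧ cyc (sX R B S w0 13) ≠ cyc (sX R B S w0 4)

/-- the word 9 = `((R))` is different from the others -/
theorem SqD.n9 (h : SqD k R B S) {j : ℕ} (hj : j < 20) (h9 : j ≠ 9) :
    H1.W R .nil B S 9 ≠ H1.W R .nil B S j := by
  have hR := h.ne
  have hS := h.neS
  have hSR := h.neSR
  have ap : ∀ {P X Y : BinaryTree Unit}, P ≠ .nil → X ≠ .nil → app P X ≠ Y △ .nil := by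
    intro P X Y hP hX e
    cases P with
    | nil => exact hP rfl
    | node _ A C =>
      have e1 := (H1.node_inj e).2
      exact H1.app_ne hX e1
  have nn : ∀ A C : BinaryTree Unit, A △ C ≠ .nil := fun _ _ => by simp
  intro e
  change (R △ .nil) △ BinaryTree.nil = _ at e
  interval_cases j
  · exact ap hR (nn _ _) e.symm
  · exact ap hR (nn _ _) e.symm
  · exact H1.app_ne (nn _ _) (H1.node_inj e).2.symm
  · exact ap hR (nn _ _) (H1.node_inj e).1.symm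
  · exact hR (H1.node_inj e).2.symm
  · exact nn _ _ (H1.node_inj e).2.symm
  · exact nn _ _ (H1.node_inj e).2.symm
  · exact hR (H1.node_inj (H1.node_inj e).1).1
  · exact nn _ _ (H1.node_inj e).2.symm
  · exact h9 rfl
  · -- B (()) S
    have e1 := congrArg H1.len e
    change H1.len ((R △ .nil) △ BinaryTree.nil) = H1.len (app B ((.nil △ .nil) △ S)) at e1
    rw [H1.len_app] at e1
    have l1 := H1.len_pos hS
    simp only [H1.len] at e1
    omega
  · have e1 := congrArg H1.len e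
    change H1.len ((R △ .nil) △ BinaryTree.nil) = H1.len (app B (.nil △ (.nil △ S))) at e1
    rw [H1.len_app] at e1
    have l1 := H1.len_pos hS
    simp only [H1.len] at e1
    omega
  · exact H1.app_ne (nn _ _) (H1.node_inj e).2.symm
  · exact ap hS (nn _ _) e.symm
  · exact hR (H1.node_inj (H1.node_inj e).1).1
  · exact nn _ _ (H1.node_inj e).2.symm
  · exact ap hS (nn _ _) e.symm
  · exact hSR (H1.node_inj (H1.node_inj e).1).1.symm
  · exact H1.app_ne (nn _ _) (H1.node_inj e).2.symm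
  · exact ap hS (nn _ _) (H1.node_inj e).1.symm

theorem SqD.inj2 (h : SqD k R B S) {w0 : X k} (hp : J2OK R B S w0) : ∀ i < 20, ∀ j < 20,
    sX R B S w0 i = sX R B S w0 j → i = j := by
  have c10 : cyc (sX R B S w0 10) = cyc (sX R B S w0 0) :=
    (cyc_eq.2 (h.same w0 (i := 0) (j := 10) (by simp))).symm
  have key : ∀ i j, i < j → j < 20 → sX R B S w0 i ≠ sX R B S w0 j := by
    intro i j hij hj e
    have e1 := congrArg Subtype.val e
    rw [h.word w0 (show i < 20 by omega), h.word w0 hj] at e1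
    by_cases h9 : i = 9
    · subst h9
      exact h.n9 hj (by omega) e1
    by_cases h9' : j = 9
    · subst h9'
      exact h.n9 (show i < 20 by omega) h9 e1.symm
    have hm := h.inj' hij hj h9 h9' e1
    simp only [List.mem_cons, Prod.mk.injEq, List.not_mem_nil, or_false] at hm
    rcases hm with ⟨rfl, rfl⟩ | ⟨rfl, rfl⟩ | ⟨rfl, rfl⟩ | ⟨rfl, rfl⟩ | ⟨rfl, rfl⟩
    · exact hp.n4 (by rw [e])
    · exact hp.n10 e
    · exact hp.n4 (by rw [e, c10])
    · by_cases hB : B = .nil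
      · exact (hp.b13 hB).2 (by rw [e])
      · have e2 := h.rank w0 13 (by norm_num) (by norm_num) (by norm_num) (by norm_num) (fun _ => hB)
        rw [← e, h.cont4] at e2
        exact e2.ne rfl
    · by_cases hB : B = .nil
      · exact (hp.b13 hB).1 (by rw [← e, c10])
      · have e2 := h.rank w0 13 (by norm_num) (by norm_num) (by norm_num) (by norm_num) (fun _ => hB)
        rw [← e, h.cont10] at e2
        exact e2.ne rfl
  intro i hi j hj e
  rcases lt_trichotomy i j with h1 | h1 | h1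
  · exact absurd e (key i j h1 hj)
  · exact h1
  · exact absurd e.symm (key j i h1 hi)

/-- the old words are not on the new T-cycles -/
theorem SqD.old2 (h : SqD k R B S) {w0 : X k} (hp : J2OK R B S w0) : ∀ i ∈ [4, 0], ∀ j ∈ odJB,
    ¬ TT.SameCycle (sX R B S w0 i) (sX R B S w0 j) := by
  intro i hi j hj hs
  have hj' : j < 20 ∧ j ≠ 0 ∧ j ≠ 4 ∧ j ≠ 10 :=
    (by decide : ∀ j ∈ odJB, j < 20 ∧ j ≠ 0 ∧ j ≠ 4 ∧ j ≠ 10) j hj
  obtain ⟨b1, b2, b3, b4⟩ := hj'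
  have hc : OddHC.cont (sX R B S w0 i).1 = OddHC.cont R + {2} := by
    simp only [List.mem_cons, List.not_mem_nil, or_false] at hi
    rcases hi with rfl | rfl
    · exact h.cont4 w0
    · exact h.cont0 w0
  by_cases h13 : j = 13 ∧ B = .nil
  · obtain ⟨rfl, hB⟩ := h13
    simp only [List.mem_cons, List.not_mem_nil, or_false] at hi
    rcases hi with rfl | rfl
    · exact (hp.b13 hB).2 (cyc_eq.2 hs).symm
    · exact (hp.b13 hB).1 (cyc_eq.2 hs).symm
  · exact h.other0 w0 b1 b2 b3 b4 (fun h1 h2 => h13 ⟨h1, h2⟩) hc hs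

/-- the absorber -/
theorem SqD.abs2 (h : SqD k R B S) {w0 : X k} (hp : J2OK R B S w0) : (gadJB (sX R B S w0)).Abs := by
  have e := h.num
  have es := h.size
  have n0 : (BinaryTree.nil : BinaryTree Unit).numNodes = 0 := rfl
  have hlt : ∀ i ∈ ixJB, i < 20 := by decide
  refine gadJB_abs (R := R) (Q := .nil) (B := B) (S := S) (by omega) (by omega) ?_ ?_ ?_ ?_ ?_
  · intro i hi
    rw [h.word w0 (hlt i hi), H1.W_w20 _ _ _ _ i (hlt i hi)]
  · exact fun i hi j hj => h.inj2 hp i (hlt i hi) j (hlt j hj)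
  · intro p hq
    obtain rfl : p = (0, 10) := by simpa [prJB] using hq
    exact h.same w0 (i := 0) (j := 10) (by simp)
  · intro i hi j hj hs
    have hi' : i = 4 ∨ i = 0 := by simpa [sgJB, prJB] using hi
    have hj' : j = 4 ∨ j = 0 := by simpa [sgJB, prJB] using hj
    rcases hi' with rfl | rfl <;> rcases hj' with rfl | rfl
    · rfl
    · exact absurd (cyc_eq.2 hs) hp.n4
    · exact absurd (cyc_eq.2 hs).symm hp.n4
    · rfl
  · intro i hi j hj
    exact h.old2 hp i hi j hj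

end J3

open J3

variable {k : ℕ} {F : Set (Cyc k)} {g : DG k} {R B S : BinaryTree Unit}

/-- TYPE J2B with its phase -/
def TyJ2R (R B S : BinaryTree Unit) (F : Set (Cyc k)) (g : DG k) : Prop :=
  ∃ w0 : X k, SqD k R B S ∧ J2OK R B S w0 ∧
    F = {cyc (sX R B S w0 0), cyc (sX R B S w0 4)} ∧ g = gadJB (sX R B S w0)

/-- TYPE J2B -/
def TyJ2B (F : Set (Cyc k)) (g : DG k) : Prop := ∃ R B S : BinaryTree Unit, TyJ2R R B S F g

theorem mem_gadJB {w : ℕ → X k} {x : X k} : x ∈ (gadJB w).B ↔ ∃ i < 20, w i = x := by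
  unfold gadJB
  rw [mem_gadOf_B]
  constructor
  · rintro ⟨i, hi, e⟩
    exact ⟨i, (by decide : ∀ i ∈ ixJB, i < 20) i hi, e⟩
  · rintro ⟨i, hi, e⟩
    refine ⟨i, ?_, e⟩
    interval_cases i <;> decide

theorem TyJ2R.sqd (h : TyJ2R R B S F g) : SqD k R B S := by
  obtain ⟨w0, h1, _⟩ := h
  exact h1

theorem TyJ2R.hF (h : TyJ2R R B S F g) : ∀ w, w ∈ g.F ↔ cyc w ∈ F := by
  obtain ⟨w0, h1, hp, rfl, rfl⟩ := h
  intro w
  unfold gadJB
  rw [mem_gadOf_F]
  constructor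
  · rintro ⟨c, hc, hs⟩
    have hc' : c = 4 ∨ c = 0 := by simpa [sgJB, prJB] using hc
    rcases hc' with rfl | rfl
    · exact Or.inr (cyc_eq.2 hs).symm
    · exact Or.inl (cyc_eq.2 hs).symm
  · rintro (hs | hs)
    · exact ⟨0, by simp [sgJB, prJB], cyc_eq.1 hs.symm⟩
    · exact ⟨4, by simp [sgJB, prJB], cyc_eq.1 hs.symm⟩

theorem TyJ2R.new (h : TyJ2R R B S F g) : ∀ c ∈ F, ∃ u ∈ g.B, cyc u = c := by
  obtain ⟨w0, h1, hp, rfl, rfl⟩ := h
  rintro c (rfl | rfl)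
  · exact ⟨_, mem_gadJB.2 ⟨0, by norm_num, rfl⟩, rfl⟩
  · exact ⟨_, mem_gadJB.2 ⟨4, by norm_num, rfl⟩, rfl⟩

theorem TyJ2R.abs (h : TyJ2R R B S F g) : g.Abs := by
  obtain ⟨w0, h1, hp, rfl, rfl⟩ := h
  exact h1.abs2 hp

/-- contents of the group -/
theorem TyJ2R.contF (h : TyJ2R R B S F g) : ∀ c ∈ F, contc c = OddHC.cont R + {2} := by
  obtain ⟨w0, h1, hp, rfl, rfl⟩ := h
  rintro c (rfl | rfl)
  · exact h1.cont0 w0
  · exact h1.cont4 w0

/-- the group has the height of `R` -/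
theorem TyJ2R.htp' (h : TyJ2R R B S F g) : ∀ c ∈ F, htc c = OddHC.ht R := by
  intro c hc
  have h1 := h.contF c hc
  change (contc c).sup = _
  rw [h1, h.sqd.supz]

theorem TyJ2R.htg (h : TyJ2R R B S F g) : ∀ c ∈ F, ∀ d ∈ F, htc c = htc d := by
  intro c hc d hd
  rw [h.htp' c hc, h.htp' d hd]

/-- all words -/
theorem TyJ2R.words (h : TyJ2R R B S F g) : ∀ w ∈ g.B, ∃ i < 20, w.1 = H1.W R .nil B S i := by
  obtain ⟨w0, h1, hp, rfl, rfl⟩ := h
  intro w hw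
  obtain ⟨i, hi, rfl⟩ := mem_gadJB.1 hw
  exact ⟨i, hi, h1.word w0 hi⟩

/-- the words in `X k` -/
theorem TyJ2R.wordsX (h : TyJ2R R B S F g) (w0 : X k) : ∀ w, w ∈ g.B ↔ ∃ i < 20, w = sX R B S w0 i := by
  obtain ⟨w1, h1, hp, rfl, rfl⟩ := h
  have e : ∀ i < 20, sX R B S w1 i = sX R B S w0 i := fun i hi => Subtype.ext (by
    rw [h1.word w1 hi, h1.word w0 hi])
  intro w
  constructor
  · intro hw
    obtain ⟨i, hi, rfl⟩ := mem_gadJB.1 hw
    exact ⟨i, hi, e i hi⟩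
  · rintro ⟨i, hi, rfl⟩
    exact mem_gadJB.2 ⟨i, hi, e i hi⟩

/-- the T-cycles -/
theorem TyJ2R.memF (h : TyJ2R R B S F g) (w0 : X k) : ∀ c, c ∈ F ↔ c = cyc (sX R B S w0 0) ∨ c = cyc (sX R B S w0 4) := by
  obtain ⟨w1, h1, hp, rfl, rfl⟩ := h
  have e : ∀ i < 20, sX R B S w1 i = sX R B S w0 i := fun i hi => Subtype.ext (by
    rw [h1.word w1 hi, h1.word w0 hi])
  intro c
  rw [← e 0 (by norm_num), ← e 4 (by norm_num)]
  exact Iff.rfl

/-- the arcs -/
theorem TyJ2R.arcs (h : TyJ2R R B S F g) (w0 : X k) : ∀ p, p ∈ g.arcs ↔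
    ∃ q ∈ [(1, 11), (3, 12), (6, 15), (8, 14)], p = (sX R B S w0 q.1, sX R B S w0 q.2) := by
  obtain ⟨w1, h1, hp, rfl, rfl⟩ := h
  have e : ∀ i < 20, sX R B S w1 i = sX R B S w0 i := fun i hi => Subtype.ext (by
    rw [h1.word w1 hi, h1.word w0 hi])
  intro p
  have hd : ∀ q ∈ arJB, q.1 < 20 ∧ q.2 < 20 := by decide
  constructor
  · rintro ⟨q, hq, rfl⟩
    exact ⟨q, hq, by rw [e _ (hd q hq).1, e _ (hd q hq).2]⟩
  · rintro ⟨q, hq, rfl⟩
    exact ⟨q, hq, by rw [e _ (hd q hq).1, e _ (hd q hq).2]⟩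

/-- rank: every old word is `Lower` than `z`, or (`B = nil`) it is the word 13 = `S(())`, of the content of `z` -/
theorem TyJ2R.rank (h : TyJ2R R B S F g) : ∀ w ∈ g.B, cyc w ∈ F ∨
    H1.Lower (contc (cyc w)) (OddHC.cont R + {2}) ∨
    (B = .nil ∧ w.1 = app S ((.nil △ .nil) △ .nil) ∧ contc (cyc w) = OddHC.cont R + {2}) := by
  obtain ⟨w0, h1, hp, rfl, rfl⟩ := h
  intro w hw
  obtain ⟨i, hi, rfl⟩ := mem_gadJB.1 hw
  by_cases n0 : i = 0
  · subst n0; exact Or.inl (Or.inl rfl)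
  · by_cases n10 : i = 10
    · subst n10
      exact Or.inl (Or.inl (cyc_eq.2 (h1.same w0 (i := 0) (j := 10) (by simp))).symm)
    · by_cases n4 : i = 4
      · subst n4
        exact Or.inl (Or.inr rfl)
      · by_cases n13 : i = 13 ∧ B = .nil
        · obtain ⟨rfl, rfl⟩ := n13
          right; right
          exact ⟨rfl, h1.word w0 (by norm_num), h1.cont13 w0⟩
        · right; left
          exact h1.rank w0 i hi n0 n4 n10 (fun a b => n13 ⟨a, b⟩)

theorem TyJ2R.old (h : TyJ2R R B S F g) : ∃ u ∈ g.B, cyc u ∉ F := by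
  have hh := h.htp'
  obtain ⟨w0, h1, hp, rfl, rfl⟩ := h
  refine ⟨_, mem_gadJB.2 ⟨6, by norm_num, rfl⟩, ?_⟩
  intro e
  have e1 := hh _ e
  rw [htc_cyc, h1.word w0 (by norm_num)] at e1
  change OddHC.ht (R △ (.nil △ .nil)) = _ at e1
  rw [ht_node] at e1
  omega

theorem TyJ2R.path (h : TyJ2R R B S F g) : ∀ a ∈ g.arcs, ∃ n : ℕ, (TT ^ (n + 1)) a.1 = a.2 ∧ a.1 ∈ g.B ∧
    ∀ i < n, (TT ^ (i + 1)) a.1 ∈ innA a := by
  obtain ⟨w0, h1, hp, rfl, rfl⟩ := h
  intro p hq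
  have hq' : ∃ q ∈ arJB, p = (sX R B S w0 q.1, sX R B S w0 q.2) := hq
  obtain ⟨q, hq1, rfl⟩ := hq'
  have h2 : q.1 < 20 ∧ (q.1, q.2) ∈ [(0, 10), (1, 11), (3, 12), (6, 15), (8, 14), (9, 17)] :=
    (by decide : ∀ q ∈ arJB, q.1 < 20 ∧ (q.1, q.2) ∈ [(0, 10), (1, 11), (3, 12), (6, 15), (8, 14), (9, 17)]) q hq1
  refine ⟨1, ?_, mem_gadJB.2 ⟨q.1, h2.1, rfl⟩, ?_⟩
  · rw [pow_succ, pow_one, Perm.mul_apply]
    exact h1.link w0 h2.2
  · intro n hn
    obtain rfl : n = 0 := by omega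
    rw [pow_one]
    rfl

/-- the inner words are `T (w i)`, `i = 1, 3, 6, 8` -/
theorem TyJ2R.inn (h : TyJ2R R B S F g) (w0 : X k) : ∀ p ∈ g.arcs, ∀ w ∈ innA p, ∃ i ∈ [1, 3, 6, 8], w = TT (sX R B S w0 i) := by
  intro p hp w hw
  obtain ⟨q, hq, rfl⟩ := (h.arcs w0 p).1 hp
  refine ⟨q.1, (by decide : ∀ q ∈ [(1, 11), (3, 12), (6, 15), (8, 14)], q.1 ∈ [1, 3, 6, 8]) q hq, ?_⟩
  exact hw

/-! ### The same for `TyJ2B` -/

theorem TyJ2B.hF (h : TyJ2B F g) : ∀ w, w ∈ g.F ↔ cyc w ∈ F := by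
  obtain ⟨R, B, S, h⟩ := h
  exact h.hF

theorem TyJ2B.new (h : TyJ2B F g) : ∀ c ∈ F, ∃ u ∈ g.B, cyc u = c := by
  obtain ⟨R, B, S, h⟩ := h
  exact h.new

theorem TyJ2B.abs (h : TyJ2B F g) : g.Abs := by
  obtain ⟨R, B, S, h⟩ := h
  exact h.abs

theorem TyJ2B.htg (h : TyJ2B F g) : ∀ c ∈ F, ∀ d ∈ F, htc c = htc d := by
  obtain ⟨R, B, S, h⟩ := h
  exact h.htg

theorem TyJ2B.old (h : TyJ2B F g) : ∃ u ∈ g.B, cyc u ∉ F := by
  obtain ⟨R, B, S, h⟩ := h
  exact h.old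

theorem TyJ2B.path (h : TyJ2B F g) : ∀ a ∈ g.arcs, ∃ n : ℕ, (TT ^ (n + 1)) a.1 = a.2 ∧ a.1 ∈ g.B ∧
    ∀ i < n, (TT ^ (i + 1)) a.1 ∈ innA a := by
  obtain ⟨R, B, S, h⟩ := h
  exact h.path

theorem TyJ2B.words (h : TyJ2B F g) : ∃ (R B S : BinaryTree Unit), SqD k R B S ∧
    ∀ w ∈ g.B, ∃ i < 20, w.1 = H1.W R .nil B S i := by
  obtain ⟨R, B, S, h⟩ := h
  exact ⟨R, B, S, h.sqd, h.words⟩

/-- one content, no part 1; every old word is `Lower` or has the content -/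
theorem TyJ2B.rank (h : TyJ2B F g) : ∃ M : Multiset ℕ, M.count 1 = 0 ∧ (∀ c ∈ F, contc c = M + {2}) ∧
    ∀ w ∈ g.B, cyc w ∈ F ∨ H1.Lower (contc (cyc w)) (M + {2}) ∨ contc (cyc w) = M + {2} := by
  obtain ⟨R, B, S, h⟩ := h
  refine ⟨OddHC.cont R, h.sqd.one, h.contF, ?_⟩
  intro w hw
  rcases h.rank w hw with h1 | h1 | ⟨_, _, h1⟩
  · exact Or.inl h1
  · exact Or.inr (Or.inl h1)
  · exact Or.inr (Or.inr h1)

end Pool.OddHC
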