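import Pool.Agent.Work.MP_8f87b2_h17.TyJ2B
import Pool.Agent.Work.MP_8f87b2_h35.GadJBv

/-!
# MP_8f87b2_co: J2B merged with E pairs (helper35's `gadJBv v`, 24 forms)

The same twenty words, the same four arcs; the new T-cycles are `{0, 10}`, `{4}` and those of the E pairs of the form `v`
(a = `{1, 11}, {2}`; b = `{2}, {5}`; c = `{6, 15}, {8, 14}`; d = `{3, 12}, {6, 15}`; e = `{16}, {18}`; f = `{1, 11}, {18}`).
`TyJ2Rv v R B S F g`: hypotheses `sep v` (the new T-cycles are different) and `off v` (no old word lies on one of them).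
-/

set_option autoImplicit false

namespace Pool.OddHC

open Finset Equiv BinaryTree Pool.Agent.Work.MP_8f87b2_co

namespace J3

variable {k : ℕ} {R B S : BinaryTree Unit}

/-- the conditions of J2B in the form `v` -/
structure J2OKv (v : ℕ) (R B S : BinaryTree Unit) (w0 : X k) : Prop where
  ok : J2OK R B S w0
  sep : ∀ i ∈ nwJBv v, ∀ j ∈ nwJBv v, cyc (sX R B S w0 i) = cyc (sX R B S w0 j) → i = j
  off : ∀ i ∈ nwJBv v, ∀ j ∈ odJBv v, cyc (sX R B S w0 i) ≠ cyc (sX R B S w0 j)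

theorem prJBv_mem {v : ℕ} (hv : v < 24) : ∀ p ∈ prJBv v,
    p ∈ [(0, 10), (1, 11), (3, 12), (6, 15), (8, 14), (9, 17)] := by
  interval_cases v <;> decide

/-- the absorber -/
theorem SqD.absv (h : SqD k R B S) {v : ℕ} (hv : v < 24) {w0 : X k} (hp : J2OKv v R B S w0) :
    (gadJBv v (sX R B S w0)).Abs := by
  have e := h.num
  have es := h.size
  have n0 : (BinaryTree.nil : BinaryTree Unit).numNodes = 0 := rfl
  refine gadJBv_abs (R := R) (Q := .nil) (B := B) (S := S) (by omega) (by omega) hv ?_ ?_ ?_ ?_ ?_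
  · intro i hi
    rw [h.word w0 hi, H1.W_w20 _ _ _ _ i hi]
  · exact fun i hi j hj => h.inj2 hp.ok i hi j hj
  · intro p hq
    exact h.same w0 (prJBv_mem hv p hq)
  · intro i hi j hj hs
    exact hp.sep i hi j hj (cyc_eq.2 hs)
  · intro i hi j hj hs
    exact hp.off i hi j hj (cyc_eq.2 hs)

end J3

open J3

variable {k : ℕ} {F F' : Set (Cyc k)} {g g' : DG k} {R B S : BinaryTree Unit} {v : ℕ}

/-- TYPE J2v with its phase -/
def TyJ2Rv (v : ℕ) (R B S : BinaryTree Unit) (F : Set (Cyc k)) (g : DG k) : Prop :=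
  ∃ w0 : X k, SqD k R B S ∧ J2OKv v R B S w0 ∧
    F = {c | ∃ i ∈ nwJBv v, c = cyc (sX R B S w0 i)} ∧ g = gadJBv v (sX R B S w0)

/-- TYPE J2v: J2B merged with E pairs -/
def TyJ2v (F : Set (Cyc k)) (g : DG k) : Prop :=
  ∃ v, v < 24 ∧ ∃ R B S : BinaryTree Unit, TyJ2Rv v R B S F g

theorem TyJ2Rv.sqd (h : TyJ2Rv v R B S F g) : SqD k R B S := by
  obtain ⟨w0, h1, _⟩ := h
  exact h1

theorem TyJ2Rv.hF (h : TyJ2Rv v R B S F g) : ∀ w, w ∈ g.F ↔ cyc w ∈ F := by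
  obtain ⟨w0, h1, hp, rfl, rfl⟩ := h
  intro w
  rw [gadJBv_F]
  constructor
  · rintro ⟨c, hc, hs⟩
    exact ⟨c, hc, (cyc_eq.2 hs).symm⟩
  · rintro ⟨c, hc, hs⟩
    exact ⟨c, hc, cyc_eq.1 hs.symm⟩

theorem nwJBv_lt (hv : v < 24) : ∀ i ∈ nwJBv v, i < 20 := by
  interval_cases v <;> decide

theorem TyJ2Rv.new (h : TyJ2Rv v R B S F g) (hv : v < 24) : ∀ c ∈ F, ∃ u ∈ g.B, cyc u = c := by
  obtain ⟨w0, h1, hp, rfl, rfl⟩ := h
  rintro c ⟨i, hi, rfl⟩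
  exact ⟨_, mem_gadJBv.2 ⟨i, nwJBv_lt hv i hi, rfl⟩, rfl⟩

theorem TyJ2Rv.abs (h : TyJ2Rv v R B S F g) (hv : v < 24) : g.Abs := by
  obtain ⟨w0, h1, hp, rfl, rfl⟩ := h
  exact h1.absv hv hp

/-- all words -/
theorem TyJ2Rv.words (h : TyJ2Rv v R B S F g) : ∀ w ∈ g.B, ∃ i < 20, w.1 = H1.W R .nil B S i := by
  obtain ⟨w0, h1, hp, rfl, rfl⟩ := h
  intro w hw
  obtain ⟨i, hi, rfl⟩ := mem_gadJBv.1 hw
  exact ⟨i, hi, h1.word w0 hi⟩

theorem TyJ2Rv.wordsX (h : TyJ2Rv v R B S F g) (w0 : X k) : ∀ w, w ∈ g.B ↔ ∃ i < 20, w = sX R B S w0 i := by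
  obtain ⟨w1, h1, hp, rfl, rfl⟩ := h
  have e : ∀ i < 20, sX R B S w1 i = sX R B S w0 i := fun i hi => Subtype.ext (by
    rw [h1.word w1 hi, h1.word w0 hi])
  intro w
  constructor
  · intro hw
    obtain ⟨i, hi, rfl⟩ := mem_gadJBv.1 hw
    exact ⟨i, hi, e i hi⟩
  · rintro ⟨i, hi, rfl⟩
    exact mem_gadJBv.2 ⟨i, hi, e i hi⟩

/-- the J2B group over the same phase: the same words, the same arcs, `F0 ⊆ F` -/
theorem TyJ2Rv.base (h : TyJ2Rv v R B S F g) : ∃ (F0 : Set (Cyc k)) (g0 : DG k), TyJ2R R B S F0 g0 ∧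
    (∀ x : X k, x ∈ g.B ↔ x ∈ g0.B) ∧ (∀ p : X k × X k, p ∈ g.arcs ↔ p ∈ g0.arcs) := by
  obtain ⟨w0, h1, hp, rfl, rfl⟩ := h
  refine ⟨_, _, ⟨w0, h1, hp.ok, rfl, rfl⟩, ?_, ?_⟩
  · intro x
    rw [mem_gadJBv, mem_gadJB]
  · intro p
    exact Iff.rfl

theorem zero_mem_nw (hv : v < 24) : 0 ∈ nwJBv v ∧ 4 ∈ nwJBv v := by
  interval_cases v <;> decide

/-- the T-cycles of `z` and `z'` are in the group -/
theorem TyJ2Rv.memF (h : TyJ2Rv v R B S F g) (hv : v < 24) (w0 : X k) : cyc (sX R B S w0 0) ∈ F ∧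
    cyc (sX R B S w0 4) ∈ F := by
  obtain ⟨w1, h1, hp, rfl, rfl⟩ := h
  have e : ∀ i < 20, sX R B S w1 i = sX R B S w0 i := fun i hi => Subtype.ext (by
    rw [h1.word w1 hi, h1.word w0 hi])
  exact ⟨⟨0, (zero_mem_nw hv).1, by rw [e 0 (by norm_num)]⟩, ⟨4, (zero_mem_nw hv).2, by rw [e 4 (by norm_num)]⟩⟩

/-- the whole base group is in the group -/
theorem TyJ2Rv.base_sub (h : TyJ2Rv v R B S F g) (hv : v < 24) {F0 : Set (Cyc k)} {g0 : DG k}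
    (h0 : TyJ2R R B S F0 g0) : F0 ⊆ F := by
  obtain ⟨w0, _⟩ := id h
  intro c hc
  rcases (h0.memF w0 c).1 hc with rfl | rfl
  · exact (h.memF hv w0).1
  · exact (h.memF hv w0).2

theorem TyJ2Rv.arcs (h : TyJ2Rv v R B S F g) (w0 : X k) : ∀ p, p ∈ g.arcs ↔
    ∃ q ∈ [(1, 11), (3, 12), (6, 15), (8, 14)], p = (sX R B S w0 q.1, sX R B S w0 q.2) := by
  obtain ⟨F0, g0, h0, _, ha⟩ := h.base
  intro p
  rw [ha p, h0.arcs w0 p]

theorem TyJ2Rv.path (h : TyJ2Rv v R B S F g) : ∀ a ∈ g.arcs, ∃ n : ℕ, (TT ^ (n + 1)) a.1 = a.2 ∧ a.1 ∈ g.B ∧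
    ∀ i < n, (TT ^ (i + 1)) a.1 ∈ innA a := by
  obtain ⟨F0, g0, h0, hB, ha⟩ := h.base
  intro a h1
  obtain ⟨n, h2, h3, h4⟩ := h0.path a ((ha a).1 h1)
  exact ⟨n, h2, (hB _).2 h3, h4⟩

/-- the inner words are `T (w i)`, `i = 1, 3, 6, 8` -/
theorem TyJ2Rv.inn (h : TyJ2Rv v R B S F g) (w0 : X k) : ∀ p ∈ g.arcs, ∀ w ∈ innA p, ∃ i ∈ [1, 3, 6, 8], w = TT (sX R B S w0 i) := by
  obtain ⟨F0, g0, h0, hB, ha⟩ := h.base
  intro p hp
  exact h0.inn w0 p ((ha p).1 hp)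

/-- an old word: `((R))`, for the forms without c, d (which contain no word of a larger height) -/
theorem TyJ2Rv.old (h : TyJ2Rv v R B S F g) (hv : v < 24) : ∃ u ∈ g.B, cyc u ∉ F := by
  obtain ⟨w0, h1, hp, rfl, rfl⟩ := h
  have h9 : 9 ∈ odJBv v := by interval_cases v <;> decide
  refine ⟨_, mem_gadJBv.2 ⟨9, by norm_num, rfl⟩, ?_⟩
  rintro ⟨i, hi, e⟩
  exact hp.off i hi 9 h9 e.symm

/-! ### Contents -/

/-- the same-height forms (E pairs a, b, e, f) -/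
def shJBv : List ℕ := [0, 1, 2, 5, 6, 9, 12, 13]

/-- contents of a same-height form -/
theorem TyJ2Rv.contF (h : TyJ2Rv v R B S F g) (hv : v ∈ shJBv) (hB : v ∈ [5, 6, 9, 12, 13] → B = .nil) : ∀ c ∈ F,
    contc c = OddHC.cont R + {2} ∨ contc c = OddHC.cont R + ({1} + {1}) := by
  obtain ⟨w0, h1, hp, rfl, rfl⟩ := h
  have c16 : B = .nil → OddHC.cont (sX R B S w0 16).1 = OddHC.cont R + ({1} + {1}) := by
    rintro rfl
    rw [h1.word w0 (by norm_num), ← h1.cont]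
    change OddHC.cont (app S (.nil △ (.nil △ .nil))) = _
    rw [cont_app, cont_node, cont_node, raise_nil, cont_nil, add_zero, zero_add]
  have c18 : B = .nil → OddHC.cont (sX R B S w0 18).1 = OddHC.cont R + ({1} + {1}) := by
    rintro rfl
    rw [h1.word w0 (by norm_num), ← h1.cont]
    change OddHC.cont (.nil △ app S (.nil △ .nil)) = _
    rw [cont_node, cont_app, cont_node, raise_nil, cont_nil, add_zero, zero_add]
    rw [add_left_comm]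
  rintro c ⟨i, hi, rfl⟩
  have key : (i = 0 ∨ i = 4) ∨ (i = 1 ∨ i = 2 ∨ i = 5) ∨ (v ∈ [5, 6, 9, 12, 13] ∧ (i = 16 ∨ i = 18)) := by
    have hd : ∀ v ∈ shJBv, ∀ i ∈ nwJBv v, (i = 0 ∨ i = 4) ∨ (i = 1 ∨ i = 2 ∨ i = 5) ∨
        (v ∈ [5, 6, 9, 12, 13] ∧ (i = 16 ∨ i = 18)) := by decide
    exact hd v hv i hi
  rcases key with (rfl | rfl) | (rfl | rfl | rfl) | ⟨h5, rfl | rfl⟩
  · exact Or.inl (h1.cont0 w0)
  · exact Or.inl (h1.cont4 w0)
  · exact Or.inr (h1.cont1 w0)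
  · exact Or.inr (h1.cont2 w0)
  · exact Or.inr (h1.cont5 w0)
  · exact Or.inr (c16 (hB h5))
  · exact Or.inr (c18 (hB h5))

theorem TyJ2Rv.htp' (h : TyJ2Rv v R B S F g) (hv : v ∈ shJBv) (hB : v ∈ [5, 6, 9, 12, 13] → B = .nil) :
    ∀ c ∈ F, htc c = OddHC.ht R := by
  intro c hc
  change (contc c).sup = _
  rcases h.contF hv hB c hc with h1 | h1
  · rw [h1, h.sqd.supz]
  · rw [h1, h.sqd.supy]

/-- rank: an old word is `Lower` than `z` or it has the content of `z` and `B = nil` (word 13 = `S(())`) -/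
theorem TyJ2Rv.rank (h : TyJ2Rv v R B S F g) (hv : v < 24) : ∀ w ∈ g.B, cyc w ∈ F ∨
    H1.Lower (contc (cyc w)) (OddHC.cont R + {2}) ∨
    (B = .nil ∧ w.1 = app S ((.nil △ .nil) △ .nil) ∧ contc (cyc w) = OddHC.cont R + {2}) := by
  obtain ⟨F0, g0, h0, hB, ha⟩ := h.base
  intro w hw
  rcases h0.rank w ((hB w).1 hw) with h1 | h1
  · exact Or.inl (h.base_sub hv h0 h1)
  · exact Or.inr h1

end Pool.OddHC
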