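import Pool.Agent.Work.MP_8f87b2_h24.J1Same
import Pool.Agent.Work.MP_8f87b2_h62.Drift
import Pool.Agent.Work.MP_8f87b2_end.End

/-!
# The star letters of a bare word with a soliton `y`

`iy y t e` : the word `C(t, e)` inflated `y - 1` times (so the beads `e` are solitons of size `y`).
`natp`: the star of `u` at `q` and the star of `w = iy y u e` at `q + y z`, at the same time, for all `z`.
-/

set_option autoImplicit false

namespace Pool.OddHC

open Finset BinaryTree

variable {j k : ℕ}

/-- displacement of the star, natural number -/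
noncomputable def nv (x : X j) : ℕ := (Vo x).val

/-- peaks before the first maximum -/
noncomputable def nb (x : X j) : ℕ := dsc true ((sl x.1).take ((Vo x).val + 1))

/-- `y`-fold inflation with the solitons `e` -/
def iy : ℕ → BinaryTree Unit → List ℕ → BinaryTree Unit
  | 0, t, _ => t
  | 1, t, e => ins t e
  | (y + 2), t, e => inf (iy (y + 1) t e)

theorem nv_ins (hk1 : 1 ≤ k) (u : X j) (e : List ℕ) (he : e.length = 2 * j + 1) (w : X k)
    (hw : w.1 = ins u.1 e) :
    nb w = (e.take (nv u)).sum + nb u ∧ nv w = nv u + 1 + 2 * (e.take (nv u)).sum + 2 * nb u :=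
  J1.dsc_ins hk1 u e he w hw

theorem nv_inf (hk1 : 1 ≤ k) (u : X j) (w : X k) (hw : w.1 = inf u.1) :
    nb w = nb u ∧ nv w = nv u + 1 + 2 * nb u := by
  have h := nv_ins hk1 u (List.replicate (2 * u.1.numNodes + 1) 0)
    (by rw [List.length_replicate, X_num]) w hw
  have h0 : ((List.replicate (2 * u.1.numNodes + 1) 0).take (nv u)).sum = 0 := by
    rw [List.take_replicate]
    simp
  rw [h0] at h
  exact ⟨by rw [h.1, zero_add], by have := h.2; omega⟩

/-- size and peaks of `iy` -/
theorem iy_num (t : BinaryTree Unit) (e : List ℕ) (he : e.length = 2 * t.numNodes + 1) :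
    ∀ y : ℕ, (iy (y + 1) t e).numNodes = t.numNodes + (y + 1) * (pkn t + e.sum) ∧
      pkn (iy (y + 1) t e) = pkn t + e.sum := by
  intro y
  induction y with
  | zero =>
    have h := ins_num t e he
    change (ins t e).numNodes = _ ∧ pkn (ins t e) = _
    rw [h.1, h.2]
    exact ⟨by ring, rfl⟩
  | succ y ih =>
    change (inf (iy (y + 1) t e)).numNodes = _ ∧ pkn (inf (iy (y + 1) t e)) = _
    have h := ins_num (iy (y + 1) t e) (List.replicate (2 * (iy (y + 1) t e).numNodes + 1) 0)
      (by rw [List.length_replicate])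
    unfold inf
    rw [h.1, h.2, ih.1, ih.2, List.sum_replicate]
    exact ⟨by simp; ring, by simp⟩

/-- the extras at time `t` -/
theorem word_iy (u : X j) (e : List ℕ) (he : e.length = 2 * j + 1) (t : ℕ) :
    ∃ f : List ℕ, f.length = 2 * j + 1 ∧ f.sum = e.sum ∧
      (∀ a < 2 * j + 1, f.getD a 0 = exl j e (sp u t + (a : ZMod (2 * j + 1)))) ∧
      ∀ (y k : ℕ) (w : X k), w.1 = iy (y + 1) u.1 e → ((TT ^ t) w).1 = iy (y + 1) ((TT ^ t) u).1 f := by
  induction t with
  | zero =>
    refine ⟨e, he, rfl, fun a ha => ?_, fun y k w hw => hw⟩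
    unfold exl
    rw [sp_zero, zero_add, ZMod.val_natCast, Nat.mod_eq_of_lt ha]
  | succ t ih =>
    obtain ⟨f, h1, h2, h3, h4⟩ := ih
    refine ⟨f.rotate (Vo ((TT ^ t) u)).val, by rw [List.length_rotate, h1], ?_, fun a ha => ?_, ?_⟩
    · rw [← h2]
      exact (List.rotate_perm f _).sum_eq
    · have h4 : (f.rotate (Vo ((TT ^ t) u)).val).getD a 0 =
          f.getD ((a + (Vo ((TT ^ t) u)).val) % (2 * j + 1)) 0 := by
        rw [List.getD_eq_getElem?_getD, List.getD_eq_getElem?_getD,
          List.getElem?_rotate (by omega), h1]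
      rw [h4, h3 _ (Nat.mod_lt _ (by omega)), sp_succ]
      congr 1
      rw [ZMod.natCast_mod]
      push_cast
      rw [ZMod.natCast_zmod_val]
      ring
    · -- one step of `T` on `iy`
      have key : ∀ (y k : ℕ) (w : X k), w.1 = iy (y + 1) ((TT ^ t) u).1 f →
          (TT w).1 = iy (y + 1) (TT ((TT ^ t) u)).1 (f.rotate (Vo ((TT ^ t) u)).val) := by
        intro y
        induction y with
        | zero =>
          intro k w hw
          rw [TT_apply, TT_apply]
          exact (TF_ins ((TT ^ t) u) f h1 w hw).1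
        | succ y ihy =>
          intro k w hw
          change w.1 = inf (iy (y + 1) ((TT ^ t) u).1 f) at hw
          obtain ⟨v, hv⟩ : ∃ v : X (iy (y + 1) ((TT ^ t) u).1 f).numNodes,
              v.1 = iy (y + 1) ((TT ^ t) u).1 f := ⟨⟨_, mem_treesOfNumNodesEq.2 rfl⟩, rfl⟩
          have h5 := ihy _ v hv
          change (TT w).1 = inf (iy (y + 1) (TT ((TT ^ t) u)).1 (f.rotate (Vo ((TT ^ t) u)).val))
          rw [← h5]
          rw [← hv] at hw
          have h6 := (TF_ins v (List.replicate (2 * v.1.numNodes + 1) 0)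
            (by rw [List.length_replicate, X_num]) w hw).1
          rw [← TT_apply, ← TT_apply, List.rotate_replicate] at h6
          rw [h6]
          unfold inf
          rw [X_num, X_num]
      intro y k w hw
      rw [pow_succ', Equiv.Perm.mul_apply, pow_succ', Equiv.Perm.mul_apply]
      exact key y k _ (h4 y k w hw)

/-- the displacement of `iy` -/
theorem nv_iy (u : X j) (f : List ℕ) (hf : f.length = 2 * j + 1) :
    ∀ (y k : ℕ) (w : X k), 1 ≤ k → w.1 = iy (y + 1) u.1 f →
      nb w = (f.take (nv u)).sum + nb u ∧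
      nv w = nv u + (y + 1) * (1 + 2 * nb u) + 2 * (y + 1) * (f.take (nv u)).sum := by
  intro y
  induction y with
  | zero =>
    intro k w hk hw
    have h := nv_ins hk u f hf w hw
    exact ⟨h.1, by rw [h.2]; ring⟩
  | succ y ih =>
    intro k w hk hw
    change w.1 = inf (iy (y + 1) u.1 f) at hw
    obtain ⟨v, hv⟩ : ∃ v : X (iy (y + 1) u.1 f).numNodes,
        v.1 = iy (y + 1) u.1 f := ⟨⟨_, mem_treesOfNumNodesEq.2 rfl⟩, rfl⟩
    rcases Nat.eq_zero_or_pos (iy (y + 1) u.1 f).numNodes with h0 | h0
    · exfalso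
      have h1 := iy_num u.1 f (by rw [X_num]; exact hf) y
      rw [h0] at h1
      have h2 : u.1.numNodes = 0 ∧ pkn u.1 + f.sum = 0 := by
        have := h1.1
        constructor
        · omega
        · have h3 : (y + 1) * (pkn u.1 + f.sum) = 0 := by omega
          rcases Nat.mul_eq_zero.1 h3 with h4 | h4
          · omega
          · exact h4
      have h3 := X_num w
      rw [hw] at h3
      have h4 := ins_num (iy (y + 1) u.1 f) (List.replicate (2 * (iy (y + 1) u.1 f).numNodes + 1) 0)
        (by rw [List.length_replicate])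
      unfold inf at h3
      rw [h4.1, h1.2, h0, h2.2] at h3
      simp at h3
      omega
    · obtain ⟨e1, e2⟩ := ih _ v h0 hv
      rw [← hv] at hw
      obtain ⟨e3, e4⟩ := nv_inf hk v w hw
      refine ⟨by rw [e3, e1], ?_⟩
      rw [e4, e2, e1]
      ring

end Pool.OddHC
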