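import Pool.Agent.Work.MP_8f87b2_h17.Nat9

/-!
# The words with natural edges

`NatW p t` : every hop pair which contains the T-cycle of the word `t` has a natural phase with the soliton `p`.
`natA` .. `natF` : the shapes. `NatW.mir` : mirror images.
-/

set_option autoImplicit false

namespace Pool.OddHC

namespace HN

open Finset BinaryTree Multiset Pool.OddHop

variable {i j k : ℕ}

/-- every hop pair at the T-cycle of `t` has a natural phase -/
def NatW (p : ℕ) (t : BinaryTree Unit) : Prop :=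
  ∀ ⦃k : ℕ⦄ (w : X k) (q : Cyc k), w.1 = t → HopC (cyc w) q → ∃ X, PhX (cyc w) q X ∧ NatC p X

theorem NatW.mir {p : ℕ} {t : BinaryTree Unit} (h : NatW p t) : NatW p (Tsq.mir t) := by
  intro k w q hw hq
  have h1 : (Tsq.mirX w).1 = t := by
    change Tsq.mir w.1 = t
    rw [hw, Tsq.mir_mir]
  have h2 := hopC_mir hq
  rw [mc_cyc] at h2
  obtain ⟨X, h3, h4⟩ := h _ _ h1 h2
  refine ⟨Tsq.mir X, ?_, h4.mir⟩
  have h5 := h3.mir
  rw [mc_mc, mc_cyc, HM.mirX_mirX] at h5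
  exact h5

theorem NatW.of_mir {p : ℕ} {t : BinaryTree Unit} (h : NatW p (Tsq.mir t)) : NatW p t := by
  have := h.mir
  rwa [Tsq.mir_mir] at this

/-! ### One bead -/

theorem dl_zero {f : ZMod (2 * j + 1) → ℕ} {x β : ZMod (2 * j + 1)}
    (h : dl j β = fun z => f z + dl j x z) : x = β ∧ ∀ z, f z = 0 := by
  have h1 := congrFun h x
  have h2 : dl j x x = 1 := if_pos rfl
  have hx : x = β := by
    by_contra h0
    have h3 : dl j β x = 0 := if_neg h0
    rw [h3] at h1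
    change 0 = f x + dl j x x at h1
    omega
  subst hx
  refine ⟨rfl, fun z => ?_⟩
  have h3 := congrFun h z
  change dl j x z = f z + dl j x z at h3
  omega

theorem natL_zero {Y : ℕ} {x0 : ZMod (2 * i + 1)} {f : ZMod (2 * j + 1) → ℕ} (hf : ∀ z, f z = 0)
    {l : ZMod (2 * j + 1)} {d : ZMod (2 * i + 1)} (hd : d = -1 ∨ d = 0 ∨ d = 1 ∨ d = 2) (h : Res Y (x0 + d) l) :
    NatL Y x0 f l := by
  rcases hd with rfl | rfl | rfl | rfl
  · exact Or.inr (Or.inr (Or.inl ⟨h, fun _ _ => hf _⟩))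
  · exact Or.inl ⟨h, fun _ _ => hf _⟩
  · exact Or.inr (Or.inl ⟨h, fun _ _ => hf _⟩)
  · exact Or.inr (Or.inr (Or.inr ⟨h, fun _ _ => hf _⟩))

/-- **ONE BEAD** -/
theorem nat_one (hi : 1 ≤ i) (u : X i) (x0 : ZMod (2 * i + 1)) (Y : ℕ) (W : X j)
    (hW : W.1 = iy (Y + 1) u.1 (lf (dl i x0))) (β : ZMod (2 * j + 1)) {d : ZMod (2 * i + 1)}
    (hd : d = -1 ∨ d = 0 ∨ d = 1) (hr : Res Y (x0 + d) β) : NatW (Y + 2) (ins W.1 (lf (dl j β))) := by
  intro k w q hw hq
  have hsz := size_iy u x0 Y W hW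
  have hj : 1 ≤ j := by omega
  refine nat_gen hi hj u x0 Y W hW (dl j β) hq hw rfl ?_
  intro f x hx
  obtain ⟨rfl, hf⟩ := dl_zero hx
  have hr' := hr.succ hsz
  rw [add_assoc] at hr'
  refine ⟨natL_zero hf (by tauto) hr, natL_zero hf (d := d + 1) ?_ hr'⟩
  rcases hd with rfl | rfl | rfl
  · right; left; ring
  · right; right; left; ring
  · right; right; right; ring

/-! ### The shapes with one bead -/

/-- the word with the soliton in front -/
theorem front_word (V0 : BinaryTree Unit) (Y : ℕ) : ∃ (u : X V0.numNodes) (j : ℕ) (W : X j),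
    u.1 = V0 ∧ j = Y + (inf^[Y + 1] V0).numNodes + 1 ∧ W.1 = pc Y △ inf^[Y + 1] V0 ∧
      W.1 = iy (Y + 1) u.1 (lf (dl V0.numNodes 0)) := by
  have h1 : (pc Y △ inf^[Y + 1] V0).numNodes = Y + (inf^[Y + 1] V0).numNodes + 1 := by
    change (pc Y).numNodes + (inf^[Y + 1] V0).numNodes + 1 = _
    rw [pc_num]
  refine ⟨⟨V0, mem_treesOfNumNodesEq.2 rfl⟩, _, ⟨_, mem_treesOfNumNodesEq.2 h1⟩, rfl, rfl, rfl, ?_⟩
  exact (iy_front (i := V0.numNodes) ⟨V0, mem_treesOfNumNodesEq.2 rfl⟩ Y).symm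

theorem num_pos {t : BinaryTree Unit} (h : t ≠ .nil) : 1 ≤ t.numNodes := by
  cases t with
  | nil => exact absurd rfl h
  | node _ A B => change 1 ≤ A.numNodes + B.numNodes + 1; omega

theorem inf_iter_succ (t : BinaryTree Unit) (Y : ℕ) : inf^[Y + 2] t = inf (inf^[Y + 1] t) :=
  Function.iterate_succ_apply' _ _ _

theorem res_zero {Y n : ℕ} {x0 : ZMod (2 * i + 1)} : Res (j := j) Y (x0 + 0) ((x0.val + (Y + 1) * n : ℕ) : ZMod (2 * j + 1)) := by
  refine ⟨(n : ZMod (2 * j + 1)), ?_⟩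
  rw [add_zero]
  push_cast
  ring

/-- `[Y+2] () V` -/
theorem natA {V0 : BinaryTree Unit} (hV : V0 ≠ .nil) (Y : ℕ) :
    NatW (Y + 2) (app (pc (Y + 2)) (.nil △ inf^[Y + 2] V0)) := by
  obtain ⟨u, j, W, hu, hj, hW, hW'⟩ := front_word V0 Y
  have h1 := nat_one (num_pos hV) u 0 Y W hW' ((2 * Y + 2 : ℕ) : ZMod (2 * j + 1)) (d := 0) (by tauto) (by
    have := res_zero (i := V0.numNodes) (j := j) (Y := Y) (n := 2) (x0 := 0)
    rw [ZMod.val_zero, zero_add] at this
    have e : 2 * Y + 2 = (Y + 1) * 2 := by ring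
    rw [e]
    simpa using this)
  rw [hW, word5 Y _ hj, ← inf_iter_succ] at h1
  exact h1

/-- `([Y+1] ()) V` -/
theorem natB {V0 : BinaryTree Unit} (hV : V0 ≠ .nil) (Y : ℕ) :
    NatW (Y + 2) (app (pc (Y + 1)) (.nil △ .nil) △ inf^[Y + 2] V0) := by
  obtain ⟨u, j, W, hu, hj, hW, hW'⟩ := front_word V0 Y
  have hsz := size_iy u 0 Y W hW'
  have h1 := nat_one (num_pos hV) u 0 Y W hW' ((2 * Y + 1 : ℕ) : ZMod (2 * j + 1)) (d := -1) (by tauto) (by
    have h2 := res_zero (i := V0.numNodes) (j := j) (Y := Y) (n := 2) (x0 := 0)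
    have h3 := h2.pred hsz
    have e1 : (0 : ZMod (2 * V0.numNodes + 1)) + 0 - 1 = 0 + -1 := by ring
    have e2 : (((0 : ZMod (2 * V0.numNodes + 1)).val + (Y + 1) * 2 : ℕ) : ZMod (2 * j + 1)) - 1 =
        ((2 * Y + 1 : ℕ) : ZMod (2 * j + 1)) := by
      rw [ZMod.val_zero]
      push_cast
      ring
    rw [e1, e2] at h3
    exact h3)
  rw [hW, word4 Y _ hj, ← inf_iter_succ] at h1
  exact h1

/-- `[Y+2] (() V)` -/
theorem natC' {V0 : BinaryTree Unit} (hV : V0 ≠ .nil) (Y : ℕ) :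
    NatW (Y + 2) (app (pc (Y + 2)) ((.nil △ inf^[Y + 2] V0) △ .nil)) := by
  obtain ⟨u, j, W, hu, hj, hW, hW'⟩ := front_word (V0 △ .nil) Y
  have hit : ∀ n : ℕ, inf^[n] (V0 △ .nil) = inf^[n] V0 △ .nil ∧ inf^[n] V0 ≠ .nil := by
    intro n
    induction n with
    | zero => exact ⟨rfl, hV⟩
    | succ n ih =>
      rw [Function.iterate_succ_apply', ih.1, Function.iterate_succ_apply', inf_node, inf1_eq ih.2]
      exact ⟨rfl, inf_ne_nil ih.2⟩
  have hsz := size_iy u 0 Y W hW'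
  have h1 := nat_one (num_pos (by simp)) u 0 Y W hW' ((2 * Y + 3 : ℕ) : ZMod (2 * j + 1)) (d := 1) (by tauto) (by
    have h2 := res_zero (i := (V0 △ .nil).numNodes) (j := j) (Y := Y) (n := 2) (x0 := 0)
    have h3 := h2.succ hsz
    have e1 : (0 : ZMod (2 * (V0 △ .nil).numNodes + 1)) + 0 + 1 = 0 + 1 := by ring
    have e2 : (((0 : ZMod (2 * (V0 △ .nil).numNodes + 1)).val + (Y + 1) * 2 : ℕ) : ZMod (2 * j + 1)) + 1 =
        ((2 * Y + 3 : ℕ) : ZMod (2 * j + 1)) := by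
      rw [ZMod.val_zero]
      push_cast
      ring
    rw [e1, e2] at h3
    exact h3)
  have hV1 := (hit (Y + 1)).1
  have hV2 := (hit (Y + 1)).2
  have hj' : j = Y + ((inf^[Y + 1] V0).numNodes + 1) + 1 := by
    rw [hV1] at hj
    exact hj
  obtain ⟨V', hV'⟩ : ∃ V', V' = inf^[Y + 1] V0 := ⟨_, rfl⟩
  rw [hW, hV1, ← hV'] at h1
  rw [← hV'] at hV2 hj'
  have h4 : ins (pc Y △ (V' △ .nil)) (lf (dl j ((2 * Y + 3 : ℕ) : ZMod (2 * j + 1)))) =
      app (pc (Y + 2)) ((.nil △ inf V') △ .nil) := by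
    rw [lf_dl (2 * Y + 3) (2 * V'.numNodes + 1) (by omega)]
    have h5 : List.replicate (2 * Y + 3) 0 ++ 1 :: List.replicate (2 * V'.numNodes + 1) 0 =
        (List.replicate (2 * (pc (Y + 1)).numNodes + 1) 0) ++
          (1 :: (List.replicate (2 * V'.numNodes) 0 ++ [0])) := by
      rw [pc_num]
      have e1 : (List.replicate (2 * V'.numNodes) 0 ++ [0] : List ℕ) = List.replicate (2 * V'.numNodes + 1) 0 := by
        rw [List.replicate_succ']
      rw [e1]
      congr 1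
    have h2 : pc Y △ (V' △ .nil) = app (pc (Y + 1)) (V' △ .nil) := rfl
    have h6 : ins (V' △ .nil) (0 :: (1 :: (List.replicate (2 * V'.numNodes) 0 ++ [0]))) =
        (.nil △ inf V') △ .nil := by
      have h7 := ins_comp V' (1 :: List.replicate (2 * V'.numNodes) 0) 0 0 (by simp)
      rw [List.cons_append] at h7
      rw [h7]
      have h8 : bump V' (1 :: List.replicate (2 * V'.numNodes) 0) = 1 :: List.replicate (2 * V'.numNodes) 0 := by
        cases V' with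
        | nil => exact absurd rfl hV2
        | node _ A B => rfl
      rw [h8, ins_lv]
      rfl
    rw [h5, h2, ins_app _ _ _ _ (by simp), h6]
    have h9 : ins (pc (Y + 1)) (List.replicate (2 * (pc (Y + 1)).numNodes + 1) 0) = inf (pc (Y + 1)) := rfl
    rw [h9, inf_pc (by omega)]
  rw [h4, hV', ← inf_iter_succ] at h1
  exact h1

end HN

end Pool.OddHC
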