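import Pool.Agent.Work.MP_8f87b2_h17.Nat10

/-!
# The words with natural edges: `([Y+2] () V) P` and two beads
-/

set_option autoImplicit false

namespace Pool.OddHC

namespace HN

open Finset BinaryTree Multiset Pool.OddHop

variable {i j k : ℕ}

theorem inf_iter_ne {V : BinaryTree Unit} (hV : V ≠ .nil) (n : ℕ) : inf^[n] V ≠ .nil := by
  induction n with
  | zero => exact hV
  | succ n ih => rw [Function.iterate_succ_apply']; exact inf_ne_nil ih

theorem inf_iter_node {V : BinaryTree Unit} (hV : V ≠ .nil) (P : BinaryTree Unit) (n : ℕ) :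
    inf^[n] (V △ P) = inf^[n] V △ inf^[n] P := by
  induction n with
  | zero => rfl
  | succ n ih =>
    rw [Function.iterate_succ_apply', ih, Function.iterate_succ_apply', Function.iterate_succ_apply', inf_node,
      inf1_eq (inf_iter_ne hV n)]

theorem inf_iter_nil (n : ℕ) : inf^[n] (.nil : BinaryTree Unit) = .nil := by
  induction n with
  | zero => rfl
  | succ n ih => rw [Function.iterate_succ_apply', ih]; rfl

theorem inf_iter_app (A B : BinaryTree Unit) (n : ℕ) : inf^[n] (app A B) = app (inf^[n] A) (inf^[n] B) := by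
  induction n with
  | zero => rfl
  | succ n ih =>
    rw [Function.iterate_succ_apply', ih, Function.iterate_succ_apply', Function.iterate_succ_apply', inf_app]

theorem num_big {V : BinaryTree Unit} (hV : V ≠ .nil) (Y : ℕ) : Y + 2 ≤ (inf^[Y + 1] V).numNodes := by
  rw [inf_iter_num]
  have h1 := num_pos hV
  have h2 := pkn_pos (k := V.numNodes) ⟨V, mem_treesOfNumNodesEq.2 rfl⟩ h1
  have h3 : Y + 1 ≤ (Y + 1) * pkn V := Nat.le_mul_of_pos_right _ h2
  omega

/-- the bead behind the soliton inside the first component -/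
theorem ins_first_comp (Y : ℕ) (V' P' : BinaryTree Unit) (hj : j = Y + V'.numNodes + 1 + P'.numNodes + 1) :
    ins ((pc Y △ V') △ P') (lf (dl j ((2 * Y + 3 : ℕ) : ZMod (2 * j + 1)))) =
      app (pc (Y + 2)) (.nil △ inf V') △ inf P' := by
  rw [lf_dl (2 * Y + 3) (2 * V'.numNodes + 1 + 2 * P'.numNodes) (by omega)]
  have hn : (pc Y △ V').numNodes = Y + V'.numNodes + 1 := by
    change (pc Y).numNodes + V'.numNodes + 1 = _
    rw [pc_num]
  have h5 : List.replicate (2 * Y + 3) 0 ++ 1 :: List.replicate (2 * V'.numNodes + 1 + 2 * P'.numNodes) 0 =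
      (0 :: ((List.replicate (2 * Y + 2) 0 ++ 1 :: List.replicate (2 * V'.numNodes) 0) ++ [0])) ++
        List.replicate (2 * P'.numNodes) 0 := by
    have e1 : (List.replicate (2 * V'.numNodes + 1 + 2 * P'.numNodes) 0 : List ℕ) =
        (List.replicate (2 * V'.numNodes) 0 ++ [0]) ++ List.replicate (2 * P'.numNodes) 0 := by
      rw [← List.replicate_succ', List.replicate_append_replicate]
    have e2 : (List.replicate (2 * Y + 3) 0 : List ℕ) = 0 :: List.replicate (2 * Y + 2) 0 := rfl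
    rw [e1, e2]
    simp only [List.cons_append, List.append_assoc]
  have h2 : (pc Y △ V') △ P' = app ((pc Y △ V') △ .nil) P' := rfl
  have h7 := ins_comp (pc Y △ V') (List.replicate (2 * Y + 2) 0 ++ 1 :: List.replicate (2 * V'.numNodes) 0) 0 0
    (by rw [hn]; simp; omega)
  have h8 : bump (pc Y △ V') (List.replicate (2 * Y + 2) 0 ++ 1 :: List.replicate (2 * V'.numNodes) 0) =
      List.replicate (2 * Y + 2) 0 ++ 1 :: List.replicate (2 * V'.numNodes) 0 := rfl
  have h9 := word5 (j := Y + V'.numNodes + 1) Y V' rfl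
  rw [lf_dl (2 * Y + 2) (2 * V'.numNodes) (by omega)] at h9
  rw [h5, h2, ins_app _ _ _ _ (by
    rw [List.length_cons, List.length_append, List.length_append, List.length_cons, List.length_replicate,
      List.length_replicate]
    change _ = 2 * ((pc Y △ V').numNodes + 0 + 1) + 1
    rw [hn, List.length_singleton]
    omega), h7, h8, h9, ins_zero]
  rfl

/-- `([Y+2] () V) P` -/
theorem natD {V0 : BinaryTree Unit} (hV : V0 ≠ .nil) (P0 : BinaryTree Unit) (Y : ℕ) :
    NatW (Y + 2) (app (pc (Y + 2)) (.nil △ inf^[Y + 2] V0) △ inf^[Y + 2] P0) := by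
  obtain ⟨u, hu⟩ : ∃ u : X (V0 △ P0).numNodes, u.1 = V0 △ P0 := ⟨⟨_, mem_treesOfNumNodesEq.2 rfl⟩, rfl⟩
  have hi : 1 ≤ (V0 △ P0).numNodes := num_pos (by simp)
  obtain ⟨A, B, h1, h2, h3⟩ := iy_f1 hi u Y
  rw [hu, inf_iter_node hV] at h2
  have hA : A = inf^[Y + 1] V0 := by injection h2 with _ a _; exact a.symm
  have hB : B = inf^[Y + 1] P0 := by injection h2 with _ _ b; exact b.symm
  subst hA hB
  have hn : ((pc Y △ inf^[Y + 1] V0) △ inf^[Y + 1] P0).numNodes =
      Y + (inf^[Y + 1] V0).numNodes + 1 + (inf^[Y + 1] P0).numNodes + 1 := by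
    change (pc Y).numNodes + _ + 1 + _ + 1 = _
    rw [pc_num]
  obtain ⟨j, hj⟩ : ∃ j, j = Y + (inf^[Y + 1] V0).numNodes + 1 + (inf^[Y + 1] P0).numNodes + 1 := ⟨_, rfl⟩
  obtain ⟨W, hW⟩ : ∃ W : X j, W.1 = (pc Y △ inf^[Y + 1] V0) △ inf^[Y + 1] P0 :=
    ⟨⟨_, mem_treesOfNumNodesEq.2 (hn.trans hj.symm)⟩, rfl⟩
  have hW' := hW.trans h3.symm
  have h4 := nat_one hi u 1 Y W hW' ((2 * Y + 3 : ℕ) : ZMod (2 * j + 1)) (d := 0) (by tauto) (by
    have h5 := res_zero (i := (V0 △ P0).numNodes) (j := j) (Y := Y) (n := 2) (x0 := 1)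
    rw [val_one' hi] at h5
    have e : 2 * Y + 3 = 1 + (Y + 1) * 2 := by ring
    rw [e]
    exact h5)
  rw [hW, ins_first_comp Y _ _ hj, ← inf_iter_succ, ← inf_iter_succ] at h4
  exact h4

/-! ### Two beads -/

theorem dl_two {f : ZMod (2 * j + 1) → ℕ} {x β γ : ZMod (2 * j + 1)} (hne : β ≠ γ)
    (h : (fun z => dl j β z + dl j γ z) = fun z => f z + dl j x z) :
    (x = β ∧ ∀ z, f z = dl j γ z) ∨ (x = γ ∧ ∀ z, f z = dl j β z) := by
  have h1 := congrFun h x
  have h2 : dl j x x = 1 := if_pos rfl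
  by_cases hx : x = β
  · subst hx
    left
    refine ⟨rfl, fun z => ?_⟩
    have h3 := congrFun h z
    change dl j x z + dl j γ z = f z + dl j x z at h3
    omega
  · by_cases hx' : x = γ
    · subst hx'
      right
      refine ⟨rfl, fun z => ?_⟩
      have h3 := congrFun h z
      change dl j β z + dl j x z = f z + dl j x z at h3
      omega
    · exfalso
      have h3 : dl j β x = 0 := if_neg hx
      have h4 : dl j γ x = 0 := if_neg hx'
      change dl j β x + dl j γ x = f x + dl j x x at h1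
      omega

theorem cast_ne {N a b : ℕ} (h1 : a < b) (h2 : b < N) : (a : ZMod N) ≠ (b : ZMod N) := by
  intro h
  rw [ZMod.natCast_eq_natCast_iff] at h
  have := h.eq_of_lt_of_lt (by omega) h2
  omega

/-- the bead `D` steps ahead -/
theorem dl_fwd {D a : ℕ} (ha : a < D) (hD : D < 2 * j + 1) (l γ : ZMod (2 * j + 1))
    (h : γ = l + (D : ZMod (2 * j + 1))) : dl j γ (l + (a : ZMod (2 * j + 1))) = 0 := by
  apply if_neg
  rw [h]
  intro h1
  exact cast_ne ha hD (add_left_cancel h1)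

theorem dl_bwd {D a : ℕ} (ha : a < D) (hD : D < 2 * j + 1) (l γ : ZMod (2 * j + 1))
    (h : γ = l - (D : ZMod (2 * j + 1))) : dl j γ (l - (a : ZMod (2 * j + 1))) = 0 := by
  apply if_neg
  rw [h]
  intro h1
  exact cast_ne ha hD (by linear_combination -h1)

theorem res_add {Y : ℕ} {x0 : ZMod (2 * i + 1)} {β : ZMod (2 * j + 1)} (h : Res Y x0 β) (n : ℕ) :
    Res Y x0 (β + (((Y + 1) * n : ℕ) : ZMod (2 * j + 1))) := by
  have := h.add (n : ZMod (2 * j + 1))
  have e : (((Y + 1) * n : ℕ) : ZMod (2 * j + 1)) = ((Y + 1 : ℕ) : ZMod (2 * j + 1)) * (n : ZMod (2 * j + 1)) := by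
    push_cast
    ring
  rw [e]
  exact this

/-- **TWO BEADS** next to the soliton on both sides -/
theorem nat_two (hi : 1 ≤ i) (u : X i) (x0 : ZMod (2 * i + 1)) (Y : ℕ) (W : X j)
    (hW : W.1 = iy (Y + 1) u.1 (lf (dl i x0))) (β : ZMod (2 * j + 1)) (hr : Res Y x0 β)
    (hbig : 2 * Y + 2 + (2 * Y + 2) ≤ 2 * j) :
    NatW (Y + 2) (ins W.1 (lf (fun z => dl j β z + dl j (β + ((2 * Y + 2 : ℕ) : ZMod (2 * j + 1))) z))) := by
  intro k w q hw hq
  have hsz := size_iy u x0 Y W hW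
  have hj : 1 ≤ j := by omega
  obtain ⟨γ, hγ⟩ : ∃ γ, γ = β + ((2 * Y + 2 : ℕ) : ZMod (2 * j + 1)) := ⟨_, rfl⟩
  have hN : ((2 * j + 1 : ℕ) : ZMod (2 * j + 1)) = 0 := ZMod.natCast_self _
  -- the other distance
  obtain ⟨D', hD'⟩ : ∃ D', D' + (2 * Y + 2) = 2 * j + 1 := ⟨2 * j + 1 - (2 * Y + 2), by omega⟩
  have hD2 : ((D' : ℕ) : ZMod (2 * j + 1)) = -((2 * Y + 2 : ℕ) : ZMod (2 * j + 1)) := by
    have h1 : ((D' + (2 * Y + 2) : ℕ) : ZMod (2 * j + 1)) = 0 := by rw [hD', hN]
    push_cast at h1 ⊢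
    linear_combination h1
  have hr2 : Res Y x0 γ := by
    have := res_add hr 2
    rw [hγ]
    have e : (Y + 1) * 2 = 2 * Y + 2 := by ring
    rwa [e] at this
  have hne : β ≠ γ := by
    rw [hγ]
    intro h
    have h1 : ((2 * Y + 2 : ℕ) : ZMod (2 * j + 1)) = ((0 : ℕ) : ZMod (2 * j + 1)) := by
      rw [Nat.cast_zero]
      exact (add_eq_left.1 h.symm)
    exact cast_ne (N := 2 * j + 1) (a := 0) (b := 2 * Y + 2) (by omega) (by omega) h1.symm
  refine nat_gen hi hj u x0 Y W hW _ hq hw rfl ?_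
  intro f x hx
  rw [← hγ] at hx
  rcases dl_two hne hx with ⟨rfl, hf⟩ | ⟨rfl, hf⟩
  · -- the star at `β`, the bead at `γ`
    constructor
    · refine Or.inl ⟨by rw [add_zero]; exact hr, fun a ha => ?_⟩
      rw [hf]
      exact dl_fwd (D := 2 * Y + 2) ha (by omega) _ _ hγ
    · refine Or.inr (Or.inl ⟨hr.succ hsz, fun a ha => ?_⟩)
      rw [hf, add_sub_cancel_right]
      refine dl_bwd (D := D') (by omega) (by omega) _ _ ?_
      rw [hγ, hD2]
      ring
  · constructor
    · refine Or.inl ⟨by rw [add_zero]; exact hr2, fun a ha => ?_⟩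
      rw [hf]
      refine dl_fwd (D := D') (by omega) (by omega) _ _ ?_
      rw [hγ, hD2]
      ring
    · refine Or.inr (Or.inl ⟨hr2.succ hsz, fun a ha => ?_⟩)
      rw [hf, add_sub_cancel_right]
      refine dl_bwd (D := 2 * Y + 2) (by omega) (by omega) _ _ ?_
      rw [hγ]
      ring

end HN

end Pool.OddHC
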