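import Pool.Agent.Work.MP_8f87b2_h17.Nat11

/-!
# The words with natural edges: two beads, and the twenty words of a deep window
-/

set_option autoImplicit false

namespace Pool.OddHC

namespace HN

open Finset BinaryTree Multiset Pool.OddHop

variable {i j k : ℕ}

theorem getD_two (a b c x : ℕ) :
    (List.replicate a 0 ++ 1 :: (List.replicate b 0 ++ 1 :: List.replicate c 0)).getD x 0 =
      if x = a then 1 else if x = a + b + 1 then 1 else 0 := by
  rcases lt_trichotomy x a with h | h | h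
  · rw [List.getD_append _ _ _ _ (by simpa using h), List.getD_replicate _ h, if_neg (by omega), if_neg (by omega)]
  · subst h
    rw [List.getD_append_right _ _ _ _ (by simp)]
    simp
  · rw [List.getD_append_right _ _ _ _ (by simpa using h.le), List.length_replicate]
    obtain ⟨y, hy⟩ : ∃ y, x - a = y + 1 := ⟨x - a - 1, by omega⟩
    rw [hy, List.getD_cons_succ, getD_one, if_neg (by omega : ¬ x = a)]
    have : (y = b) ↔ (x = a + b + 1) := by omega
    simp only [this]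

theorem cast_iff {N a x : ℕ} [NeZero N] (hx : x < N) (ha : a < N) : ((x : ZMod N) = (a : ZMod N)) ↔ x = a := by
  constructor
  · intro h
    have h3 := congrArg ZMod.val h
    rwa [ZMod.val_natCast_of_lt hx, ZMod.val_natCast_of_lt ha] at h3
  · rintro rfl; rfl

theorem lf_two (a b c : ℕ) (h : a + b + c + 1 = 2 * j) :
    lf (fun z => dl j (a : ZMod (2 * j + 1)) z + dl j (((a + b + 1 : ℕ)) : ZMod (2 * j + 1)) z) =
      List.replicate a 0 ++ 1 :: (List.replicate b 0 ++ 1 :: List.replicate c 0) := by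
  apply lf_eq_of_getD
  · simp only [List.length_append, List.length_cons, List.length_replicate]
    omega
  · intro x hx
    rw [getD_two]
    unfold dl
    simp only [cast_iff hx (by omega : a < 2 * j + 1), cast_iff hx (by omega : a + b + 1 < 2 * j + 1)]
    by_cases h1 : x = a
    · rw [if_pos h1, if_pos h1, if_neg (by omega)]
    · rw [if_neg h1, if_neg h1, zero_add]

theorem iy_mid (B0 S0 : BinaryTree Unit) (hi : i = B0.numNodes + S0.numNodes) : ∀ Y : ℕ,
    iy (Y + 1) (app B0 S0) (lf (dl i ((2 * B0.numNodes : ℕ) : ZMod (2 * i + 1)))) =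
      app (inf^[Y + 1] B0) (pc Y △ inf^[Y + 1] S0) := by
  intro Y
  induction Y with
  | zero =>
    change ins (app B0 S0) (lf (dl i ((2 * B0.numNodes : ℕ) : ZMod (2 * i + 1)))) = _
    rw [lf_dl (2 * B0.numNodes) (2 * S0.numNodes) (by omega)]
    have h1 : List.replicate (2 * B0.numNodes) 0 ++ 1 :: List.replicate (2 * S0.numNodes) 0 =
        (List.replicate (2 * B0.numNodes) 0 ++ [1]) ++ List.replicate (2 * S0.numNodes) 0 := by
      rw [List.append_assoc]
      rfl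
    rw [h1, ins_app _ _ _ _ (by simp), ins_end, ins_zero, app_assoc']
    rfl
  | succ Y ih =>
    change inf (iy (Y + 1) (app B0 S0) (lf (dl i ((2 * B0.numNodes : ℕ) : ZMod (2 * i + 1))))) = _
    rw [ih, inf_app, inf_node, inf1_pc, Function.iterate_succ_apply' (f := inf) (n := Y + 1),
      Function.iterate_succ_apply' (f := inf) (n := Y + 1)]

theorem word_mid (Y : ℕ) (B' S' : BinaryTree Unit) (hj : j = B'.numNodes + (Y + S'.numNodes + 1)) :
    ins (app B' (pc Y △ S')) (lf (fun z => dl j ((2 * B'.numNodes : ℕ) : ZMod (2 * j + 1)) z +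
      dl j (((2 * B'.numNodes : ℕ) : ZMod (2 * j + 1)) + ((2 * Y + 2 : ℕ) : ZMod (2 * j + 1))) z)) =
      app (inf B') (.nil △ (app (pc (Y + 2)) (.nil △ inf S'))) := by
  have e0 : (((2 * B'.numNodes : ℕ) : ZMod (2 * j + 1)) + ((2 * Y + 2 : ℕ) : ZMod (2 * j + 1))) =
      ((2 * B'.numNodes + (2 * Y + 1) + 1 : ℕ) : ZMod (2 * j + 1)) := by
    push_cast
    ring
  rw [e0, lf_two (2 * B'.numNodes) (2 * Y + 1) (2 * S'.numNodes) (by omega)]
  have h1 : List.replicate (2 * B'.numNodes) 0 ++ 1 :: (List.replicate (2 * Y + 1) 0 ++ 1 :: List.replicate (2 * S'.numNodes) 0) =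
      (List.replicate (2 * B'.numNodes) 0 ++ [1]) ++
        (List.replicate (2 * Y + 1) 0 ++ 1 :: List.replicate (2 * S'.numNodes) 0) := by
    rw [List.append_assoc]
    rfl
  have h2 := word5 (j := Y + S'.numNodes + 1) Y S' rfl
  rw [lf_dl (2 * Y + 2) (2 * S'.numNodes) (by omega)] at h2
  have h3 : (0 :: (List.replicate (2 * Y + 1) 0 ++ 1 :: List.replicate (2 * S'.numNodes) 0) : List ℕ) =
      List.replicate (2 * Y + 2) 0 ++ 1 :: List.replicate (2 * S'.numNodes) 0 := rfl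
  rw [h1, ins_app _ _ _ _ (by simp), ins_end, h3, h2, app_assoc']
  rfl

/-- `B () [Y+2] () S` -/
theorem natE {B0 S0 : BinaryTree Unit} (h0 : app B0 S0 ≠ .nil) (Y : ℕ) :
    NatW (Y + 2) (app (inf^[Y + 2] B0) (.nil △ app (pc (Y + 2)) (.nil △ inf^[Y + 2] S0))) := by
  obtain ⟨i, hi⟩ : ∃ i, i = B0.numNodes + S0.numNodes := ⟨_, rfl⟩
  have hnum : (app B0 S0).numNodes = i := by rw [hi, num_app]
  have hi1 : 1 ≤ i := by rw [← hnum]; exact num_pos h0
  obtain ⟨u, hu⟩ : ∃ u : X i, u.1 = app B0 S0 := ⟨⟨_, mem_treesOfNumNodesEq.2 hnum⟩, rfl⟩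
  obtain ⟨j, hj⟩ : ∃ j, j = (inf^[Y + 1] B0).numNodes + (Y + (inf^[Y + 1] S0).numNodes + 1) := ⟨_, rfl⟩
  have hWn : (app (inf^[Y + 1] B0) (pc Y △ inf^[Y + 1] S0)).numNodes = j := by
    rw [num_app, hj]
    change _ + ((pc Y).numNodes + _ + 1) = _
    rw [pc_num]
  obtain ⟨W, hW⟩ : ∃ W : X j, W.1 = app (inf^[Y + 1] B0) (pc Y △ inf^[Y + 1] S0) :=
    ⟨⟨_, mem_treesOfNumNodesEq.2 hWn⟩, rfl⟩
  have hW' : W.1 = iy (Y + 1) u.1 (lf (dl i ((2 * B0.numNodes : ℕ) : ZMod (2 * i + 1)))) := by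
    rw [hW, hu, iy_mid B0 S0 hi]
  have hB := inf_iter_num B0 Y
  have hr : Res (j := j) Y ((2 * B0.numNodes : ℕ) : ZMod (2 * i + 1))
      ((2 * (inf^[Y + 1] B0).numNodes : ℕ) : ZMod (2 * j + 1)) := by
    have h1 := res_zero (i := i) (j := j) (Y := Y) (n := 2 * pkn B0) (x0 := ((2 * B0.numNodes : ℕ) : ZMod (2 * i + 1)))
    rw [ZMod.val_natCast_of_lt (by omega : 2 * B0.numNodes < 2 * i + 1), add_zero] at h1
    have e : 2 * (inf^[Y + 1] B0).numNodes = 2 * B0.numNodes + (Y + 1) * (2 * pkn B0) := by rw [hB]; ring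
    rw [e]
    exact h1
  have hbig : 2 * Y + 2 + (2 * Y + 2) ≤ 2 * j := by
    have h1 : Y + 2 ≤ (inf^[Y + 1] B0).numNodes + (inf^[Y + 1] S0).numNodes := by
      by_cases hB0 : B0 = .nil
      · subst hB0
        have := num_big (V := S0) h0 Y
        omega
      · have := num_big hB0 Y
        omega
    omega
  have h4 := nat_two hi1 u _ Y W hW' _ hr hbig
  rw [hW, word_mid Y _ _ hj, ← inf_iter_succ, ← inf_iter_succ] at h4
  exact h4

/-- **TWO BEADS**, one next to the soliton -/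
theorem nat_two' (hi : 1 ≤ i) (u : X i) (x0 : ZMod (2 * i + 1)) (Y : ℕ) (W : X j)
    (hW : W.1 = iy (Y + 1) u.1 (lf (dl i x0))) (β γ : ZMod (2 * j + 1))
    (hβ : β = γ + ((2 * Y + 3 : ℕ) : ZMod (2 * j + 1))) (hr : Res Y x0 γ) (hr' : Res Y (x0 + 1) β)
    (hbig : 2 * Y + 3 + (2 * Y + 2) ≤ 2 * j) :
    NatW (Y + 2) (ins W.1 (lf (fun z => dl j β z + dl j γ z))) := by
  intro k w q hw hq
  have hsz := size_iy u x0 Y W hW
  have hj : 1 ≤ j := by omega
  have hN : ((2 * j + 1 : ℕ) : ZMod (2 * j + 1)) = 0 := ZMod.natCast_self _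
  obtain ⟨D', hD'⟩ : ∃ D', D' + (2 * Y + 3) = 2 * j + 1 := ⟨2 * j + 1 - (2 * Y + 3), by omega⟩
  have hD2 : ((D' : ℕ) : ZMod (2 * j + 1)) = -((2 * Y + 3 : ℕ) : ZMod (2 * j + 1)) := by
    have h1 : ((D' + (2 * Y + 3) : ℕ) : ZMod (2 * j + 1)) = 0 := by rw [hD', hN]
    push_cast at h1 ⊢
    linear_combination h1
  have hne : β ≠ γ := by
    rw [hβ]
    intro h
    have h1 : ((2 * Y + 3 : ℕ) : ZMod (2 * j + 1)) = ((0 : ℕ) : ZMod (2 * j + 1)) := by
      rw [Nat.cast_zero]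
      exact (add_eq_left.1 h)
    exact cast_ne (N := 2 * j + 1) (a := 0) (b := 2 * Y + 3) (by omega) (by omega) h1.symm
  refine nat_gen hi hj u x0 Y W hW _ hq hw rfl ?_
  intro f x hx
  rcases dl_two hne hx with ⟨rfl, hf⟩ | ⟨rfl, hf⟩
  · -- the star at `β`, the bead at `γ = β - (2 Y + 3)`
    constructor
    · refine Or.inr (Or.inl ⟨hr', fun a ha => ?_⟩)
      rw [hf]
      have e : x - 1 - (a : ZMod (2 * j + 1)) = x - ((a + 1 : ℕ) : ZMod (2 * j + 1)) := by push_cast; ring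
      rw [e]
      refine dl_bwd (D := 2 * Y + 3) (by omega) (by omega) _ _ ?_
      rw [hβ]
      ring
    · have hr2 := hr'.succ hsz
      have e1 : x0 + 1 + 1 = x0 + 2 := by ring
      rw [e1] at hr2
      refine Or.inr (Or.inr (Or.inr ⟨hr2, fun a ha => ?_⟩))
      rw [hf, add_sub_cancel_right]
      refine dl_bwd (D := 2 * Y + 3) (by omega) (by omega) _ _ ?_
      rw [hβ]
      ring
  · constructor
    · refine Or.inl ⟨by rw [add_zero]; exact hr, fun a ha => ?_⟩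
      rw [hf]
      exact dl_fwd (D := 2 * Y + 3) (by omega) (by omega) _ _ hβ
    · refine Or.inr (Or.inl ⟨hr.succ hsz, fun a ha => ?_⟩)
      rw [hf, add_sub_cancel_right]
      refine dl_bwd (D := D') (by omega) (by omega) _ _ ?_
      rw [hβ, hD2]
      ring

/-- `() R () [Y+2]` -/
theorem natF {R0 : BinaryTree Unit} (h0 : R0 ≠ .nil) (Y : ℕ) :
    NatW (Y + 2) (.nil △ app (inf^[Y + 2] R0) (.nil △ pc (Y + 2))) := by
  obtain ⟨u, hu⟩ : ∃ u : X R0.numNodes, u.1 = R0 := ⟨⟨_, mem_treesOfNumNodesEq.2 rfl⟩, rfl⟩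
  have hi1 := num_pos h0
  obtain ⟨R', hR'⟩ : ∃ R', R' = inf^[Y + 1] R0 := ⟨_, rfl⟩
  obtain ⟨j, hj⟩ : ∃ j, j = Y + R'.numNodes + 1 := ⟨_, rfl⟩
  have hWn : (app R' (pc Y △ .nil)).numNodes = j := by
    rw [num_app, hj]
    change _ + ((pc Y).numNodes + 0 + 1) = _
    rw [pc_num]
    omega
  obtain ⟨W, hW⟩ : ∃ W : X j, W.1 = app R' (pc Y △ .nil) := ⟨⟨_, mem_treesOfNumNodesEq.2 hWn⟩, rfl⟩
  have hW' : W.1 = iy (Y + 1) u.1 (lf (dl R0.numNodes (-1))) := by rw [iy_back, hW, hu, hR']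
  have hR := inf_iter_num R0 Y
  rw [← hR'] at hR
  have hbig := num_big h0 Y
  rw [← hR'] at hbig
  have hN : ((2 * j + 1 : ℕ) : ZMod (2 * j + 1)) = 0 := ZMod.natCast_self _
  have hr : Res (j := j) Y (-1 : ZMod (2 * R0.numNodes + 1)) ((2 * R'.numNodes : ℕ) : ZMod (2 * j + 1)) := by
    have h1 := res_zero (i := R0.numNodes) (j := j) (Y := Y) (n := 2 * pkn R0) (x0 := -1)
    rw [val_neg_one', add_zero] at h1
    have e : 2 * R'.numNodes = 2 * R0.numNodes + (Y + 1) * (2 * pkn R0) := by rw [hR]; ring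
    rw [e]
    exact h1
  have hr' : Res (j := j) Y (-1 + 1 : ZMod (2 * R0.numNodes + 1)) ((0 : ℕ) : ZMod (2 * j + 1)) := by
    refine ⟨0, ?_⟩
    rw [neg_add_cancel, ZMod.val_zero]
    push_cast
    ring
  have h4 := nat_two' hi1 u _ Y W hW' ((0 : ℕ) : ZMod (2 * j + 1)) ((2 * R'.numNodes : ℕ) : ZMod (2 * j + 1)) (by
    have h1 : ((2 * j + 1 : ℕ) : ZMod (2 * j + 1)) = ((2 * R'.numNodes + (2 * Y + 3) : ℕ) : ZMod (2 * j + 1)) := by
      congr 1
      omega
    rw [hN] at h1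
    push_cast at h1 ⊢
    exact h1) hr hr' (by omega)
  obtain ⟨m, hm⟩ : ∃ m, 2 * R'.numNodes = m + 1 := ⟨2 * R'.numNodes - 1, by omega⟩
  have h5 : ins W.1 (lf (fun z => dl j ((0 : ℕ) : ZMod (2 * j + 1)) z +
      dl j ((2 * R'.numNodes : ℕ) : ZMod (2 * j + 1)) z)) = .nil △ app (inf R') (.nil △ pc (Y + 2)) := by
    have e1 := lf_two (j := j) 0 m (2 * Y + 2) (by omega)
    have e2 : 0 + m + 1 = 2 * R'.numNodes := by omega
    rw [e2] at e1
    have h6 := word5' (j := j) Y R' hj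
    rw [lf_dl (2 * R'.numNodes) (2 * Y + 2) (by omega)] at h6
    have e3 : (List.replicate 0 0 ++ 1 :: (List.replicate m 0 ++ 1 :: List.replicate (2 * Y + 2) 0) : List ℕ) =
        1 :: (List.replicate m 0 ++ 1 :: List.replicate (2 * Y + 2) 0) := rfl
    have e4 : (0 :: (List.replicate m 0 ++ 1 :: List.replicate (2 * Y + 2) 0) : List ℕ) =
        List.replicate (2 * R'.numNodes) 0 ++ 1 :: List.replicate (2 * Y + 2) 0 := by
      rw [hm]
      rfl
    rw [e1, e3, ins_lv, e4, hW, h6]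
    rfl
  rw [h5, hR', ← inf_iter_succ] at h4
  exact h4

end HN

end Pool.OddHC
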