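import Pool.Agent.Work.MP_8f87b2_h17.Nat12

/-!
# The natural edges of the twenty words

`Big n t` : all parts of `t` are greater than `n`.
`natW_W` : for the words `i` of `W R (ch (q+1)) B S` with a bead every hop pair has a natural phase.
-/

set_option autoImplicit false

namespace Pool.OddHC

namespace HN

open Finset BinaryTree Multiset Pool.OddHop

variable {i j k : ℕ}

/-- `t` is an `n`-fold inflation -/
def Big (n : ℕ) (t : BinaryTree Unit) : Prop := ∃ t0, t = inf^[n] t0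

theorem big_nil (n : ℕ) : Big n .nil := ⟨.nil, (inf_iter_nil n).symm⟩

theorem Big.app {n : ℕ} {A B : BinaryTree Unit} (hA : Big n A) (hB : Big n B) : Big n (app A B) := by
  obtain ⟨a, rfl⟩ := hA
  obtain ⟨b, rfl⟩ := hB
  exact ⟨OddHC.app a b, (inf_iter_app a b n).symm⟩

theorem Big.node {n : ℕ} {A B : BinaryTree Unit} (hA : Big n A) (h0 : A ≠ .nil) (hB : Big n B) : Big n (A △ B) := by
  obtain ⟨a, rfl⟩ := hA
  obtain ⟨b, rfl⟩ := hB
  refine ⟨a △ b, (inf_iter_node ?_ b n).symm⟩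
  rintro rfl
  exact h0 (inf_iter_nil n)

theorem big_of_cont : ∀ (n : ℕ) (t : BinaryTree Unit), (∀ x ∈ cont t, n < x) → Big n t := by
  intro n
  induction n with
  | zero => intro t _; exact ⟨t, rfl⟩
  | succ n ih =>
    intro t h
    have h1 : (cont t).count 1 = 0 := by
      rw [Multiset.count_eq_zero]
      intro h0
      have := h 1 h0
      omega
    obtain ⟨l, u, hu⟩ := exists_inf (j := t.numNodes) ⟨t, mem_treesOfNumNodesEq.2 rfl⟩ h1
    change t = inf u.1 at hu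
    obtain ⟨t0, ht0⟩ := ih u.1 (by
      intro x hx
      have h2 : x + 1 ∈ cont t := by
        rw [hu, cont_inf]
        exact Multiset.mem_map_of_mem _ hx
      have := h _ h2
      omega)
    exact ⟨t0, by rw [hu, ht0, Function.iterate_succ_apply']⟩

theorem Big.ne {n : ℕ} {t : BinaryTree Unit} (h : Big n t) (h0 : t ≠ .nil) : ∃ t0, t0 ≠ .nil ∧ t = inf^[n] t0 := by
  obtain ⟨t0, ht⟩ := h
  refine ⟨t0, ?_, ht⟩
  rintro rfl
  exact h0 (by rw [ht, inf_iter_nil])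

/-! ### The shapes in terms of `Big` -/

theorem sA {V : BinaryTree Unit} {Y : ℕ} (h : Big (Y + 2) V) (h0 : V ≠ .nil) :
    NatW (Y + 2) (app (pc (Y + 2)) (.nil △ V)) := by
  obtain ⟨V0, h1, rfl⟩ := h.ne h0
  exact natA h1 Y

theorem sB {V : BinaryTree Unit} {Y : ℕ} (h : Big (Y + 2) V) (h0 : V ≠ .nil) :
    NatW (Y + 2) (app (pc (Y + 1)) (.nil △ .nil) △ V) := by
  obtain ⟨V0, h1, rfl⟩ := h.ne h0
  exact natB h1 Y

theorem sC {V : BinaryTree Unit} {Y : ℕ} (h : Big (Y + 2) V) (h0 : V ≠ .nil) :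
    NatW (Y + 2) (app (pc (Y + 2)) ((.nil △ V) △ .nil)) := by
  obtain ⟨V0, h1, rfl⟩ := h.ne h0
  exact natC' h1 Y

theorem sD {V P : BinaryTree Unit} {Y : ℕ} (h : Big (Y + 2) V) (h0 : V ≠ .nil) (hP : Big (Y + 2) P) :
    NatW (Y + 2) (app (pc (Y + 2)) (.nil △ V) △ P) := by
  obtain ⟨V0, h1, rfl⟩ := h.ne h0
  obtain ⟨P0, rfl⟩ := hP
  exact natD h1 P0 Y

theorem sE {B S : BinaryTree Unit} {Y : ℕ} (hB : Big (Y + 2) B) (hS : Big (Y + 2) S) (h0 : app B S ≠ .nil) :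
    NatW (Y + 2) (app B (.nil △ app (pc (Y + 2)) (.nil △ S))) := by
  obtain ⟨B0, rfl⟩ := hB
  obtain ⟨S0, rfl⟩ := hS
  refine natE ?_ Y
  intro h
  apply h0
  rw [← inf_iter_app, h, inf_iter_nil]

theorem sF {R : BinaryTree Unit} {Y : ℕ} (h : Big (Y + 2) R) (h0 : R ≠ .nil) :
    NatW (Y + 2) (.nil △ app R (.nil △ pc (Y + 2))) := by
  obtain ⟨V0, h1, rfl⟩ := h.ne h0
  exact natF h1 Y

/-! ### The mirrored shapes -/

theorem mir_inf (t : BinaryTree Unit) : Tsq.mir (inf t) = inf (Tsq.mir t) := by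
  have h1 := mir_ins t (List.replicate (2 * t.numNodes + 1) 0) List.length_replicate
  rw [List.reverse_replicate] at h1
  have h2 : (List.replicate (2 * t.numNodes + 1) 0 : List ℕ) =
      List.replicate (2 * (Tsq.mir t).numNodes + 1) 0 := by rw [Tsq.mir_num]
  unfold inf
  rw [h1, h2]

theorem Big.mir {n : ℕ} {t : BinaryTree Unit} (h : Big n t) : Big n (Tsq.mir t) := by
  obtain ⟨t0, rfl⟩ := h
  refine ⟨Tsq.mir t0, ?_⟩
  induction n with
  | zero => rfl
  | succ n ih => rw [Function.iterate_succ_apply', Function.iterate_succ_apply', mir_inf, ih]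

theorem mir_node' (A : BinaryTree Unit) : Tsq.mir (A △ .nil) = Tsq.mir A △ .nil := by
  rw [Tsq.mir_node]
  rfl

theorem mir_nil' : Tsq.mir (.nil : BinaryTree Unit) = .nil := rfl

theorem app_comp (A B : BinaryTree Unit) : app (A △ .nil) B = A △ B := rfl

/-- `V () [Y+2]` -/
theorem sA' {V : BinaryTree Unit} {Y : ℕ} (h : Big (Y + 2) V) (h0 : V ≠ .nil) :
    NatW (Y + 2) (app V (.nil △ pc (Y + 2))) := by
  apply NatW.of_mir
  have h1 := sA h.mir (mir_ne h0)
  have e : Tsq.mir (app V (.nil △ pc (Y + 2))) = app (pc (Y + 2)) (.nil △ Tsq.mir V) := by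
    rw [Tsq.mir_app, Tsq.mir_node, HM.mir_pc, mir_nil', app_assoc']
    rfl
  rw [e]
  exact h1

/-- `V (() [Y+1])` -/
theorem sB' {V : BinaryTree Unit} {Y : ℕ} (h : Big (Y + 2) V) (h0 : V ≠ .nil) :
    NatW (Y + 2) (app V ((.nil △ pc (Y + 1)) △ .nil)) := by
  apply NatW.of_mir
  have h1 := sB h.mir (mir_ne h0)
  have e : Tsq.mir (app V ((.nil △ pc (Y + 1)) △ .nil)) = app (pc (Y + 1)) (.nil △ .nil) △ Tsq.mir V := by
    rw [Tsq.mir_app, mir_node', Tsq.mir_node, HM.mir_pc, mir_nil']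
    rfl
  rw [e]
  exact h1

/-- `(V ()) [Y+2]` -/
theorem sC' {V : BinaryTree Unit} {Y : ℕ} (h : Big (Y + 2) V) (h0 : V ≠ .nil) :
    NatW (Y + 2) (app V (.nil △ .nil) △ pc (Y + 2)) := by
  apply NatW.of_mir
  have h1 := sC h.mir (mir_ne h0)
  have e : Tsq.mir (app V (.nil △ .nil) △ pc (Y + 2)) = app (pc (Y + 2)) ((.nil △ Tsq.mir V) △ .nil) := by
    rw [Tsq.mir_node, Tsq.mir_app, HM.mir_pc, mir_node', mir_nil']
    rfl
  rw [e]
  exact h1

/-- `P (V () [Y+2])` -/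
theorem sD' {V P : BinaryTree Unit} {Y : ℕ} (h : Big (Y + 2) V) (h0 : V ≠ .nil) (hP : Big (Y + 2) P) :
    NatW (Y + 2) (app P (app V (.nil △ pc (Y + 2)) △ .nil)) := by
  apply NatW.of_mir
  have h1 := sD h.mir (mir_ne h0) hP.mir
  have e : Tsq.mir (app P (app V (.nil △ pc (Y + 2)) △ .nil)) =
      app (pc (Y + 2)) (.nil △ Tsq.mir V) △ Tsq.mir P := by
    rw [Tsq.mir_app, mir_node', Tsq.mir_app, Tsq.mir_node, HM.mir_pc, mir_nil', app_assoc']
    rfl
  rw [e]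
  exact h1

/-- `[Y+2] () S ()` -/
theorem sF' {R : BinaryTree Unit} {Y : ℕ} (h : Big (Y + 2) R) (h0 : R ≠ .nil) :
    NatW (Y + 2) (app (pc (Y + 2)) (.nil △ app R (.nil △ .nil))) := by
  apply NatW.of_mir
  have h1 := sF h.mir (mir_ne h0)
  have e : Tsq.mir (app (pc (Y + 2)) (.nil △ app R (.nil △ .nil))) =
      .nil △ app (Tsq.mir R) (.nil △ pc (Y + 2)) := by
    rw [Tsq.mir_app, Tsq.mir_node, Tsq.mir_app, HM.mir_pc, mir_node', mir_nil', app_assoc', app_assoc']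
    rfl
  rw [e]
  exact h1

/-! ### The twenty words -/

/-- the words of the level with the soliton `q + 2 = c - 1` -/
theorem natW_4 {q : ℕ} {R B S : BinaryTree Unit} (hR : Big (q + 2) R) (h0 : R ≠ .nil) :
    NatW (q + 2) (H1.W R (H1.ch (q + 1)) B S 4) := by
  change NatW (q + 2) (app (H1.ch (q + 1)) (.nil △ .nil) △ R)
  rw [H1.ch_eq]
  exact sB hR h0

theorem natW_5 {q : ℕ} {R B S : BinaryTree Unit} (hR : Big (q + 2) R) (h0 : R ≠ .nil) :
    NatW (q + 2) (H1.W R (H1.ch (q + 1)) B S 5) := by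
  change NatW (q + 2) (H1.ch (q + 1) △ (.nil △ R))
  rw [H1.ch_eq]
  exact sA hR h0

theorem natW_13' {q : ℕ} {R S : BinaryTree Unit} (hS : Big (q + 2) S) (h0 : S ≠ .nil) :
    NatW (q + 2) (H1.W R (H1.ch (q + 1)) .nil S 13) := by
  change NatW (q + 2) (app S ((.nil △ H1.ch (q + 1)) △ .nil))
  rw [H1.ch_eq]
  exact sB' hS h0

theorem natW_16' {q : ℕ} {R S : BinaryTree Unit} (hS : Big (q + 2) S) (h0 : S ≠ .nil) :
    NatW (q + 2) (H1.W R (H1.ch (q + 1)) .nil S 16) := by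
  change NatW (q + 2) (app S (.nil △ (H1.ch (q + 1) △ .nil)))
  rw [H1.ch_eq]
  exact sA' hS h0

/-- the words of the level with the soliton `q + 1 = c - 2`, written `Y + 2` -/
theorem natW_low {Y : ℕ} {R B S : BinaryTree Unit} (hR : Big (Y + 2) R) (hB : Big (Y + 2) B) (hS : Big (Y + 2) S)
    (hR0 : R ≠ .nil) (hS0 : S ≠ .nil) {i : ℕ} (hi : i ∈ [1, 2, 3, 7, 8, 11, 12, 14, 18] ∨
      (i = 13 ∧ B ≠ .nil) ∨ (i = 19 ∧ B = .nil)) :
    NatW (Y + 2) (H1.W R (H1.ch (Y + 2)) B S i) := by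
  rw [H1.ch_eq]
  have hRc : Big (Y + 2) (R △ .nil) := hR.node hR0 (big_nil _)
  have hSB : Big (Y + 2) (S △ B) := hS.node hS0 hB
  rcases hi with hi | ⟨rfl, hB0⟩ | ⟨rfl, rfl⟩
  · simp only [List.mem_cons, List.not_mem_nil, or_false] at hi
    rcases hi with rfl | rfl | rfl | rfl | rfl | rfl | rfl | rfl | rfl
    · exact sE hR (big_nil _) (by rw [app_nil']; exact hR0)
    · exact sF hR hR0
    · exact sD' hR hR0 (big_nil _)
    · exact sC hR hR0
    · exact sA hRc (by simp)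
    · exact sE hB hS (app_ne_right hS0)
    · exact sA' hSB (by simp)
    · exact sD hS hS0 hB
    · by_cases hB0 : B = .nil
      · subst hB0
        exact sF' hS hS0
      · exact sA (hS.app (hB.node hB0 (big_nil _))) (app_ne_right (by simp))
  · exact sD' hB hB0 hS
  · exact sC' hS hS0

end HN

end Pool.OddHC
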