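import Pool.Agent.Work.MP_8f87b2_h17.Nat13
import Pool.Agent.Work.MP_8f87b2_h27.Ed

/-!
# The types `TyNat` (early) and `TyEl` (late) of E triples over deep words

`TyEd.nat_or` : a deep E pair has type `TyNat` or is of type `TyEl`.
`NodeM.not_El` : no T-cycle of a deep window (`c ≥ 4`) is in a late group.
-/

set_option autoImplicit false

namespace Pool.OddHC

open Finset BinaryTree Multiset Pool.OddHop

variable {i j k : ℕ} {F : Set (Cyc k)} {g : DG k}

/-- TYPE Nat: an E triple with a natural host, the soliton `p ≥ 4` -/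
def TyNat (F : Set (Cyc k)) (g : DG k) : Prop :=
  ∃ (p j : ℕ) (r : X j) (f : ZMod (2 * j + 1) → ℕ), 1 ≤ j ∧ 4 ≤ p ∧ HN.NatC p (ins r.1 (lf f)) ∧
    IsTri .nil (ins r.1 (lf f)) .nil F g

/-- TYPE El: a deep E triple whose pair has no natural phase -/
def TyEl (F : Set (Cyc k)) (g : DG k) : Prop := TyEd F g ∧ ¬ ∃ g' : DG k, TyNat F g'

theorem TyNat.toEd (h : TyNat F g) : TyEd F g := by
  obtain ⟨p, j, r, f, h1, h2, ⟨h3, M, h4, h5⟩, h6⟩ := h
  refine ⟨j, r, f, h1, ?_, h6⟩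
  have hl : (lf f).length = 2 * r.1.numNodes + 1 := by rw [lf_length, X_num]
  have key : ∀ x, 1 ≤ x → x ≤ 2 → (cont r.1).count x = 0 := by
    intro x hx1 hx2
    rw [Multiset.count_eq_zero]
    intro hx
    have h7 : x + 1 ∈ cont (ins r.1 (lf f)) := by
      rw [cont_ins _ _ hl, Multiset.mem_add]
      exact Or.inl (Multiset.mem_map_of_mem _ hx)
    rw [h4, Multiset.mem_cons] at h7
    rcases h7 with h7 | h7
    · omega
    · rcases h5 _ h7 with h8 | h8 <;> omega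
  exact ⟨key 1 le_rfl (by norm_num), key 2 (by norm_num) le_rfl⟩

theorem TyEd.nat_or (h : TyEd F g) : (∃ g' : DG k, TyNat F g') ∨ TyEl F g := by
  by_cases h1 : ∃ g' : DG k, TyNat F g'
  · exact Or.inl h1
  · exact Or.inr ⟨h, h1⟩

/-- the pair of an E triple is a hop pair -/
theorem hopC_tri {r : X j} {f : ZMod (2 * j + 1) → ℕ} (hj : 1 ≤ j)
    (h : IsTri .nil (ins r.1 (lf f)) .nil F g) : ∃ p q : Cyc k, F = {p, q} ∧ p ≠ q ∧ HopC p q := by
  obtain ⟨a, b, c, ha, hb, hc, hbc, h1, h2, rfl, rfl⟩ := h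
  refine ⟨cyc b, cyc c, rfl, hbc, ?_⟩
  have eb := ins_back r f
  have ec := ins_front r f
  have hkb : ∀ a : ZMod (2 * j + 1) → ℕ, (ins r.1 (lf a)).numNodes = j + pkn r.1 + ∑ z, a z := by
    intro a
    rw [(ins_num _ _ (by rw [lf_length, X_num])).1, lf_sum, X_num]
  have hb' : b.1 = app (ins r.1 (lf f)) (.nil △ .nil) := hb
  have hc' : c.1 = .nil △ ins r.1 (lf f) := hc
  rw [← eb] at hb'
  rw [← ec] at hc'
  have nb : j + pkn r.1 + ∑ z, (fun x => f x + if x = -1 then 1 else 0) z = k := by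
    rw [← hkb, ← hb', X_num]
  have nc : j + pkn r.1 + ∑ z, (fun x => f x + if x = 0 then 1 else 0) z = k := by
    rw [← hkb, ← hc', X_num]
  refine ⟨j, hj, r, _, _, nb, nc, ⟨-1, 0, Or.inl (by ring), fun z => ?_⟩, ?_, ?_⟩
  · have e1 : (z = (0 : ZMod (2 * j + 1))) ↔ ((0 : ZMod (2 * j + 1)) = z) := eq_comm
    have e2 : (z = (-1 : ZMod (2 * j + 1))) ↔ ((-1 : ZMod (2 * j + 1)) = z) := eq_comm
    simp only [e1, e2]
    omega
  · congr 1
    exact Subtype.ext hb'.symm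
  · congr 1
    exact Subtype.ext hc'.symm

/-- **TYPE Nat EXISTS** -/
theorem tyNat_of_ph {p q : Cyc k} (hpq : p ≠ q) {Y : BinaryTree Unit} {n : ℕ} (h : HN.PhX p q Y)
    (hn : 4 ≤ n) (hY : HN.NatC n Y) : ∃ g, TyNat {p, q} g := by
  obtain ⟨j, r, f, hE, rfl⟩ := h
  obtain ⟨a, b, c, ha, hb, hc, hR, hbc, h1, h2, -⟩ := hE.gadget hpq
  refine ⟨pDG {a, b, c} (cyc b) (cyc c) ∅, n, j, r, f, hE.hj, hn, hY, a, b, c, ha, hb, hc, ?_⟩
  rcases hbc with ⟨e1, e2⟩ | ⟨e1, e2⟩
  · exact ⟨by rw [e1, e2]; exact hpq, by rw [e1, e2]; omega, by rw [e1]; omega,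
      by rw [e1, e2], rfl⟩
  · exact ⟨by rw [e1, e2]; exact hpq.symm, by rw [e1, e2]; omega, by rw [e1]; omega,
      by rw [e1, e2, Set.pair_comm], rfl⟩

/-- the contents of a pair with a natural phase -/
theorem HN.PhX.cont {p q : Cyc k} {Y : BinaryTree Unit} (h : HN.PhX p q Y) : contc p = OddHC.cont Y + {1} := by
  obtain ⟨j, r, f, hE, rfl⟩ := h
  have hk : (ins r.1 (lf f)).numNodes + 1 = k := by
    have h1 := (ins_num r.1 (lf f) (by rw [lf_length, X_num])).1
    rw [lf_sum, X_num] at h1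
    have := hE.size
    omega
  obtain ⟨a, b, c, ha, hb, hc⟩ := e_words hk
  have e1 : OddHC.cont ((.nil : BinaryTree Unit) △ .nil) = {1} := by
    rw [cont_node]
    change raise 0 + 0 = _
    rw [raise_zero, add_zero]
  have e2 : OddHC.cont c.1 = OddHC.cont (ins r.1 (lf f)) + {1} := by
    rw [hc, cont_node]
    change raise 0 + _ = _
    rw [raise_zero, add_comm]
  have e3 : OddHC.cont b.1 = OddHC.cont (ins r.1 (lf f)) + {1} := by
    rw [hb, cont_app, e1]
  rcases hE.words with h1 | h1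
  · rw [← (h1 c b hc hb).1, contc_cyc, e2]
  · rw [← (h1 c b hc hb).2, contc_cyc, e3]

/-- the T-cycles of a deep E pair have no part 2, 3 -/
theorem TyEd.no23c (h : TyEd F g) : ∀ c ∈ F, (contc c).count 2 = 0 ∧ (contc c).count 3 = 0 := by
  intro c hc
  obtain ⟨j, r, f, h1, h2, h3⟩ := id h
  obtain ⟨u, hu, rfl⟩ := h3.new c hc
  rw [contc_cyc]
  exact h.no23 u hu

/-- a late pair contains no T-cycle with natural edges -/
theorem TyEl.not_natW (h : TyEl F g) {n : ℕ} (hn : 2 ≤ n) {w : X k} (hw : HN.NatW n w.1) : cyc w ∉ F := by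
  intro hF
  obtain ⟨hd, hno⟩ := h
  obtain ⟨j, r, f, hj, hD, ht⟩ := id hd
  obtain ⟨p, q, rfl, hpq, hhop⟩ := hopC_tri hj ht
  have key : ∀ p' q' : Cyc k, cyc w = p' → p' ≠ q' → ({p, q} : Set (Cyc k)) = {p', q'} → HopC p' q' → False := by
    intro p' q' e1 e2 e3 e4
    obtain ⟨Y, h1, h2⟩ := hw w q' rfl (by rw [e1]; exact e4)
    have h3 := h1.cont
    obtain ⟨M, h4, -⟩ := h2.2
    have h5 : n ∈ contc (cyc w) := by
      rw [h3, h4, Multiset.mem_add, Multiset.mem_cons]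
      tauto
    have h6 := hd.no23c (cyc w) hF
    have h7 : 4 ≤ n := by
      rcases Nat.lt_or_ge n 4 with h8 | h8
      · exfalso
        have h9 : n = 2 ∨ n = 3 := by omega
        rcases h9 with rfl | rfl
        · exact absurd h5 (Multiset.count_eq_zero.1 h6.1)
        · exact absurd h5 (Multiset.count_eq_zero.1 h6.2)
      · exact h8
    rw [e1] at h1
    obtain ⟨g', hg'⟩ := tyNat_of_ph e2 h1 h7 h2
    rw [← e3] at hg'
    exact hno ⟨g', hg'⟩
  rcases hF with h1 | h1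
  · exact key p q h1 hpq rfl hhop
  · exact key q p h1 hpq.symm (Set.pair_comm p q) (HN.hopC_symm hhop)

/-- the T-cycles of an E pair have a bead -/
theorem TyEd.bead (h : TyEd F g) : ∀ c ∈ F, 1 ≤ (contc c).count 1 := by
  intro c hc
  obtain ⟨j, r, f, h1, h2, a, b, c', ha, hb, hc', -, -, -, rfl, -⟩ := h
  have hb1 : b.1 = app (ins r.1 (lf f)) (.nil △ .nil) := hb
  have hc1 : c'.1 = .nil △ ins r.1 (lf f) := hc'
  rcases hc with rfl | rfl
  · rw [contc_cyc, hb1, cont_app, Multiset.count_add]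
    have : 1 ≤ (cont ((.nil : BinaryTree Unit) △ .nil)).count 1 := by decide
    omega
  · rw [contc_cyc, hc1, cont_node, Multiset.count_add]
    have : 1 ≤ (raise (cont (.nil : BinaryTree Unit))).count 1 := by decide
    omega

end Pool.OddHC
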