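import Pool.Agent.Work.MP_8f87b2_h17.Nat14

/-!
# No T-cycle of a deep window is in a late group

`NodeM.not_El` : right windows, `NodeM.not_ElM` : mirrored windows, `c = q + 3 ≥ 4`.
`NodeM.natural`, `NodeM.naturalM` : every hop pair at a word with a bead has a natural phase.
-/

set_option autoImplicit false

namespace Pool.OddHC

open Finset BinaryTree Multiset Pool.OddHop

variable {i j k : ℕ} {F : Set (Cyc k)} {g : DG k}

namespace HN

theorem Big.count {t : BinaryTree Unit} (h : Big 1 t) : (cont t).count 1 = 0 := by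
  obtain ⟨t0, rfl⟩ := h
  change (cont (inf t0)).count 1 = 0
  rw [cont_inf, Multiset.count_eq_zero]
  intro h1
  obtain ⟨x, hx, h2⟩ := Multiset.mem_map.1 h1
  have := cont_pos t0 x hx
  omega

theorem big_pc (n : ℕ) : Big 1 (pc (n + 2)) := ⟨pc (n + 1), (inf_pc (by omega)).symm⟩

theorem Big.mono {n : ℕ} {t : BinaryTree Unit} (h : Big n t) {m : ℕ} (hm : m ≤ n) : Big m t := by
  obtain ⟨t0, rfl⟩ := h
  obtain ⟨d, rfl⟩ := Nat.exists_eq_add_of_le hm
  exact ⟨inf^[d] t0, Function.iterate_add_apply _ _ _ _⟩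

theorem count_mirror {t : BinaryTree Unit} (x : ℕ) : (cont (Tsq.mir t)).count x = (cont t).count x := by
  rw [cont_mirror]

/-- a word of a deep window has no bead or natural edges -/
theorem window {q : ℕ} {R B S : BinaryTree Unit} (hR : Big (q + 2) R) (hB : Big (q + 2) B) (hS : Big (q + 2) S)
    (hR0 : R ≠ .nil) (hS0 : S ≠ .nil) (hq : 1 ≤ q) {i : ℕ} (hi : i < 20) :
    (cont (H1.W R (H1.ch (q + 1)) B S i)).count 1 = 0 ∨
    (NatW (q + 1) (H1.W R (H1.ch (q + 1)) B S i) ∨ NatW (q + 2) (H1.W R (H1.ch (q + 1)) B S i)) := by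
  obtain ⟨Y, rfl⟩ : ∃ Y, q = Y + 1 := ⟨q - 1, by omega⟩
  have hR' := hR.mono (m := Y + 2) (by omega)
  have hB' := hB.mono (m := Y + 2) (by omega)
  have hS' := hS.mono (m := Y + 2) (by omega)
  have hR1 := hR.mono (m := 1) (by omega)
  have hB1 := hB.mono (m := 1) (by omega)
  have hS1 := hS.mono (m := 1) (by omega)
  have hQ : Big 1 (H1.ch (Y + 1 + 1)) := by rw [H1.ch_eq]; exact big_pc Y
  have hQ0 : H1.ch (Y + 1 + 1) ≠ .nil := by rw [H1.ch]; simp
  have hQ2 : Big 1 (H1.ch (Y + 1 + 1) △ .nil) := hQ.node hQ0 (big_nil 1)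
  have low : ∀ i, (i ∈ [1, 2, 3, 7, 8, 11, 12, 14, 18] ∨ (i = 13 ∧ B ≠ .nil) ∨ (i = 19 ∧ B = .nil)) →
      (cont (H1.W R (H1.ch (Y + 1 + 1)) B S i)).count 1 = 0 ∨
      (NatW (Y + 1 + 1) (H1.W R (H1.ch (Y + 1 + 1)) B S i) ∨
        NatW (Y + 1 + 2) (H1.W R (H1.ch (Y + 1 + 1)) B S i)) :=
    fun i hi => Or.inr (Or.inl (natW_low (Y := Y) hR' hB' hS' hR0 hS0 hi))
  interval_cases i
  · left
    exact Big.count (t := app R ((H1.ch (Y + 1 + 1) △ .nil) △ .nil)) (hR1.app (hQ2.node (by simp) (big_nil 1)))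
  · exact low _ (by simp)
  · exact low _ (by simp)
  · exact low _ (by simp)
  · right; right
    exact natW_4 hR hR0
  · right; right
    exact natW_5 hR hR0
  · left
    exact Big.count (t := R △ (H1.ch (Y + 1 + 1) △ .nil)) (hR1.node hR0 hQ2)
  · exact low _ (by simp)
  · exact low _ (by simp)
  · left
    exact Big.count (t := (R △ .nil) △ H1.ch (Y + 1 + 1)) ((hR1.node hR0 (big_nil 1)).node (by simp) hQ)
  · left
    exact Big.count (t := app B ((H1.ch (Y + 1 + 1) △ .nil) △ S)) (hB1.app (hQ2.node (by simp) hS1))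
  · exact low _ (by simp)
  · exact low _ (by simp)
  · by_cases hB0 : B = .nil
    · subst hB0
      right; right
      exact natW_13' hS hS0
    · exact low _ (by tauto)
  · exact low _ (by simp)
  · left
    exact Big.count (t := H1.ch (Y + 1 + 1) △ (S △ B)) (hQ.node hQ0 (hS1.node hS0 hB1))
  · by_cases hB0 : B = .nil
    · subst hB0
      right; right
      exact natW_16' hS hS0
    · left
      exact Big.count (t := app S (B △ (H1.ch (Y + 1 + 1) △ .nil))) (hS1.app (hB1.node hB0 hQ2))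
  · left
    exact Big.count (t := app (H1.ch (Y + 1 + 1)) ((S △ B) △ .nil))
      (hQ.app ((hS1.node hS0 hB1).node (by simp) (big_nil 1)))
  · exact low _ (by simp)
  · by_cases hB0 : B = .nil
    · exact low _ (by tauto)
    · left
      exact Big.count (t := app S (B △ .nil) △ H1.ch (Y + 1 + 1))
        ((hS1.app (hB1.node hB0 (big_nil 1))).node (app_ne_right (by simp)) hQ)

end HN

variable {q : ℕ} {R B S : BinaryTree Unit}

theorem HM.NodeM.bigs (h : HM.NodeM k q R B S) : HN.Big (q + 2) R ∧ HN.Big (q + 2) B ∧ HN.Big (q + 2) S ∧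
    R ≠ .nil ∧ S ≠ .nil := by
  have h1 : ∀ x ∈ cont B, q + 3 ≤ x := fun x hx => h.part x (by rw [← h.eq]; exact Multiset.mem_add.2 (Or.inl hx))
  have h2 : ∀ x ∈ cont S, q + 3 ≤ x := fun x hx => h.part x (by rw [← h.eq]; exact Multiset.mem_add.2 (Or.inr hx))
  refine ⟨HN.big_of_cont _ _ fun x hx => by have := h.part x hx; omega,
    HN.big_of_cont _ _ fun x hx => by have := h1 x hx; omega,
    HN.big_of_cont _ _ fun x hx => by have := h2 x hx; omega, h.ne, ?_⟩
  rintro rfl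
  have h3 := h.dat.htS
  have h4 := h.top
  rw [OddHC.ht] at h3
  omega

/-- the word with natural edges -/
theorem HM.NodeM.natW (h : HM.NodeM k q R B S) (hq : 1 ≤ q) (w0 : X k) {i : ℕ} (hi : i < 20) :
    (cont (H1.wX R B S q w0 i).1).count 1 = 0 ∨
      (HN.NatW (q + 1) (H1.wX R B S q w0 i).1 ∨ HN.NatW (q + 2) (H1.wX R B S q w0 i).1) := by
  obtain ⟨h1, h2, h3, h4, h5⟩ := h.bigs
  rw [H1.wX_eq h.dat h.size w0 hi]
  exact HN.window h1 h2 h3 h4 h5 hq hi

theorem HM.NodeM.natWM (h : HM.NodeM k q R B S) (hq : 1 ≤ q) (w0 : X k) {i : ℕ} (hi : i < 20) :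
    (cont (HM.mX R B S q w0 i).1).count 1 = 0 ∨
      (HN.NatW (q + 1) (HM.mX R B S q w0 i).1 ∨ HN.NatW (q + 2) (HM.mX R B S q w0 i).1) := by
  have h1 := h.natW hq w0 hi
  change (cont (Tsq.mir (H1.wX R B S q w0 i).1)).count 1 = 0 ∨
      (HN.NatW (q + 1) (Tsq.mir (H1.wX R B S q w0 i).1) ∨ HN.NatW (q + 2) (Tsq.mir (H1.wX R B S q w0 i).1))
  rw [HN.count_mirror]
  rcases h1 with h1 | h1 | h1
  · exact Or.inl h1
  · exact Or.inr (Or.inl h1.mir)
  · exact Or.inr (Or.inr h1.mir)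

/-- **RIGHT DEEP WINDOWS AND LATE GROUPS** -/
theorem HM.NodeM.not_El (h : HM.NodeM k q R B S) (hq : 1 ≤ q) (w0 : X k) (h' : TyEl F g) {i : ℕ} (hi : i < 20) :
    cyc (H1.wX R B S q w0 i) ∉ F := by
  rcases h.natW hq w0 hi with h1 | h1 | h1
  · intro hF
    have := h'.1.bead _ hF
    rw [contc_cyc] at this
    omega
  · exact h'.not_natW (by omega) h1
  · exact h'.not_natW (by omega) h1

/-- **MIRRORED DEEP WINDOWS AND LATE GROUPS** -/
theorem HM.NodeM.not_ElM (h : HM.NodeM k q R B S) (hq : 1 ≤ q) (w0 : X k) (h' : TyEl F g) {i : ℕ} (hi : i < 20) :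
    cyc (HM.mX R B S q w0 i) ∉ F := by
  rcases h.natWM hq w0 hi with h1 | h1 | h1
  · intro hF
    have := h'.1.bead _ hF
    rw [contc_cyc] at this
    omega
  · exact h'.not_natW (by omega) h1
  · exact h'.not_natW (by omega) h1

end Pool.OddHC
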