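import Pool.Agent.Work.MP_8f87b2_h17.Nat15
import Pool.Agent.Work.MP_8f87b2_h29.EdWin

/-!
# Inner words of the windows against `TyNat`
-/

set_option autoImplicit false

namespace Pool.OddHC

open Finset BinaryTree Multiset Pool.OddHop H1

variable {i j k : ℕ} {F F' : Set (Cyc k)} {g g' : DG k} {q : ℕ} {R B S : BinaryTree Unit}

/-- contents of the host `(X)` -/
theorem HN.NatC.host {p : ℕ} {X : BinaryTree Unit} (h : HN.NatC p X) (h2 : ∃ x ∈ cont (X △ .nil), x ≠ 1 ∧ x < p + 1) :
    (cont (X △ .nil)).count p ≤ 1 ∧ ∀ x ∈ cont (X △ .nil), x = 1 ∨ p ≤ x := by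
  obtain ⟨-, M, h3, h4⟩ := h
  have e : cont (X △ .nil) = raise (cont X) := by
    rw [cont_node]
    change raise (cont X) + 0 = _
    rw [add_zero]
  have hp : M.count p = 0 ∨ p = 1 := by
    by_cases h : p ∈ M
    · rcases h4 p h with h5 | h5
      · exact Or.inr h5
      · omega
    · exact Or.inl (Multiset.count_eq_zero.2 h)
  have hmem : ∀ x ∈ cont X, x = 1 ∨ p ≤ x := by
    intro x hx
    rw [h3, Multiset.mem_cons] at hx
    rcases hx with rfl | hx
    · exact Or.inr le_rfl
    · rcases h4 x hx with h5 | h5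
      · exact Or.inl h5
      · exact Or.inr h5.le
  have hsup : p ≤ (cont X).sup := by
    apply Multiset.le_sup
    rw [h3]
    exact Multiset.mem_cons_self _ _
  constructor
  · rw [e]
    unfold raise
    rw [Multiset.count_cons_of_ne (by omega)]
    refine le_trans (Multiset.count_le_of_le _ (Multiset.erase_le _ _)) ?_
    rw [h3]
    rcases hp with h5 | rfl
    · rw [Multiset.count_cons_self, h5]
    · exfalso
      obtain ⟨x, hx, hx1, hx2⟩ := h2
      have := cont_pos _ x hx
      omega
  · intro x hx
    rw [e] at hx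
    unfold raise at hx
    rw [Multiset.mem_cons] at hx
    rcases hx with rfl | hx
    · right; omega
    · exact hmem x (Multiset.mem_of_mem_erase hx)

/-- **I: deep windows against the early natural triples**: nothing; both orientations -/
theorem HM.NodeM.not_TyNat (h : HM.NodeM k q R B S) (w0 : OddHC.X k) {i : ℕ}
    (hi : i ∈ [0, 1, 3, 6, 8, 9]) {w : OddHC.X k}
    (hw : w = TT (wX R B S q w0 i) ∨ w = Tsq.mirX (TT (wX R B S q w0 i))) (h' : TyNat F' g')
    (h3 : q = 0 → 3 ∈ cont R) (h0 : i = 0 → q + 3 ∈ cont R ∨ ∀ d ∈ F', OddHC.ht R ≤ htc d) : w ∉ g'.B := by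
  by_cases hlow : i = 0 ∧ ∀ d ∈ F', OddHC.ht R ≤ htc d
  · exact h.not_Ed w0 hi hw h'.toEd (Or.inr (Or.inr (Or.inr ⟨Or.inl hlow.1, hlow.2⟩)))
  obtain ⟨p, j, r, f, hj, hp4, hN, ht⟩ := h'
  intro hB
  have hh := h.host_Ed w0 hi hw ht hB
  obtain ⟨c1, c2, c3⟩ := h.winn w0 hi hw
  have htop := h.top
  obtain ⟨d1, d2⟩ := count_WQ (R := R) (B := B) (S := S) (q := q) (by omega)
  have key : ∀ x, x < OddHC.ht R → x ∈ cont R → 1 ≤ (cont (W R (ch (q + 1)) B S i)).count x := by
    intro x hx hx2
    exact le_trans (Multiset.count_pos.2 hx2) (count_W hx i hi)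
  have hcw : cont (ins r.1 (lf f) △ .nil) = cont (W R (ch (q + 1)) B S i) := by rw [← hh, c1]
  -- the smallest part of the host
  have small : ∀ x, x ≠ 1 → x ≤ p → 1 ≤ (cont (W R (ch (q + 1)) B S i)).count x → p ≤ x := by
    intro x hx1 hxp hx
    have h4 : x ∈ cont (ins r.1 (lf f) △ .nil) := by
      rw [hcw]
      exact Multiset.count_pos.1 hx
    obtain ⟨-, h6⟩ := hN.host ⟨x, h4, hx1, by omega⟩
    rcases h6 _ h4 with h8 | h8
    · exact absurd h8 hx1
    · exact h8
  have hpc : p < q + 3 := by
    by_contra hge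
    by_cases hi0 : i = 0
    · subst hi0
      have hm : q + 3 ∈ cont R := by
        rcases h0 rfl with h5 | h5
        · exact h5
        · exact absurd ⟨rfl, h5⟩ hlow
      have h3' := key _ htop hm
      have h7 : p = q + 3 := le_antisymm (small _ (by omega) (by omega) h3') (by omega)
      have h4 : q + 3 ∈ cont (ins r.1 (lf f) △ .nil) := by
        rw [hcw]
        exact Multiset.count_pos.1 h3'
      obtain ⟨h5, -⟩ := hN.host ⟨q + 3, h4, by omega, by omega⟩
      rw [hcw, h7] at h5
      have h8 : cont (W R (ch (q + 1)) B S 0) = cont R + {q + 3} := by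
        change cont (app R ((ch (q + 1) △ .nil) △ .nil)) = _
        rw [cont_app]
        congr 1
        exact ch_cont (q + 2)
      rw [h8, Multiset.count_add, Multiset.count_singleton_self] at h5
      have := Multiset.count_pos.2 hm
      omega
    · by_cases h6' : i = 6
      · subst h6'
        have := small (q + 2) (by omega) (by omega) d2
        omega
      · have h8 : 1 ≤ (cont (W R (ch (q + 1)) B S i)).count (q + 1) := by
          apply d1
          simp only [List.mem_cons, List.not_mem_nil, or_false] at hi ⊢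
          omega
        by_cases hq0 : q = 0
        · have := small 3 (by omega) (by omega) (key 3 (by omega) (h3 hq0))
          omega
        · have := small (q + 1) (by omega) (by omega) h8
          omega
  exact h.not_EdN w0 hi hw (by omega) hpc hN.1 ht hB

end Pool.OddHC
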