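import Pool.Agent.Work.MP_8f87b2_h17.Nat16
import Pool.Agent.Work.MP_8f87b2_h13.TyRq
import Pool.Agent.Work.MP_8f87b2_h13.R3Ed

/-!
# The types `TyRq`, `TySq`, `TyR3`, `TyS3` against `TyNat` and `TyEl`
-/

set_option autoImplicit false

namespace Pool.OddHC

open Finset BinaryTree Multiset Pool.OddHop H1

variable {i j k : ℕ} {F F' : Set (Cyc k)} {g g' : DG k} {q : ℕ} {R B S : BinaryTree Unit}

/-- `c = 3`, clean phase: no T-cycle of the window is in a deep E pair -/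
theorem HM.NodeM.not_El0 (h : HM.NodeM k 0 R B S) (hc : ClR B S) (w0 : OddHC.X k) (h' : TyEd F g) {i : ℕ}
    (hi : i < 20) : cyc (H1.wX R B S 0 w0 i) ∉ F := by
  intro hF
  have h1 := h'.no23c _ hF
  have h2 := h.r23 hc w0 hi
  rw [contc_cyc] at h1
  omega

/-- all `c`, right windows: no T-cycle of the window is in a late group -/
theorem HM.NodeM.not_ElR (h : HM.NodeM k q R B S) (hc : q = 0 → ClR B S) (w0 : OddHC.X k) (h' : TyEl F g) {i : ℕ}
    (hi : i < 20) : cyc (H1.wX R B S q w0 i) ∉ F := by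
  rcases Nat.eq_zero_or_pos q with rfl | hq
  · exact h.not_El0 (hc rfl) w0 h'.1 hi
  · exact h.not_El hq w0 h' hi

/-- **Rq and late groups** -/
theorem TyRq.not_El (h : TyRq q F g) (hq : 1 ≤ q) (h' : TyEl F' g') : ∀ w ∈ g.B, cyc w ∉ F' := by
  intro w hw
  obtain ⟨R, B, S, w0, i, h1, hi, rfl, -⟩ := h.words w hw
  exact h1.not_El hq w0 h' hi

/-- **Sq and late groups** -/
theorem TySq.not_El (h : TySq q F g) (hq : 1 ≤ q) (h' : TyEl F' g') : ∀ w ∈ g.B, cyc w ∉ F' := by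
  intro w hw
  obtain ⟨R, B, S, w0, i, h1, hi, rfl, -⟩ := h.words' w hw
  exact h1.not_El hq w0 h' hi

/-- **R3 and deep E pairs** -/
theorem TyR3.not_Ed' (h : TyR3 F g) (h' : TyEd F' g') : ∀ w ∈ g.B, cyc w ∉ F' := by
  intro w hw
  obtain ⟨R, B, S, w0, i, h1, -, hc, hi, rfl, -⟩ := h.words w hw
  exact h1.not_El0 hc w0 h' hi

/-- **S3 and deep E pairs** -/
theorem TyS3.not_Ed' (h : TyS3 F g) (h' : TyEd F' g') : ∀ w ∈ g.B, cyc w ∉ F' := by
  intro w hw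
  obtain ⟨R, B, S, w0, i, h1, hc, hi, -, rfl, -⟩ := h.words w hw
  exact h1.not_El0 hc w0 h' hi

/-- inner words of a right window against `TyNat` -/
theorem HM.NodeM.not_TyNat' (h : HM.NodeM k q R B S) (hq : 1 ≤ q) (w0 : OddHC.X k) {i : ℕ}
    (hi : i ∈ [0, 1, 3, 6, 8, 9]) (h' : TyNat F' g')
    (hc : 2 ≤ (contc (cyc (wX R B S q w0 0))).count (q + 3) ∨ ∀ d ∈ F', htc (cyc (wX R B S q w0 0)) ≤ htc d) :
    TT (wX R B S q w0 i) ∉ g'.B := by
  refine h.not_TyNat w0 hi (Or.inl rfl) h' (fun h0 => by omega) fun h0 => ?_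
  rcases hc with hc | hc
  · left
    rw [contc_cyc, wX_cont0 h.dat h.size w0, Multiset.count_add, Multiset.count_singleton_self] at hc
    exact Multiset.count_pos.1 (by omega)
  · right
    intro d hd
    have h1 := hc d hd
    obtain ⟨-, -, c3⟩ := h.winn w0 (i := 0) (by simp) (Or.inl rfl)
    have h2 := c3 (Or.inl rfl)
    have h3 : cyc (TT (wX R B S q w0 0)) = cyc (wX R B S q w0 0) := cyc_eq.2 ⟨-1, by simp⟩
    rw [← h3, htc_cyc] at h1
    rw [← h2]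
    exact h1

/-- **I: Rq against Nat** -/
theorem TyRq.inner_TyNat (h : TyRq q F g) (hq : 1 ≤ q) (h' : TyNat F' g')
    (hc : (∀ c ∈ F, 2 ≤ (contc c).count (q + 3)) ∨ ∀ c ∈ F, ∀ d ∈ F', htc c ≤ htc d) :
    ∀ p ∈ g.arcs, ∀ w ∈ innA p, w ∉ g'.B := by
  intro p hp w hw
  obtain ⟨R, B, S, w0, i, h1, hi, rfl, hm⟩ := h.inn0 p hp w hw
  exact h1.not_TyNat' hq w0 hi h' (hc.imp (fun h => h _ hm) (fun h => h _ hm))

/-- **I: Sq against Nat** -/
theorem TySq.inner_TyNat (h : TySq q F g) (hq : 1 ≤ q) (h' : TyNat F' g') :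
    ∀ p ∈ g.arcs, ∀ w ∈ innA p, w ∉ g'.B := by
  intro p hp w hw
  obtain ⟨R, B, S, w0, i, h1, hi, rfl, hm⟩ := h.inn0 p hp w hw
  refine h1.not_TyNat w0 (mem_S3_R3 hi) (Or.inl rfl) h' (fun h0 => by omega) fun h0 => ?_
  subst h0
  simp at hi

end Pool.OddHC
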