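import Pool.Agent.Work.MP_8f87b2_h17.Nat1
import Pool.Agent.Work.MP_8f87b2_h13.Drift2

/-!
# The drift coordinate

`natp`: `w = iy (y + 1) u e`. For every letter `q` of the ring of `u` and every `z` there is a time with the star
of `u` at `q` and the star of `w` at `q + (y + 1) z`.
-/

set_option autoImplicit false

namespace Pool.OddHC

open Finset BinaryTree

variable {j k : ℕ}

/-- total displacement -/
noncomputable def Vt (u : X j) (t : ℕ) : ℕ := ∑ s ∈ range t, nv ((TT ^ s) u)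

/-- total number of peaks passed -/
noncomputable def Bt (u : X j) (t : ℕ) : ℕ := ∑ s ∈ range t, (1 + 2 * nb ((TT ^ s) u))

/-- extras passed -/
def Ct (j : ℕ) (e : List ℕ) (v : ℕ) : ℕ := ∑ x ∈ range v, exl j e ((x : ℕ) : ZMod (2 * j + 1))

theorem sp_Vt (u : X j) (t : ℕ) : sp u t = (Vt u t : ZMod (2 * j + 1)) := by
  induction t with
  | zero => rw [sp_zero]; unfold Vt; simp
  | succ t ih =>
    rw [sp_succ, ih]
    unfold Vt nv
    rw [sum_range_succ]
    push_cast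
    rw [ZMod.natCast_zmod_val]

theorem Vt_mono (u : X j) {a b : ℕ} (h : a ≤ b) : Vt u a ≤ Vt u b :=
  Finset.sum_le_sum_of_subset (by intro x hx; rw [mem_range] at hx ⊢; omega)

theorem Ct_add (j : ℕ) (e : List ℕ) (a b : ℕ) : Ct j e (a + b) = Ct j e a +
    ∑ x ∈ range b, exl j e ((a : ZMod (2 * j + 1)) + ((x : ℕ) : ZMod (2 * j + 1))) := by
  unfold Ct
  rw [Finset.sum_range_add]
  congr 1
  apply sum_congr rfl
  intro x _
  push_cast
  rfl

theorem Ct_ring (j : ℕ) (e : List ℕ) (he : e.length = 2 * j + 1) : Ct j e (2 * j + 1) = e.sum := by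
  unfold Ct
  have h1 := take_sum_getD e (2 * j + 1) (by omega)
  rw [List.take_of_length_le (by omega)] at h1
  rw [h1]
  apply sum_congr rfl
  intro x hx
  rw [mem_range] at hx
  unfold exl
  rw [ZMod.val_natCast, Nat.mod_eq_of_lt hx]

theorem Ct_turn (j : ℕ) (e : List ℕ) (he : e.length = 2 * j + 1) (a m : ℕ) :
    Ct j e (a + (2 * j + 1) * m) = Ct j e a + m * e.sum := by
  induction m with
  | zero => simp
  | succ m ih =>
    have h1 : a + (2 * j + 1) * (m + 1) = (2 * j + 1) + (a + (2 * j + 1) * m) := by ring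
    rw [h1, Ct_add, Ct_ring j e he, ZMod.natCast_self]
    have h2 : ∑ x ∈ range (a + (2 * j + 1) * m), exl j e ((0 : ZMod (2 * j + 1)) +
        ((x : ℕ) : ZMod (2 * j + 1))) = Ct j e (a + (2 * j + 1) * m) := by
      unfold Ct
      apply sum_congr rfl
      intro x _
      rw [zero_add]
    rw [h2, ih]
    ring

/-- total displacement of `iy` -/
theorem Vt_iy (hk : 1 ≤ k) (u : X j) (e : List ℕ) (he : e.length = 2 * j + 1) (y : ℕ) (w : X k)
    (hw : w.1 = iy (y + 1) u.1 e) (t : ℕ) :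
    Vt w t = Vt u t + (y + 1) * Bt u t + 2 * (y + 1) * Ct j e (Vt u t) := by
  induction t with
  | zero => unfold Vt Bt Ct; simp
  | succ t ih =>
    obtain ⟨f, h1, _, h3, h4⟩ := word_iy u e he t
    have h5 := (nv_iy ((TT ^ t) u) f h1 y k ((TT ^ t) w) hk (h4 y k w hw)).2
    have hlt : nv ((TT ^ t) u) < 2 * j + 1 := by unfold nv; exact ZMod.val_lt _
    have h6 : (f.take (nv ((TT ^ t) u))).sum = ∑ x ∈ range (nv ((TT ^ t) u)),
        exl j e ((Vt u t : ZMod (2 * j + 1)) + ((x : ℕ) : ZMod (2 * j + 1))) := by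
      rw [take_sum_getD f _ (by omega)]
      apply sum_congr rfl
      intro x hx
      rw [mem_range] at hx
      rw [h3 x (by omega), sp_Vt]
    have e1 : Vt w (t + 1) = Vt w t + nv ((TT ^ t) w) := by unfold Vt; rw [sum_range_succ]
    have e2 : Vt u (t + 1) = Vt u t + nv ((TT ^ t) u) := by unfold Vt; rw [sum_range_succ]
    have e3 : Bt u (t + 1) = Bt u t + (1 + 2 * nb ((TT ^ t) u)) := by unfold Bt; rw [sum_range_succ]
    rw [e1, e2, e3, ih, h5, h6, Ct_add]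
    ring

/-- consecutive visits: turns and peaks -/
theorem visit_peaks (u : X j) {a b : ℕ} (hab : a < b) (h : sp u b = sp u a)
    (hmin : ∀ i, a < i → i < b → sp u i ≠ sp u a) :
    ∃ m, Vt u b = Vt u a + (2 * j + 1) * m ∧ Bt u b = Bt u a + (1 + 2 * pkn u.1 * m) := by
  obtain ⟨m, hm⟩ : ∃ m, Vt u b = Vt u a + (2 * j + 1) * m := by
    rw [sp_Vt, sp_Vt, ZMod.natCast_eq_natCast_iff] at h
    have h1 := (Nat.modEq_iff_dvd' (Vt_mono u hab.le)).1 h.symm
    obtain ⟨m, hm⟩ := h1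
    have := Vt_mono u hab.le
    exact ⟨m, by omega⟩
  refine ⟨m, hm, ?_⟩
  obtain ⟨D, hD⟩ : ∃ D : ℤ, D = (Bt u b : ℤ) - Bt u a - (1 + 2 * pkn u.1 * m) := ⟨_, rfl⟩
  obtain ⟨E, hE⟩ : ∃ E : ℕ, E = D.natAbs := ⟨_, rfl⟩
  obtain ⟨e, he⟩ : ∃ e : List ℕ, e = E :: List.replicate (2 * j) 0 := ⟨_, rfl⟩
  have hel : e.length = 2 * j + 1 := by rw [he]; simp
  have hes : e.sum = E := by rw [he]; simp
  obtain ⟨k, w, hw⟩ : ∃ (k : ℕ) (w : X k), w.1 = ins u.1 e :=
    ⟨(ins u.1 e).numNodes, ⟨_, mem_treesOfNumNodesEq.2 rfl⟩, rfl⟩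
  have hnum := (ins_num u.1 e (by rw [X_num]; exact hel)).1
  rw [← hw, X_num, X_num, hes] at hnum
  have hv := visit_succ u e hel w hw hab h hmin
  have hD0 : D = 0 := by
    rcases Nat.eq_zero_or_pos k with hk0 | hk0
    · omega
    · rw [sp_Vt, sp_Vt, Vt_iy hk0 u e hel 0 w hw, Vt_iy hk0 u e hel 0 w hw, hm,
        Ct_turn j e hel, hes] at hv
      have h2 : ((2 * k + 1 : ℕ) : ℤ) ∣ D := by
        have h3 : ((D : ℤ) : ZMod (2 * k + 1)) = 0 := by
          have h0 : ((2 * k + 1 : ℕ) : ZMod (2 * k + 1)) = 0 := ZMod.natCast_self _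
          rw [hnum] at h0
          rw [hD]
          rw [hnum]
          rw [hnum] at hv
          push_cast at hv h0 ⊢
          linear_combination hv - (m : ZMod (2 * (j + pkn u.1 + E) + 1)) * h0
        exact (ZMod.intCast_zmod_eq_zero_iff_dvd D (2 * k + 1)).1 h3
      refine Int.eq_zero_of_abs_lt_dvd h2 ?_
      have h4 : |D| = (E : ℤ) := by rw [hE]; exact (Int.natCast_natAbs D).symm
      rw [h4]
      have : E ≤ k := by omega
      push_cast
      omega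
  rw [hD] at hD0
  have : (Bt u b : ℤ) = Bt u a + (1 + 2 * pkn u.1 * m) := by linarith
  exact_mod_cast this

/-- consecutive visits of the small star move the big star by `y + 1` -/
theorem visit_iy (hk : 1 ≤ k) (u : X j) (e : List ℕ) (he : e.length = 2 * j + 1) (y : ℕ) (w : X k)
    (hw : w.1 = iy (y + 1) u.1 e) {a b : ℕ} (hab : a < b) (h : sp u b = sp u a)
    (hmin : ∀ i, a < i → i < b → sp u i ≠ sp u a) :
    sp w b = sp w a + ((y + 1 : ℕ) : ZMod (2 * k + 1)) := by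
  obtain ⟨m, h1, h2⟩ := visit_peaks u hab h hmin
  have hnum := (iy_num u.1 e (by rw [X_num]; exact he) y).1
  rw [← hw, X_num, X_num] at hnum
  have h3 : Vt w b = Vt w a + (y + 1) + (2 * k + 1) * m := by
    rw [Vt_iy hk u e he y w hw, Vt_iy hk u e he y w hw, h1, h2, Ct_turn j e he, hnum]
    ring
  rw [sp_Vt, sp_Vt, h3]
  have h0 : ((2 * k + 1 : ℕ) : ZMod (2 * k + 1)) = 0 := ZMod.natCast_self _
  push_cast at h0 ⊢
  linear_combination (m : ZMod (2 * k + 1)) * h0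

/-- the coordinate of a visit -/
theorem visit_base (hk : 1 ≤ k) (u : X j) (e : List ℕ) (he : e.length = 2 * j + 1) (y : ℕ) (w : X k)
    (hw : w.1 = iy (y + 1) u.1 e) {q : ZMod (2 * j + 1)} {t : ℕ} (h : sp u t = q) :
    ∃ z : ZMod (2 * k + 1), sp w t = (q.val : ZMod (2 * k + 1)) +
      ((y + 1 : ℕ) : ZMod (2 * k + 1)) * z := by
  have hnum := (iy_num u.1 e (by rw [X_num]; exact he) y).1
  rw [← hw, X_num, X_num] at hnum
  obtain ⟨m, hm⟩ : ∃ m, Vt u t = q.val + (2 * j + 1) * m := by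
    refine ⟨Vt u t / (2 * j + 1), ?_⟩
    rw [← h, sp_Vt, ZMod.val_natCast]
    exact (Nat.mod_add_div _ _).symm
  refine ⟨(Bt u t : ZMod (2 * k + 1)) + 2 * (Ct j e (Vt u t) : ZMod (2 * k + 1)) -
    2 * (m : ZMod (2 * k + 1)) * ((pkn u.1 + e.sum : ℕ) : ZMod (2 * k + 1)), ?_⟩
  have h1 : (Vt w t : ZMod (2 * k + 1)) = ((q.val + (2 * j + 1) * m + (y + 1) * Bt u t +
      2 * (y + 1) * Ct j e (Vt u t) : ℕ) : ZMod (2 * k + 1)) := by
    rw [Vt_iy hk u e he y w hw]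
    congr 4
  rw [sp_Vt, h1]
  have h0 : ((2 * k + 1 : ℕ) : ZMod (2 * k + 1)) = 0 := ZMod.natCast_self _
  have h2 : ((2 * k + 1 : ℕ) : ZMod (2 * k + 1)) = ((2 * (j + (y + 1) * (pkn u.1 + e.sum)) + 1 : ℕ) :
    ZMod (2 * k + 1)) := by rw [← hnum]
  rw [h2] at h0
  push_cast at h0 ⊢
  linear_combination (m : ZMod (2 * k + 1)) * h0

/-- **DRIFT COORDINATE** -/
theorem natp (hk : 1 ≤ k) (u : X j) (e : List ℕ) (he : e.length = 2 * j + 1) (y : ℕ) (w : X k)
    (hw : w.1 = iy (y + 1) u.1 e) (q : ZMod (2 * j + 1)) (z : ZMod (2 * k + 1)) :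
    ∃ i, sp u i = q ∧ sp w i = (q.val : ZMod (2 * k + 1)) + ((y + 1 : ℕ) : ZMod (2 * k + 1)) * z := by
  obtain ⟨t0, h0⟩ := exists_sp' u q
  obtain ⟨z0, hz0⟩ := visit_base hk u e he y w hw h0
  have key : ∀ n : ℕ, ∃ t, sp u t = q ∧ sp w t = sp w t0 +
      (n : ZMod (2 * k + 1)) * ((y + 1 : ℕ) : ZMod (2 * k + 1)) := by
    intro n
    induction n with
    | zero => exact ⟨t0, h0, by rw [Nat.cast_zero, zero_mul, add_zero]⟩
    | succ n ih =>
      obtain ⟨a, h1, h2⟩ := ih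
      obtain ⟨b, h3, h4, h5⟩ := next_visit u a
      refine ⟨b, h4.trans h1, ?_⟩
      rw [visit_iy hk u e he y w hw h3 h4 h5, h2]
      push_cast
      ring
  obtain ⟨t, h1, h2⟩ := key (z - z0).val
  refine ⟨t, h1, ?_⟩
  rw [h2, ZMod.natCast_zmod_val, hz0]
  ring

end Pool.OddHC
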