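import Pool.Agent.Work.MP_8f87b2_h17.Nat2
import Pool.Agent.Work.MP_8f87b2_end.Inv2
import Pool.Agent.Work.MP_8f87b2_end.Gam

/-!
# Natural phases of the E edges over a ring with a soliton `Y + 1`

`hop_one`: the edges at a T-cycle with one bead over `W`, all phases.
`nat_phase`: the four natural times.
-/

set_option autoImplicit false

namespace Pool.OddHC

open Finset BinaryTree Multiset Pool.OddHop

variable {j k : ℕ}

/-- one bead in the gap `x` -/
def dl (j : ℕ) (x : ZMod (2 * j + 1)) : ZMod (2 * j + 1) → ℕ := fun z => if z = x then 1 else 0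

theorem dl_sum (x : ZMod (2 * j + 1)) : ∑ z, dl j x z = 1 := by
  unfold dl
  rw [Finset.sum_ite_eq' univ x (fun _ => 1), if_pos (mem_univ _)]

theorem cyc_pull (W : X j) (m : ℕ) (a : ZMod (2 * j + 1) → ℕ)
    (h : j + pkn ((TT ^ m) W).1 + ∑ x, a x = k)
    (h' : j + pkn W.1 + ∑ x, a (x - sp W m) = k) :
    cyc (phi ((TT ^ m) W) a h) = cyc (phi W (fun x => a (x - sp W m)) h') := by
  have e : (TT ^ m) (phi W (fun x => a (x - sp W m)) h') = phi ((TT ^ m) W) a h := by
    rw [pow_phi]
    apply phi_congr rfl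
    funext x
    rw [add_sub_cancel_right]
  rw [← e]
  exact (cyc_eq.2 ⟨(m : ℤ), by rw [zpow_natCast]⟩).symm

theorem sp_fix (W : X j) {i : ℕ} (h : (TT ^ i) W = W) (t : ℕ) :
    sp W (i + t) = sp W i + sp W t ∧ (TT ^ (i + t)) W = (TT ^ t) W := by
  constructor
  · rw [sp_add, h]
  · rw [add_comm, pow_add, Equiv.Perm.mul_apply, h]

/-- **THE EDGES AT A T-CYCLE WITH ONE BEAD** -/
theorem hop_one (hj : 1 ≤ j) (W : X j) (β : ZMod (2 * j + 1)) {p q : Cyc k} (h : HopC p q) {w : X k}
    (hw : w.1 = ins W.1 (lf (dl j β))) (hp : cyc w = p) :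
    ∃ l, (l = β ∨ l = β + 1) ∧ ∀ t, sp W t = l → EData p q j ((TT ^ t) W) (fun _ => 0) := by
  obtain ⟨j', hj', u0, a, a', h1, h2, hop, hpa, hqa⟩ := h
  have hR : Rd (cyc w) = ⟨j, cyc W⟩ := Rd_ins (lf_length _) hw
  have hR' : Rd (cyc (phi u0 a h1)) = ⟨j', cyc u0⟩ := Rd_ins (lf_length a) rfl
  have hR2 : Rd (cyc (phi u0 a' h2)) = ⟨j', cyc u0⟩ := Rd_ins (lf_length a') rfl
  rw [hp] at hR
  rw [hpa, hR] at hR'
  rw [hqa, ← hR'] at hR2
  have hjj : j = j' := congrArg Sigma.fst hR'
  subst hjj
  have hc : cyc W = cyc u0 := by simpa using hR'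
  obtain ⟨m, hm⟩ := sameCycle_nat (cyc_eq.1 hc)
  subst hm
  have hpk : j + pkn W.1 + 1 = k := by
    have h3 := (ins_num W.1 (lf (dl j β)) (by rw [lf_length, X_num])).1
    rw [← hw, X_num, X_num, lf_sum, dl_sum] at h3
    omega
  have hsz : ∀ (x : ZMod (2 * j + 1)), j + pkn W.1 + ∑ z, ((fun _ => 0 : ZMod (2 * j + 1) → ℕ) z +
      if z = x then 1 else 0) = k := by
    intro x
    have : ∑ z, ((fun _ => 0 : ZMod (2 * j + 1) → ℕ) z + if z = x then 1 else 0) = 1 := by
      refine Eq.trans (sum_congr rfl ?_) (dl_sum x)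
      intro z _
      simp [dl]
    rw [this]
    exact hpk
  have hse : ∀ a : ZMod (2 * j + 1) → ℕ, ∑ x, a (x - sp W m) = ∑ x, a x := by
    intro a
    have := sum_shift a (-sp W m)
    simpa only [sub_eq_add_neg] using this
  have e1 : j + pkn W.1 + ∑ x, a (x - sp W m) = k := by
    rw [hse, ← pkn_pow W m]; exact h1
  have e2 : j + pkn W.1 + ∑ x, a' (x - sp W m) = k := by
    rw [hse, ← pkn_pow W m]; exact h2
  rw [cyc_pull W m a h1 e1] at hpa
  rw [cyc_pull W m a' h2 e2] at hqa
  have hd : w = phi W (dl j β) (by rw [dl_sum]; exact hpk) := Subtype.ext hw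
  have hs := hp.trans hpa.symm
  rw [hd] at hs
  obtain ⟨i, hi, hfi⟩ := (same_iff W _ _ _ _).1 (cyc_eq.1 hs.symm)
  -- the bead
  have hb : ∀ z, a z = dl j (β + sp W i - sp W m) z := by
    intro z
    have h3 := congrFun hfi (z + sp W m - sp W i)
    have h4 : z + sp W m - sp W i + sp W i - sp W m = z := by ring
    rw [h4] at h3
    rw [← h3]
    unfold dl
    have h5 : (z + sp W m - sp W i = β) ↔ (z = β + sp W i - sp W m) := by
      constructor
      · intro h; rw [← h]; ring
      · rintro rfl; ring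
    simp only [h5]
  obtain ⟨f, x, hfx⟩ := hop_form hj hop
  have hmk : ∀ t, EData p q j ((TT ^ t) W) (fun _ => 0) ↔
      ((∀ w w' : X k, w.1 = .nil △ ins ((TT ^ t) W).1 (lf (fun _ : ZMod (2 * j + 1) => 0)) →
        w'.1 = app (ins ((TT ^ t) W).1 (lf (fun _ : ZMod (2 * j + 1) => 0))) (.nil △ .nil) →
          cyc w = p ∧ cyc w' = q) ∨
      (∀ w w' : X k, w.1 = .nil △ ins ((TT ^ t) W).1 (lf (fun _ : ZMod (2 * j + 1) => 0)) →
        w'.1 = app (ins ((TT ^ t) W).1 (lf (fun _ : ZMod (2 * j + 1) => 0))) (.nil △ .nil) →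
          cyc w = q ∧ cyc w' = p)) := by
    intro t
    have hct : cyc W = cyc ((TT ^ t) W) := cyc_eq.2 ⟨(t : ℤ), by rw [zpow_natCast]⟩
    constructor
    · exact fun h => h.words
    · intro h3
      refine ⟨hj, ?_, by rw [hR, hct], by rw [hR2, hct], h3⟩
      rw [pkn_pow]
      simp
      omega
  -- the common part is empty
  have hf0 : ∀ y, a = (fun z => f z + if z = y then 1 else 0) →
      f = (fun _ => 0) ∧ y = β + sp W i - sp W m := by
    intro y hay
    have hy : y = β + sp W i - sp W m := by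
      have h3 := hb y
      rw [hay] at h3
      simp only [if_true] at h3
      by_contra hne
      unfold dl at h3
      rw [if_neg hne] at h3
      omega
    refine ⟨?_, hy⟩
    funext z
    have h3 := hb z
    rw [hay] at h3
    simp only at h3
    rw [hy] at h3
    unfold dl at h3
    omega
  rcases hfx with ⟨ha, ha'⟩ | ⟨ha', ha⟩
  · -- `p` at `x`, `q` at `x + 1`
    obtain ⟨hf, hx⟩ := hf0 x ha
    refine ⟨β + 1, Or.inr rfl, fun t ht => (hmk t).2 (Or.inr ?_)⟩
    intro w1 w2 hw1 hw2
    have h5 := star_hop_any W (fun _ => 0) (β + sp W i) (hsz _) (hsz _) (i := i + t)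
      (by rw [(sp_fix W hi t).1, ht]; ring) (w := w1) (w' := w2)
      (by rw [(sp_fix W hi t).2]; exact hw1) (by rw [(sp_fix W hi t).2]; exact hw2)
    refine ⟨h5.1.trans ?_, h5.2.trans ?_⟩
    · rw [← hqa]
      congr 1
      apply phi_congr rfl
      funext z
      rw [ha', hf, hx]
      have : (z - sp W m = β + sp W i - sp W m + 1) ↔ (z = β + sp W i + 1) := by
        constructor
        · intro h; linear_combination h
        · rintro rfl; ring
      simp only [this]
    · rw [← hpa]
      congr 1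
      apply phi_congr rfl
      funext z
      rw [ha, hf, hx]
      have : (z - sp W m = β + sp W i - sp W m) ↔ (z = β + sp W i) := by
        constructor
        · intro h; linear_combination h
        · rintro rfl; ring
      simp only [this]
  · -- `q` at `x`, `p` at `x + 1`
    obtain ⟨hf, hx⟩ := hf0 (x + 1) ha
    refine ⟨β, Or.inl rfl, fun t ht => (hmk t).2 (Or.inl ?_)⟩
    intro w1 w2 hw1 hw2
    have h5 := star_hop_any W (fun _ => 0) (β + sp W i - 1) (hsz _) (hsz _) (i := i + t)
      (by rw [(sp_fix W hi t).1, ht]; ring) (w := w1) (w' := w2)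
      (by rw [(sp_fix W hi t).2]
          exact hw1)
      (by rw [(sp_fix W hi t).2]
          exact hw2)
    refine ⟨h5.1.trans ?_, h5.2.trans ?_⟩
    · rw [← hpa]
      congr 1
      apply phi_congr rfl
      funext z
      rw [ha, hf, hx]
      have : (z - sp W m = β + sp W i - sp W m) ↔ (z = β + sp W i - 1 + 1) := by
        constructor
        · intro h; linear_combination h
        · rintro rfl; ring
      simp only [this]
    · rw [← hqa]
      congr 1
      apply phi_congr rfl
      funext z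
      rw [ha', hf]
      have : (z - sp W m = x) ↔ (z = β + sp W i - 1) := by
        constructor
        · intro h; linear_combination h + hx
        · intro h; linear_combination h - hx
      simp only [this]

end Pool.OddHC
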