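import Pool.Agent.Work.MP_8f87b2_h17.Nat3

/-!
# The natural phases: words

`nat_front`, `nat_outer` (for the words `(Q)()R`, `(Q())R`), `nat_front'`, `nat_outer'` (mirror: `R()(Q)`, `R(()Q)`),
`(Q) = [Y + 2]`, all parts of `R` greater than `Y + 2`.
-/

set_option autoImplicit false

namespace Pool.OddHC

open Finset BinaryTree Multiset Pool.OddHop

variable {i j k : ℕ}

/-! ### Lists -/

theorem lf_eq_of_getD {n : ℕ} [NeZero n] (b : ZMod n → ℕ) (e : List ℕ) (he : e.length = n)
    (h : ∀ a < n, e.getD a 0 = b (a : ZMod n)) : lf b = e := by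
  apply List.ext_getElem
  · rw [lf_length, he]
  · intro a h1 h2
    rw [lf_getElem, ← h a (by omega), List.getD_eq_getElem _ _ h2]

theorem getD_one (a b x : ℕ) : (List.replicate a 0 ++ 1 :: List.replicate b 0).getD x 0 =
    if x = a then 1 else 0 := by
  rcases lt_trichotomy x a with h | h | h
  · rw [List.getD_append _ _ _ _ (by simpa using h), List.getD_replicate _ h, if_neg (by omega)]
  · subst h
    rw [List.getD_append_right _ _ _ _ (by simp)]
    simp
  · rw [List.getD_append_right _ _ _ _ (by simp; omega), List.length_replicate, if_neg (by omega)]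
    obtain ⟨t, ht⟩ : ∃ t, x - a = t + 1 := ⟨x - a - 1, by omega⟩
    rw [ht, List.getD_cons_succ]
    by_cases h2 : t < b
    · rw [List.getD_replicate _ h2]
    · rw [List.getD_eq_default]
      simpa using h2

theorem lf_dl (a b : ℕ) (h : a + b = 2 * j) :
    lf (dl j (a : ZMod (2 * j + 1))) = List.replicate a 0 ++ 1 :: List.replicate b 0 := by
  apply lf_eq_of_getD
  · rw [List.length_append, List.length_cons, List.length_replicate, List.length_replicate]
    omega
  · intro x hx
    rw [getD_one]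
    unfold dl
    have h1 : ((x : ZMod (2 * j + 1)) = (a : ZMod (2 * j + 1))) ↔ x = a := by
      constructor
      · intro h2
        have h3 := congrArg ZMod.val h2
        rw [ZMod.val_natCast_of_lt hx, ZMod.val_natCast_of_lt (by omega)] at h3
        exact h3
      · rintro rfl; rfl
    simp only [h1]

/-! ### Trees -/

theorem exists_last {t : BinaryTree Unit} (h : t ≠ .nil) : ∃ P A, t = app P (A △ .nil) := by
  induction t with
  | nil => exact absurd rfl h
  | node _ A B _ ih =>
    by_cases hB : B = .nil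
    · subst hB
      exact ⟨.nil, A, rfl⟩
    · obtain ⟨P, A', h1⟩ := ih hB
      refine ⟨A △ P, A', ?_⟩
      rw [h1]
      rfl

/-- iterated inflation -/
theorem iy_zero (t : BinaryTree Unit) (Y : ℕ) :
    iy (Y + 1) t (List.replicate (2 * t.numNodes + 1) 0) = inf^[Y + 1] t := by
  induction Y with
  | zero => rfl
  | succ Y ih =>
    rw [Function.iterate_succ_apply', ← ih]
    rfl

theorem iy_front (u : X i) (Y : ℕ) :
    iy (Y + 1) u.1 (lf (dl i 0)) = pc Y △ inf^[Y + 1] u.1 := by
  induction Y with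
  | zero =>
    change ins u.1 (lf (dl i 0)) = .nil △ inf u.1
    have h1 := ins_front u (fun _ => 0)
    have h2 : (fun x : ZMod (2 * i + 1) => (fun _ => 0 : ZMod (2 * i + 1) → ℕ) x +
        if x = 0 then 1 else 0) = dl i 0 := by
      funext x
      simp [dl]
    rw [h2, lf_zero] at h1
    rw [h1]
    unfold inf
    rw [X_num]
  | succ Y ih =>
    rw [Function.iterate_succ_apply']
    change inf (iy (Y + 1) u.1 (lf (dl i 0))) = _
    rw [ih, inf_node, inf1_pc]

theorem iy_back (u : X i) (Y : ℕ) :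
    iy (Y + 1) u.1 (lf (dl i (-1))) = app (inf^[Y + 1] u.1) (pc Y △ .nil) := by
  induction Y with
  | zero =>
    change ins u.1 (lf (dl i (-1))) = app (inf u.1) (.nil △ .nil)
    have h1 := ins_back u (fun _ => 0)
    have h2 : (fun x : ZMod (2 * i + 1) => (fun _ => 0 : ZMod (2 * i + 1) → ℕ) x +
        if x = -1 then 1 else 0) = dl i (-1) := by
      funext x
      simp [dl]
    rw [h2, lf_zero] at h1
    rw [h1]
    unfold inf
    rw [X_num]
  | succ Y ih =>
    rw [Function.iterate_succ_apply']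
    change inf (iy (Y + 1) u.1 (lf (dl i (-1)))) = _
    rw [ih, inf_app, inf_node, inf1_pc]
    rfl

theorem inf1_ne' (A : BinaryTree Unit) : inf1 A ≠ .nil := inf1_ne_nil A

/-- one bead behind the first letter -/
theorem ins_second (A B : BinaryTree Unit) :
    ins (A △ B) (0 :: 1 :: List.replicate (2 * (A △ B).numNodes - 1) 0) =
      (.nil △ inf1 A) △ inf B := by
  have h1 := ins_hole .nil A B 1
  have h2 : holeL .nil A B 1 = 0 :: 1 :: List.replicate (2 * (A △ B).numNodes - 1) 0 := by
    unfold holeL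
    rw [List.replicate_append_replicate]
    change List.replicate 1 0 ++ _ = _
    have h3 : 2 * A.numNodes + (2 * B.numNodes + 1) = 2 * (A △ B).numNodes - 1 := by
      change _ = 2 * (A.numNodes + B.numNodes + 1) - 1
      omega
    rw [h3]
    rfl
  rw [h2] at h1
  exact h1

theorem iy_f1 (hi : 1 ≤ i) (u : X i) (Y : ℕ) : ∃ A B, A ≠ .nil ∧ inf^[Y + 1] u.1 = A △ B ∧
    iy (Y + 1) u.1 (lf (dl i 1)) = (pc Y △ A) △ B := by
  induction Y with
  | zero =>
    change ∃ A B, A ≠ .nil ∧ inf u.1 = A △ B ∧ ins u.1 (lf (dl i 1)) = (.nil △ A) △ B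
    obtain ⟨A, B, hAB⟩ : ∃ A B, u.1 = A △ B := by
      cases h : u.1 with
      | nil =>
        have := X_num u
        rw [h] at this
        simp at this
        omega
      | node _ A B => exact ⟨A, B, rfl⟩
    refine ⟨inf1 A, inf B, inf1_ne_nil A, by rw [hAB, inf_node], ?_⟩
    have hn := X_num u
    rw [hAB] at hn
    have h1 := lf_dl (j := i) 1 (2 * i - 1) (by omega)
    rw [Nat.cast_one] at h1
    rw [h1, hAB, ← ins_second A B, hn]
    rfl
  | succ Y ih =>
    obtain ⟨A, B, h0, h1, h2⟩ := ih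
    refine ⟨inf A, inf B, ?_, ?_, ?_⟩
    · exact inf_ne_nil h0
    · rw [Function.iterate_succ_apply', h1, inf_node, inf1_eq h0]
    · change inf (iy (Y + 1) u.1 (lf (dl i 1))) = _
      rw [h2, inf_node, inf1_eq (by simp), inf_node, inf1_pc]

/-- one bead before the last letter of a component -/
theorem ins_comp_last (A : BinaryTree Unit) :
    ins (A △ .nil) (List.replicate (2 * A.numNodes + 1) 0 ++ [1, 0]) =
      app (inf1 A) (.nil △ .nil) △ .nil := by
  cases A with
  | nil => rfl
  | node _ A B =>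
    have hA : ∃ v : X (A △ B).numNodes, v.1 = A △ B := ⟨⟨_, mem_treesOfNumNodesEq.2 rfl⟩, rfl⟩
    obtain ⟨v, hv⟩ := hA
    obtain ⟨n, hn⟩ : ∃ n, n = (A △ B).numNodes := ⟨_, rfl⟩
    have e0 : (BinaryTree.node () A B) = A △ B := rfl
    rw [e0]
    have e1 : List.replicate (2 * (A △ B).numNodes + 1) 0 ++ [1, 0] =
        0 :: ((List.replicate (2 * (A △ B).numNodes) 0 ++ [1]) ++ [0]) := by
      rw [List.replicate_succ]
      simp
    rw [e1, ins, List.headD_cons, List.tail_cons, List.take_left' (by simp), lv]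
    have e2 : List.drop (2 * (A △ B).numNodes + 2)
        (0 :: (List.replicate (2 * (A △ B).numNodes) 0 ++ [1] ++ [0])) = [0] := by
      rw [List.drop_succ_cons, List.drop_left' (by simp)]
    rw [e2]
    change ins (A △ B) (List.replicate (2 * (A △ B).numNodes) 0 ++ [1]) △ ins .nil [0] =
      app (inf (A △ B)) (.nil △ .nil) △ .nil
    have h1 := iy_back v 0
    change ins v.1 (lf (dl (A △ B).numNodes (-1))) = app (inf v.1) (.nil △ .nil) at h1
    have h2 := lf_dl (j := (A △ B).numNodes) (2 * (A △ B).numNodes) 0 (by omega)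
    have h3 : ((2 * (A △ B).numNodes : ℕ) : ZMod (2 * (A △ B).numNodes + 1)) = -1 := by
      have h0 : ((2 * (A △ B).numNodes + 1 : ℕ) : ZMod (2 * (A △ B).numNodes + 1)) = 0 :=
        ZMod.natCast_self _
      push_cast at h0 ⊢
      linear_combination h0
    rw [h3] at h2
    rw [h2, hv] at h1
    change ins (A △ B) (List.replicate (2 * (A △ B).numNodes) 0 ++ [1]) = _ at h1
    rw [h1]
    rfl

theorem iy_l1 (hi : 1 ≤ i) (u : X i) (Y : ℕ) : ∃ P A, A ≠ .nil ∧
    inf^[Y + 1] u.1 = app P (A △ .nil) ∧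
    iy (Y + 1) u.1 (lf (dl i (-2))) = app P (app A (pc Y △ .nil) △ .nil) := by
  induction Y with
  | zero =>
    change ∃ P A, A ≠ .nil ∧ inf u.1 = app P (A △ .nil) ∧
      ins u.1 (lf (dl i (-2))) = app P (app A (.nil △ .nil) △ .nil)
    obtain ⟨P, A, hPA⟩ : ∃ P A, u.1 = app P (A △ .nil) := exists_last (by
      intro h
      have := X_num u
      rw [h] at this
      simp at this
      omega)
    refine ⟨inf P, inf1 A, inf1_ne_nil A, by rw [hPA, inf_app, inf_node]; rfl, ?_⟩
    have hn := X_num u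
    rw [hPA, num_app] at hn
    change P.numNodes + (A.numNodes + 0 + 1) = i at hn
    have h1 := lf_dl (j := i) (2 * i - 1) 1 (by omega)
    have h3 : ((2 * i - 1 : ℕ) : ZMod (2 * i + 1)) = -2 := by
      have h0 : ((2 * i + 1 : ℕ) : ZMod (2 * i + 1)) = 0 := ZMod.natCast_self _
      have h2 : ((2 * i - 1 + 1 : ℕ) : ZMod (2 * i + 1)) = ((2 * i : ℕ) : ZMod (2 * i + 1)) := by
        congr 1
        omega
      push_cast at h0 h2 ⊢
      linear_combination h0 + h2
    rw [h3] at h1
    rw [h1, hPA]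
    have e1 : List.replicate (2 * i - 1) 0 ++ 1 :: List.replicate 1 0 =
        List.replicate (2 * P.numNodes + 1) 0 ++
          (List.replicate (2 * A.numNodes) 0 ++ [1, 0]) := by
      rw [← List.append_assoc, List.replicate_append_replicate]
      congr 2
      omega
    rw [e1, ins_app _ _ _ _ List.length_replicate]
    have e2 : (0 : ℕ) :: (List.replicate (2 * A.numNodes) 0 ++ [1, 0]) =
        List.replicate (2 * A.numNodes + 1) 0 ++ [1, 0] := by
      rw [List.replicate_succ]
      rfl
    rw [e2, ins_comp_last]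
    rfl
  | succ Y ih =>
    obtain ⟨P, A, h0, h1, h2⟩ := ih
    refine ⟨inf P, inf A, ?_, ?_, ?_⟩
    · exact inf_ne_nil h0
    · rw [Function.iterate_succ_apply', h1, inf_app, inf_node, inf1_eq h0]
      rfl
    · change inf (iy (Y + 1) u.1 (lf (dl i (-2)))) = _
      have h3 : app A (pc Y △ .nil) ≠ .nil := by
        cases A with
        | nil => exact absurd rfl h0
        | node _ _ _ => simp [app]
      rw [h2, inf_app, inf_node, inf1_eq h3, inf_app, inf_node, inf1_pc]
      rfl

/-! ### The four times -/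

theorem word_iy_lf (u : X i) (b : ZMod (2 * i + 1) → ℕ) (t Y : ℕ) (w : X k)
    (hw : w.1 = iy (Y + 1) u.1 (lf b)) :
    ((TT ^ t) w).1 = iy (Y + 1) ((TT ^ t) u).1 (lf (fun x => b (x + sp u t))) := by
  obtain ⟨f, h1, _, h3, h4⟩ := word_iy u (lf b) (lf_length b) t
  rw [h4 Y k w hw]
  congr 1
  symm
  apply lf_eq_of_getD _ _ h1
  intro a ha
  rw [h3 a ha]
  unfold exl
  rw [lf_getD, add_comm]

/-- at the time `t` the star of `u` is `d` letters behind the gap of the soliton -/
theorem nat_phase (hj : 1 ≤ j) (u : X i) (x0 : ZMod (2 * i + 1)) (Y : ℕ) (W : X j)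
    (hW : W.1 = iy (Y + 1) u.1 (lf (dl i x0))) (d : ZMod (2 * i + 1)) (z : ZMod (2 * j + 1)) :
    ∃ t, sp W t = ((x0 + d).val : ZMod (2 * j + 1)) + ((Y + 1 : ℕ) : ZMod (2 * j + 1)) * z ∧
      ((TT ^ t) W).1 = iy (Y + 1) ((TT ^ t) u).1 (lf (dl i (-d))) := by
  obtain ⟨t, h1, h2⟩ := natp hj u (lf (dl i x0)) (lf_length _) Y W hW (x0 + d) z
  refine ⟨t, h2, ?_⟩
  rw [word_iy_lf u (dl i x0) t Y W hW, h1]
  congr 2
  funext x
  unfold dl
  have : (x + (x0 + d) = x0) ↔ x = -d := by
    constructor
    · intro h; linear_combination h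
    · rintro rfl; ring
  simp only [this]

end Pool.OddHC
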