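import Pool.Agent.Work.MP_8f87b2_h17.Nat4

/-!
# Natural phases, final form

`a = [Y + 2]`, `R = inf^[Y + 2] u` (all parts of `R` greater than `Y + 2`).
`nat_front` : every hop pair with `a()R` has a phase `X = aV` or `X = Va`.
`nat_outer` : every hop pair with `(Q())R`, `a = (Q)`, has a phase `X = aV` or `X = (aA)B`.
`nat_front'`, `nat_outer'` : mirror images (`R()a`, `R(()Q)`; `X = aV`, `Va` or `X = P(Aa)`).
-/

set_option autoImplicit false

namespace Pool.OddHC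

open Finset BinaryTree Multiset Pool.OddHop

variable {i j k : ℕ}

/-- one bead at the end -/
theorem ins_end (A : BinaryTree Unit) :
    ins A (List.replicate (2 * A.numNodes) 0 ++ [1]) = app (inf A) (.nil △ .nil) := by
  obtain ⟨v, hv⟩ : ∃ v : X A.numNodes, v.1 = A := ⟨⟨_, mem_treesOfNumNodesEq.2 rfl⟩, rfl⟩
  have h1 := iy_back v 0
  change ins v.1 (lf (dl A.numNodes (-1))) = app (inf v.1) (.nil △ .nil) at h1
  have h2 := lf_dl (j := A.numNodes) (2 * A.numNodes) 0 (by omega)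
  have h3 : ((2 * A.numNodes : ℕ) : ZMod (2 * A.numNodes + 1)) = -1 := by
    have h0 : ((2 * A.numNodes + 1 : ℕ) : ZMod (2 * A.numNodes + 1)) = 0 := ZMod.natCast_self _
    push_cast at h0 ⊢
    linear_combination h0
  rw [h3] at h2
  rw [h2, hv] at h1
  exact h1

theorem ins_zero (A : BinaryTree Unit) : ins A (0 :: List.replicate (2 * A.numNodes) 0) = inf A := rfl

theorem word5 (Y : ℕ) (R' : BinaryTree Unit) (hj : j = Y + R'.numNodes + 1) :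
    ins (pc Y △ R') (lf (dl j ((2 * Y + 2 : ℕ) : ZMod (2 * j + 1)))) =
      pc (Y + 1) △ (.nil △ inf R') := by
  rw [lf_dl (2 * Y + 2) (2 * R'.numNodes) (by omega)]
  have h1 : List.replicate (2 * Y + 2) 0 ++ 1 :: List.replicate (2 * R'.numNodes) 0 =
      (List.replicate (2 * (pc (Y + 1)).numNodes) 0 ++ [1]) ++ List.replicate (2 * R'.numNodes) 0 := by
    rw [pc_num, List.append_assoc]
    rfl
  have h2 : pc Y △ R' = app (pc (Y + 1)) R' := rfl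
  rw [h1, h2, ins_app _ _ _ _ (by simp), ins_end, ins_zero, inf_pc (by omega)]
  rfl

theorem word4 (Y : ℕ) (R' : BinaryTree Unit) (hj : j = Y + R'.numNodes + 1) :
    ins (pc Y △ R') (lf (dl j ((2 * Y + 1 : ℕ) : ZMod (2 * j + 1)))) =
      app (pc (Y + 1)) (.nil △ .nil) △ inf R' := by
  rw [lf_dl (2 * Y + 1) (2 * R'.numNodes + 1) (by omega)]
  have h1 : List.replicate (2 * Y + 1) 0 ++ 1 :: List.replicate (2 * R'.numNodes + 1) 0 =
      (List.replicate (2 * (pc Y).numNodes + 1) 0 ++ [1, 0]) ++ List.replicate (2 * R'.numNodes) 0 := by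
    rw [pc_num, List.append_assoc]
    rfl
  have h2 : pc Y △ R' = app (pc Y △ .nil) R' := rfl
  rw [h1, h2, ins_app _ _ _ _ (by
    rw [List.length_append, List.length_replicate]
    change 2 * (pc Y).numNodes + 1 + 2 = 2 * ((pc Y).numNodes + 0 + 1) + 1
    ring), ins_comp_last, ins_zero, inf1_pc]
  rfl

theorem word5' (Y : ℕ) (R' : BinaryTree Unit) (hj : j = Y + R'.numNodes + 1) :
    ins (app R' (pc Y △ .nil)) (lf (dl j ((2 * R'.numNodes : ℕ) : ZMod (2 * j + 1)))) =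
      app (inf R') (.nil △ (pc (Y + 1) △ .nil)) := by
  rw [lf_dl (2 * R'.numNodes) (2 * Y + 2) (by omega)]
  have h1 : List.replicate (2 * R'.numNodes) 0 ++ 1 :: List.replicate (2 * Y + 2) 0 =
      (List.replicate (2 * R'.numNodes) 0 ++ [1]) ++ List.replicate (2 * (pc (Y + 1)).numNodes) 0 := by
    rw [pc_num, List.append_assoc]
    rfl
  have h2 : pc Y △ .nil = pc (Y + 1) := rfl
  rw [h1, h2, ins_app _ _ _ _ (by simp), ins_end, ins_zero, inf_pc (by omega), app_assoc']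
  rfl

theorem word4' (Y : ℕ) (R' : BinaryTree Unit) (hj : j = Y + R'.numNodes + 1) :
    ins (app R' (pc Y △ .nil)) (lf (dl j ((2 * R'.numNodes + 1 : ℕ) : ZMod (2 * j + 1)))) =
      app (inf R') ((.nil △ pc (Y + 1)) △ .nil) := by
  rw [lf_dl (2 * R'.numNodes + 1) (2 * Y + 1) (by omega)]
  have h1 := ins_hole R' (pc Y) .nil 1
  have h2 : holeL R' (pc Y) .nil 1 = List.replicate (2 * R'.numNodes + 1) 0 ++
      1 :: List.replicate (2 * Y + 1) 0 := by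
    unfold holeL
    rw [List.replicate_append_replicate, pc_num]
    rfl
  rw [h2, inf1_pc] at h1
  exact h1

/-! ### Sizes -/

theorem inf_iter_num (t : BinaryTree Unit) (Y : ℕ) :
    (inf^[Y + 1] t).numNodes = t.numNodes + (Y + 1) * pkn t := by
  have h := (iy_num t (List.replicate (2 * t.numNodes + 1) 0) List.length_replicate Y).1
  rw [iy_zero, List.sum_replicate] at h
  simpa using h

theorem exists_iter (v : X i) (u : X i) (hp : pkn v.1 = pkn u.1) (Y : ℕ) :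
    (inf^[Y + 1] v.1).numNodes = (inf^[Y + 1] u.1).numNodes := by
  rw [inf_iter_num, inf_iter_num, X_num, X_num, hp]

/-- the four natural forms of the reduced word `r` over the ring of `v` -/
inductive NatForm (Y : ℕ) (V r : BinaryTree Unit) : ZMod 4 → Prop
  | front : r = pc Y △ V → NatForm Y V r 0
  | back : r = app V (pc Y △ .nil) → NatForm Y V r 1
  | f1 (A B : BinaryTree Unit) : A ≠ .nil → V = A △ B → r = (pc Y △ A) △ B → NatForm Y V r 3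
  | l1 (P A : BinaryTree Unit) : A ≠ .nil → V = app P (A △ .nil) →
      r = app P (app A (pc Y △ .nil) △ .nil) → NatForm Y V r 2

/-- the forms from the word over `u` -/
theorem form_front (u : X i) (Y : ℕ) (r : BinaryTree Unit)
    (h : r = iy (Y + 1) u.1 (lf (dl i (-(0 : ZMod (2 * i + 1)))))) :
    NatForm Y (inf^[Y + 1] u.1) r 0 := by
  rw [neg_zero, iy_front] at h
  exact .front h

theorem form_back (u : X i) (Y : ℕ) (r : BinaryTree Unit)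
    (h : r = iy (Y + 1) u.1 (lf (dl i (-(1 : ZMod (2 * i + 1)))))) :
    NatForm Y (inf^[Y + 1] u.1) r 1 := by
  rw [iy_back] at h
  exact .back h

theorem form_f1 (hi : 1 ≤ i) (u : X i) (Y : ℕ) (r : BinaryTree Unit)
    (h : r = iy (Y + 1) u.1 (lf (dl i (-(-1 : ZMod (2 * i + 1)))))) :
    NatForm Y (inf^[Y + 1] u.1) r 3 := by
  rw [neg_neg] at h
  obtain ⟨A, B, h0, h1, h2⟩ := iy_f1 hi u Y
  exact .f1 A B h0 h1 (h.trans h2)

theorem form_l1 (hi : 1 ≤ i) (u : X i) (Y : ℕ) (r : BinaryTree Unit)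
    (h : r = iy (Y + 1) u.1 (lf (dl i (-(2 : ZMod (2 * i + 1)))))) :
    NatForm Y (inf^[Y + 1] u.1) r 2 := by
  obtain ⟨P, A, h0, h1, h2⟩ := iy_l1 hi u Y
  exact .l1 P A h0 h1 (h.trans h2)

/-- size of `W` -/
theorem size_iy (u : X i) (x0 : ZMod (2 * i + 1)) (Y : ℕ) (W : X j)
    (hW : W.1 = iy (Y + 1) u.1 (lf (dl i x0))) : j = i + (Y + 1) * (pkn u.1 + 1) := by
  have h := (iy_num u.1 (lf (dl i x0)) (by rw [lf_length, X_num]) Y).1
  rw [← hW, X_num, X_num, lf_sum, dl_sum] at h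
  exact h

theorem val_one' (hi : 1 ≤ i) : (1 : ZMod (2 * i + 1)).val = 1 := by
  have : Fact (1 < 2 * i + 1) := ⟨by omega⟩
  exact ZMod.val_one _

theorem val_neg_one' : (-1 : ZMod (2 * i + 1)).val = 2 * i := by
  have h3 : ((2 * i : ℕ) : ZMod (2 * i + 1)) = -1 := by
    have h0 : ((2 * i + 1 : ℕ) : ZMod (2 * i + 1)) = 0 := ZMod.natCast_self _
    push_cast at h0 ⊢
    linear_combination h0
  rw [← h3, ZMod.val_natCast_of_lt (by omega)]

/-- the natural times over `W = [Y + 1] R'` -/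
theorem times_front (hi : 1 ≤ i) (u : X i) (Y : ℕ) (W : X j)
    (hW : W.1 = pc Y △ inf^[Y + 1] u.1) :
    (∃ t, sp W t = ((2 * Y + 2 : ℕ) : ZMod (2 * j + 1)) ∧
      ∃ s, NatForm Y (inf^[Y + 1] ((TT ^ s) u).1) ((TT ^ t) W).1 0) ∧
    (∃ t, sp W t = ((2 * Y + 2 : ℕ) : ZMod (2 * j + 1)) + 1 ∧
      ∃ s, NatForm Y (inf^[Y + 1] ((TT ^ s) u).1) ((TT ^ t) W).1 1) ∧
    (∃ t, sp W t = ((2 * Y + 1 : ℕ) : ZMod (2 * j + 1)) ∧
      ∃ s, NatForm Y (inf^[Y + 1] ((TT ^ s) u).1) ((TT ^ t) W).1 3) := by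
  have hW' : W.1 = iy (Y + 1) u.1 (lf (dl i 0)) := by rw [iy_front, hW]
  have hs := size_iy u 0 Y W hW'
  have hj : 1 ≤ j := by omega
  refine ⟨?_, ?_, ?_⟩
  · obtain ⟨t, h1, h2⟩ := nat_phase hj u 0 Y W hW' 0 2
    refine ⟨t, ?_, t, form_front _ Y _ h2⟩
    rw [h1, add_zero, ZMod.val_zero]
    push_cast
    ring
  · obtain ⟨t, h1, h2⟩ := nat_phase hj u 0 Y W hW' 1 2
    refine ⟨t, ?_, t, form_back _ Y _ h2⟩
    rw [h1, zero_add, val_one' hi]
    push_cast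
    ring
  · obtain ⟨t, h1, h2⟩ := nat_phase hj u 0 Y W hW' (-1) (2 + 2 * ((pkn u.1 + 1 : ℕ) : ZMod (2 * j + 1)))
    refine ⟨t, ?_, t, form_f1 hi _ Y _ h2⟩
    rw [h1, zero_add, val_neg_one']
    have h0 : ((2 * j + 1 : ℕ) : ZMod (2 * j + 1)) = 0 := ZMod.natCast_self _
    have h3 : ((2 * j + 1 : ℕ) : ZMod (2 * j + 1)) =
        ((2 * (i + (Y + 1) * (pkn u.1 + 1)) + 1 : ℕ) : ZMod (2 * j + 1)) := by rw [← hs]
    rw [h3] at h0
    push_cast at h0 ⊢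
    linear_combination h0

/-- the natural times over `W = R' [Y + 1]` -/
theorem times_back (hi : 1 ≤ i) (u : X i) (Y : ℕ) (W : X j)
    (hW : W.1 = app (inf^[Y + 1] u.1) (pc Y △ .nil)) :
    (∃ t, sp W t = ((2 * (inf^[Y + 1] u.1).numNodes : ℕ) : ZMod (2 * j + 1)) ∧
      ∃ s, NatForm Y (inf^[Y + 1] ((TT ^ s) u).1) ((TT ^ t) W).1 0) ∧
    (∃ t, sp W t = ((2 * (inf^[Y + 1] u.1).numNodes + 1 : ℕ) : ZMod (2 * j + 1)) ∧
      ∃ s, NatForm Y (inf^[Y + 1] ((TT ^ s) u).1) ((TT ^ t) W).1 1) ∧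
    (∃ t, sp W t = ((2 * (inf^[Y + 1] u.1).numNodes + 1 : ℕ) : ZMod (2 * j + 1)) + 1 ∧
      ∃ s, NatForm Y (inf^[Y + 1] ((TT ^ s) u).1) ((TT ^ t) W).1 2) := by
  have hW' : W.1 = iy (Y + 1) u.1 (lf (dl i (-1))) := by rw [iy_back, hW]
  have hs := size_iy u (-1) Y W hW'
  have hj : 1 ≤ j := by omega
  have hn := inf_iter_num u.1 Y
  rw [X_num] at hn
  have hnn : ((2 * (inf^[Y + 1] u.1).numNodes : ℕ) : ZMod (2 * j + 1)) =
      ((2 * (i + (Y + 1) * pkn u.1) : ℕ) : ZMod (2 * j + 1)) := by rw [hn]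
  have h0 : ((2 * j + 1 : ℕ) : ZMod (2 * j + 1)) = 0 := ZMod.natCast_self _
  have h3 : ((2 * j + 1 : ℕ) : ZMod (2 * j + 1)) =
      ((2 * (i + (Y + 1) * (pkn u.1 + 1)) + 1 : ℕ) : ZMod (2 * j + 1)) := by rw [← hs]
  rw [h3] at h0
  refine ⟨?_, ?_, ?_⟩
  · obtain ⟨t, h1, h2⟩ := nat_phase hj u (-1) Y W hW' 0 (2 * ((pkn u.1 : ℕ) : ZMod (2 * j + 1)))
    refine ⟨t, ?_, t, form_front _ Y _ h2⟩
    rw [h1, add_zero, val_neg_one', hnn]
    push_cast
    ring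
  · obtain ⟨t, h1, h2⟩ := nat_phase hj u (-1) Y W hW' 1 (-2)
    refine ⟨t, ?_, t, form_back _ Y _ h2⟩
    rw [h1, neg_add_cancel, ZMod.val_zero, Nat.cast_succ (2 * (inf^[Y + 1] u.1).numNodes), hnn]
    push_cast at h0 ⊢
    linear_combination -h0
  · obtain ⟨t, h1, h2⟩ := nat_phase hj u (-1) Y W hW' 2 (-2)
    refine ⟨t, ?_, t, form_l1 hi _ Y _ h2⟩
    have h4 : (-1 + 2 : ZMod (2 * i + 1)) = 1 := by ring
    rw [h1, h4, val_one' hi, Nat.cast_succ (2 * (inf^[Y + 1] u.1).numNodes), hnn]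
    push_cast at h0 ⊢
    linear_combination -h0

/-! ### The four theorems -/

theorem nat_front (hi : 1 ≤ i) (u : X i) (Y : ℕ) {p q : Cyc k} (h : HopC p q) {w : X k}
    (hw : w.1 = pc (Y + 1) △ (.nil △ inf^[Y + 2] u.1)) (hp : cyc w = p) :
    ∃ (j : ℕ) (r : X j) (s : ℕ), EData p q j r (fun _ => 0) ∧
      (NatForm Y (inf^[Y + 1] ((TT ^ s) u).1) r.1 0 ∨
        NatForm Y (inf^[Y + 1] ((TT ^ s) u).1) r.1 1) := by
  obtain ⟨j, W, hW⟩ : ∃ (j : ℕ) (W : X j), W.1 = pc Y △ inf^[Y + 1] u.1 :=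
    ⟨_, ⟨_, mem_treesOfNumNodesEq.2 rfl⟩, rfl⟩
  have hj : j = Y + (inf^[Y + 1] u.1).numNodes + 1 := by
    have := X_num W
    rw [hW] at this
    change (pc Y).numNodes + (inf^[Y + 1] u.1).numNodes + 1 = j at this
    rw [pc_num] at this
    omega
  have h5 := word5 Y (inf^[Y + 1] u.1) hj
  rw [← hW, ← Function.iterate_succ_apply' inf, ← hw] at h5
  obtain ⟨l, hl, hE⟩ := hop_one (by omega) W _ h h5.symm hp
  obtain ⟨⟨t0, a0, s0, b0⟩, ⟨t1, a1, s1, b1⟩, _⟩ := times_front hi u Y W hW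
  rcases hl with rfl | rfl
  · exact ⟨j, _, s0, hE t0 a0, Or.inl b0⟩
  · exact ⟨j, _, s1, hE t1 a1, Or.inr b1⟩

theorem nat_outer (hi : 1 ≤ i) (u : X i) (Y : ℕ) {p q : Cyc k} (h : HopC p q) {w : X k}
    (hw : w.1 = app (pc (Y + 1)) (.nil △ .nil) △ inf^[Y + 2] u.1) (hp : cyc w = p) :
    ∃ (j : ℕ) (r : X j) (s : ℕ), EData p q j r (fun _ => 0) ∧
      (NatForm Y (inf^[Y + 1] ((TT ^ s) u).1) r.1 0 ∨
        NatForm Y (inf^[Y + 1] ((TT ^ s) u).1) r.1 3) := by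
  obtain ⟨j, W, hW⟩ : ∃ (j : ℕ) (W : X j), W.1 = pc Y △ inf^[Y + 1] u.1 :=
    ⟨_, ⟨_, mem_treesOfNumNodesEq.2 rfl⟩, rfl⟩
  have hj : j = Y + (inf^[Y + 1] u.1).numNodes + 1 := by
    have := X_num W
    rw [hW] at this
    change (pc Y).numNodes + (inf^[Y + 1] u.1).numNodes + 1 = j at this
    rw [pc_num] at this
    omega
  have h5 := word4 Y (inf^[Y + 1] u.1) hj
  rw [← hW, ← Function.iterate_succ_apply' inf, ← hw] at h5
  obtain ⟨l, hl, hE⟩ := hop_one (by omega) W _ h h5.symm hp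
  obtain ⟨⟨t0, a0, s0, b0⟩, _, ⟨t1, a1, s1, b1⟩⟩ := times_front hi u Y W hW
  rcases hl with rfl | rfl
  · exact ⟨j, _, s1, hE t1 a1, Or.inr b1⟩
  · exact ⟨j, _, s0, hE t0 (by rw [a0]; push_cast; ring), Or.inl b0⟩

theorem nat_front' (hi : 1 ≤ i) (u : X i) (Y : ℕ) {p q : Cyc k} (h : HopC p q) {w : X k}
    (hw : w.1 = app (inf^[Y + 2] u.1) (.nil △ (pc (Y + 1) △ .nil))) (hp : cyc w = p) :
    ∃ (j : ℕ) (r : X j) (s : ℕ), EData p q j r (fun _ => 0) ∧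
      (NatForm Y (inf^[Y + 1] ((TT ^ s) u).1) r.1 0 ∨
        NatForm Y (inf^[Y + 1] ((TT ^ s) u).1) r.1 1) := by
  obtain ⟨j, W, hW⟩ : ∃ (j : ℕ) (W : X j), W.1 = app (inf^[Y + 1] u.1) (pc Y △ .nil) :=
    ⟨_, ⟨_, mem_treesOfNumNodesEq.2 rfl⟩, rfl⟩
  have hj : j = Y + (inf^[Y + 1] u.1).numNodes + 1 := by
    have := X_num W
    rw [hW, num_app] at this
    change (inf^[Y + 1] u.1).numNodes + ((pc Y).numNodes + 0 + 1) = j at this
    rw [pc_num] at this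
    omega
  have h5 := word5' Y (inf^[Y + 1] u.1) hj
  rw [← hW, ← Function.iterate_succ_apply' inf, ← hw] at h5
  obtain ⟨l, hl, hE⟩ := hop_one (by omega) W _ h h5.symm hp
  obtain ⟨⟨t0, a0, s0, b0⟩, ⟨t1, a1, s1, b1⟩, _⟩ := times_back hi u Y W hW
  rcases hl with rfl | rfl
  · exact ⟨j, _, s0, hE t0 a0, Or.inl b0⟩
  · exact ⟨j, _, s1, hE t1 (by rw [a1]; push_cast; ring), Or.inr b1⟩

theorem nat_outer' (hi : 1 ≤ i) (u : X i) (Y : ℕ) {p q : Cyc k} (h : HopC p q) {w : X k}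
    (hw : w.1 = app (inf^[Y + 2] u.1) ((.nil △ pc (Y + 1)) △ .nil)) (hp : cyc w = p) :
    ∃ (j : ℕ) (r : X j) (s : ℕ), EData p q j r (fun _ => 0) ∧
      (NatForm Y (inf^[Y + 1] ((TT ^ s) u).1) r.1 1 ∨
        NatForm Y (inf^[Y + 1] ((TT ^ s) u).1) r.1 2) := by
  obtain ⟨j, W, hW⟩ : ∃ (j : ℕ) (W : X j), W.1 = app (inf^[Y + 1] u.1) (pc Y △ .nil) :=
    ⟨_, ⟨_, mem_treesOfNumNodesEq.2 rfl⟩, rfl⟩
  have hj : j = Y + (inf^[Y + 1] u.1).numNodes + 1 := by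
    have := X_num W
    rw [hW, num_app] at this
    change (inf^[Y + 1] u.1).numNodes + ((pc Y).numNodes + 0 + 1) = j at this
    rw [pc_num] at this
    omega
  have h5 := word4' Y (inf^[Y + 1] u.1) hj
  rw [← hW, ← Function.iterate_succ_apply' inf, ← hw] at h5
  obtain ⟨l, hl, hE⟩ := hop_one (by omega) W _ h h5.symm hp
  obtain ⟨_, ⟨t0, a0, s0, b0⟩, ⟨t1, a1, s1, b1⟩⟩ := times_back hi u Y W hW
  rcases hl with rfl | rfl
  · exact ⟨j, _, s0, hE t0 a0, Or.inl b0⟩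
  · exact ⟨j, _, s1, hE t1 a1, Or.inr b1⟩

end Pool.OddHC
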