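import Pool.Agent.Work.MP_8f87b2_h17.Nat5

/-!
# Natural phases: general beads

`hop_gen` : the edges at a T-cycle with beads `a` over `W`, all phases.
`Res Y q β` : the letter `β` of the ring of `W` is natural for the letter `q` of the ring of `u` (`β = q + (Y + 1) z`).
`nat_edge` : at a natural letter there is a phase with the soliton in the gap `-d`.
-/

set_option autoImplicit false

namespace Pool.OddHC

open Finset BinaryTree Multiset Pool.OddHop

variable {i j k : ℕ}

/-- **THE EDGES AT A T-CYCLE**, all phases -/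
theorem hop_gen (hj : 1 ≤ j) (W : X j) (b : ZMod (2 * j + 1) → ℕ) {p q : Cyc k} (h : HopC p q) {w : X k}
    (hw : w.1 = ins W.1 (lf b)) (hp : cyc w = p) :
    ∃ (f : ZMod (2 * j + 1) → ℕ) (x : ZMod (2 * j + 1)), b = (fun z => f z + dl j x z) ∧
      ∃ l, (l = x ∨ l = x + 1) ∧ ∀ t, sp W t = l → EData p q j ((TT ^ t) W) (fun z => f (z + l)) := by
  obtain ⟨j', hj', u0, a, a', h1, h2, hop, hpa, hqa⟩ := h
  have hR : Rd (cyc w) = ⟨j, cyc W⟩ := Rd_ins (lf_length _) hw
  have hR' : Rd (cyc (phi u0 a h1)) = ⟨j', cyc u0⟩ := Rd_ins (lf_length a) rfl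
  have hR2 : Rd (cyc (phi u0 a' h2)) = ⟨j', cyc u0⟩ := Rd_ins (lf_length a') rfl
  rw [hp] at hR
  rw [hpa, hR] at hR'
  rw [hqa, ← hR'] at hR2
  have hjj : j = j' := congrArg Sigma.fst hR'
  subst hjj
  have hc : cyc W = cyc u0 := by simpa using hR'
  obtain ⟨m, hm⟩ := sameCycle_nat (cyc_eq.1 hc)
  subst hm
  have hpk : j + pkn W.1 + ∑ x, b x = k := by
    have h3 := (ins_num W.1 (lf b) (by rw [lf_length, X_num])).1
    rw [← hw, X_num, X_num, lf_sum] at h3
    omega
  have hse : ∀ a : ZMod (2 * j + 1) → ℕ, ∑ x, a (x - sp W m) = ∑ x, a x := by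
    intro a
    have := sum_shift a (-sp W m)
    simpa only [sub_eq_add_neg] using this
  have e1 : j + pkn W.1 + ∑ x, a (x - sp W m) = k := by
    rw [hse, ← pkn_pow W m]; exact h1
  have e2 : j + pkn W.1 + ∑ x, a' (x - sp W m) = k := by
    rw [hse, ← pkn_pow W m]; exact h2
  rw [cyc_pull W m a h1 e1] at hpa
  rw [cyc_pull W m a' h2 e2] at hqa
  have hd : w = phi W b hpk := Subtype.ext hw
  have hs := hp.trans hpa.symm
  rw [hd] at hs
  obtain ⟨i, hi, hfi⟩ := (same_iff W _ _ _ _).1 (cyc_eq.1 hs.symm)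
  -- the shift
  have hb : ∀ z, b z = a (z + sp W i - sp W m) := fun z => congrFun hfi z
  obtain ⟨f, x, hfx⟩ := hop_form hj hop
  have hmk : ∀ (t : ℕ) (g : ZMod (2 * j + 1) → ℕ), (∑ z, g z + 1 = ∑ z, b z) →
      (((∀ w w' : X k, w.1 = .nil △ ins ((TT ^ t) W).1 (lf g) →
        w'.1 = app (ins ((TT ^ t) W).1 (lf g)) (.nil △ .nil) →
          cyc w = p ∧ cyc w' = q) ∨
      (∀ w w' : X k, w.1 = .nil △ ins ((TT ^ t) W).1 (lf g) →
        w'.1 = app (ins ((TT ^ t) W).1 (lf g)) (.nil △ .nil) →
          cyc w = q ∧ cyc w' = p))) → EData p q j ((TT ^ t) W) g := by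
    intro t g hg h3
    have hct : cyc W = cyc ((TT ^ t) W) := cyc_eq.2 ⟨(t : ℤ), by rw [zpow_natCast]⟩
    refine ⟨hj, ?_, by rw [hR, hct], by rw [hR2, hct], h3⟩
    rw [pkn_pow, hg]
    exact hpk
  -- transport of the common part
  obtain ⟨s, hs0⟩ : ∃ s, s = sp W i - sp W m := ⟨_, rfl⟩
  have hb' : ∀ z, b z = a (z + s) := by
    intro z
    rw [hb, hs0]
    congr 1
    ring
  have hsum : ∀ (y : ZMod (2 * j + 1)), a = (fun z => f z + if z = y then 1 else 0) →
      ∑ z, f z + 1 = ∑ z, b z := by
    intro y hay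
    have h3 : ∑ z, b z = ∑ z, a z := by
      rw [← sum_shift a s]
      exact sum_congr rfl fun z _ => hb' z
    rw [h3, hay, sum_add_distrib, Finset.sum_ite_eq' univ y (fun _ => 1), if_pos (mem_univ _)]
  have hsz : ∀ (x : ZMod (2 * j + 1)), (∑ z, f z + 1 = ∑ z, b z) → j + pkn W.1 +
      ∑ z, ((fun z => f (z - sp W m)) z + if z = x then 1 else 0) = k := by
    intro x hx
    rw [sum_add_distrib, Finset.sum_ite_eq' univ x (fun _ => 1), if_pos (mem_univ _), hse, hx]
    exact hpk
  have hshift : ∀ (t : ℕ) (l y : ZMod (2 * j + 1)), sp W t = l → y = l + sp W i →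
      (fun z => (fun z => f (z - sp W m)) (z + y)) = fun z => f (z + l + s) := by
    intro t l y ht hy
    funext z
    change f (z + y - sp W m) = f (z + l + s)
    congr 1
    rw [hy, hs0]
    ring
  rcases hfx with ⟨ha, ha'⟩ | ⟨ha', ha⟩
  · -- `p` at `x`, `q` at `x + 1`
    refine ⟨fun z => f (z + s), x - s, ?_, x - s + 1, Or.inr rfl, fun t ht => ?_⟩
    · funext z
      rw [hb', ha]
      unfold dl
      have : (z + s = x) ↔ z = x - s := by
        constructor
        · intro h; linear_combination h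
        · rintro rfl; ring
      simp only [this]
    · apply hmk t
      · have h3 := hsum x ha
        rw [← h3]
        congr 1
        have h4 : ∀ c : ZMod (2 * j + 1), ∑ z, f (z + c) = ∑ z, f z := fun c => sum_shift f c
        rw [← h4 (x - s + 1 + s)]
        apply sum_congr rfl
        intro z _
        congr 1
        ring
      · right
        intro w1 w2 hw1 hw2
        have h6 := hshift t (x - s + 1) (x + sp W m + 1) ht (by rw [hs0]; ring)
        have h5 := star_hop_any W (fun z => f (z - sp W m)) (x + sp W m) (hsz _ (hsum x ha))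
          (hsz _ (hsum x ha)) (i := i + t)
          (by rw [(sp_fix W hi t).1, ht, hs0]; ring) (w := w1) (w' := w2)
          (by rw [(sp_fix W hi t).2, h6]; exact hw1) (by rw [(sp_fix W hi t).2, h6]; exact hw2)
        refine ⟨h5.1.trans ?_, h5.2.trans ?_⟩
        · rw [← hqa]
          congr 1
          apply phi_congr rfl
          funext z
          rw [ha']
          have : (z - sp W m = x + 1) ↔ (z = x + sp W m + 1) := by
            constructor
            · intro h; linear_combination h
            · rintro rfl; ring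
          simp only [this]
        · rw [← hpa]
          congr 1
          apply phi_congr rfl
          funext z
          rw [ha]
          have : (z - sp W m = x) ↔ (z = x + sp W m) := by
            constructor
            · intro h; linear_combination h
            · rintro rfl; ring
          simp only [this]
  · -- `q` at `x`, `p` at `x + 1`
    refine ⟨fun z => f (z + s), x + 1 - s, ?_, x + 1 - s, Or.inl rfl, fun t ht => ?_⟩
    · funext z
      rw [hb', ha]
      unfold dl
      have : (z + s = x + 1) ↔ z = x + 1 - s := by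
        constructor
        · intro h; linear_combination h
        · rintro rfl; ring
      simp only [this]
    · apply hmk t
      · have h3 := hsum (x + 1) ha
        rw [← h3]
        congr 1
        have h4 : ∀ c : ZMod (2 * j + 1), ∑ z, f (z + c) = ∑ z, f z := fun c => sum_shift f c
        rw [← h4 (x + 1 - s + s)]
        apply sum_congr rfl
        intro z _
        congr 1
        ring
      · left
        intro w1 w2 hw1 hw2
        have h6 := hshift t (x + 1 - s) (x + sp W m + 1) ht (by rw [hs0]; ring)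
        have h5 := star_hop_any W (fun z => f (z - sp W m)) (x + sp W m) (hsz _ (hsum (x + 1) ha))
          (hsz _ (hsum (x + 1) ha)) (i := i + t)
          (by rw [(sp_fix W hi t).1, ht, hs0]; ring) (w := w1) (w' := w2)
          (by rw [(sp_fix W hi t).2, h6]; exact hw1) (by rw [(sp_fix W hi t).2, h6]; exact hw2)
        refine ⟨h5.1.trans ?_, h5.2.trans ?_⟩
        · rw [← hpa]
          congr 1
          apply phi_congr rfl
          funext z
          rw [ha]
          have : (z - sp W m = x + 1) ↔ (z = x + sp W m + 1) := by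
            constructor
            · intro h; linear_combination h
            · rintro rfl; ring
          simp only [this]
        · rw [← hqa]
          congr 1
          apply phi_congr rfl
          funext z
          rw [ha']
          have : (z - sp W m = x) ↔ (z = x + sp W m) := by
            constructor
            · intro h; linear_combination h
            · rintro rfl; ring
          simp only [this]

/-! ### Residues -/

/-- the letter `β` of the ring of `W` is natural for the letter `q` of the ring of `u` -/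
def Res (Y : ℕ) (q : ZMod (2 * i + 1)) (β : ZMod (2 * j + 1)) : Prop :=
  ∃ z : ZMod (2 * j + 1), β = (q.val : ZMod (2 * j + 1)) + ((Y + 1 : ℕ) : ZMod (2 * j + 1)) * z

theorem Res.succ {Y n : ℕ} (hj : j = i + (Y + 1) * n) {q : ZMod (2 * i + 1)} {β : ZMod (2 * j + 1)}
    (h : Res Y q β) : Res Y (q + 1) (β + 1) := by
  obtain ⟨z, hz⟩ := h
  have h0 : ((2 * j + 1 : ℕ) : ZMod (2 * j + 1)) = 0 := ZMod.natCast_self _
  have h3 : ((2 * j + 1 : ℕ) : ZMod (2 * j + 1)) = ((2 * (i + (Y + 1) * n) + 1 : ℕ) : ZMod (2 * j + 1)) := by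
    rw [← hj]
  rw [h3] at h0
  have hq : ((q.val : ℕ) : ZMod (2 * i + 1)) = q := ZMod.natCast_zmod_val q
  have hlt : q.val < 2 * i + 1 := ZMod.val_lt q
  have e1 : q + 1 = ((q.val + 1 : ℕ) : ZMod (2 * i + 1)) := by
    rw [Nat.cast_succ, hq]
  rcases Nat.lt_or_ge (q.val + 1) (2 * i + 1) with h1 | h1
  · refine ⟨z, ?_⟩
    rw [e1, ZMod.val_natCast_of_lt h1, hz]
    push_cast
    ring
  · have h2 : q.val + 1 = 2 * i + 1 := by omega
    refine ⟨z - 2 * (n : ZMod (2 * j + 1)), ?_⟩
    have h4 : q + 1 = 0 := by rw [e1, h2]; exact ZMod.natCast_self _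
    have h5 : (q.val : ZMod (2 * j + 1)) = ((2 * i : ℕ) : ZMod (2 * j + 1)) := by
      congr 1
      omega
    rw [h4, ZMod.val_zero, hz, h5]
    push_cast at h0 ⊢
    linear_combination h0

theorem Res.pred {Y n : ℕ} (hj : j = i + (Y + 1) * n) {q : ZMod (2 * i + 1)} {β : ZMod (2 * j + 1)}
    (h : Res Y q β) : Res Y (q - 1) (β - 1) := by
  have key : ∀ m : ℕ, Res Y (q + (m : ZMod (2 * i + 1))) (β + (m : ZMod (2 * j + 1))) := by
    intro m
    induction m with
    | zero => simpa using h
    | succ m ih =>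
      have := ih.succ hj
      rw [Nat.cast_succ, Nat.cast_succ, ← add_assoc, ← add_assoc]
      exact this
  -- `m = (2 i + 1) (2 j + 1) - 1`
  obtain ⟨m, hm⟩ : ∃ m, m + 1 = (2 * i + 1) * (2 * j + 1) := by
    have h2 : 0 < (2 * i + 1) * (2 * j + 1) := Nat.mul_pos (Nat.succ_pos _) (Nat.succ_pos _)
    exact ⟨(2 * i + 1) * (2 * j + 1) - 1, Nat.sub_add_cancel h2⟩
  have h1 := key m
  have e1 : ((m : ℕ) : ZMod (2 * i + 1)) = -1 := by
    have h2 : ((m + 1 : ℕ) : ZMod (2 * i + 1)) = 0 := by
      rw [hm, Nat.cast_mul, ZMod.natCast_self, zero_mul]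
    push_cast at h2
    linear_combination h2
  have e2 : ((m : ℕ) : ZMod (2 * j + 1)) = -1 := by
    have h2 : ((m + 1 : ℕ) : ZMod (2 * j + 1)) = 0 := by
      rw [hm, Nat.cast_mul, ZMod.natCast_self, mul_zero]
    push_cast at h2
    linear_combination h2
  rw [e1, e2] at h1
  rw [sub_eq_add_neg, sub_eq_add_neg]
  exact h1

theorem Res.add {Y : ℕ} {q : ZMod (2 * i + 1)} {β : ZMod (2 * j + 1)} (h : Res Y q β)
    (z : ZMod (2 * j + 1)) : Res Y q (β + ((Y + 1 : ℕ) : ZMod (2 * j + 1)) * z) := by
  obtain ⟨z0, h0⟩ := h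
  exact ⟨z0 + z, by rw [h0]; ring⟩

/-- a natural letter has a phase with the soliton in the gap `-d` -/
theorem nat_time (hj : 1 ≤ j) (u : X i) (x0 : ZMod (2 * i + 1)) (Y : ℕ) (W : X j)
    (hW : W.1 = iy (Y + 1) u.1 (lf (dl i x0))) {d : ZMod (2 * i + 1)} {l : ZMod (2 * j + 1)}
    (h : Res Y (x0 + d) l) :
    ∃ t, sp W t = l ∧ ((TT ^ t) W).1 = iy (Y + 1) ((TT ^ t) u).1 (lf (dl i (-d))) := by
  obtain ⟨z, hz⟩ := h
  obtain ⟨t, h1, h2⟩ := nat_phase hj u x0 Y W hW d z
  exact ⟨t, h1.trans hz.symm, h2⟩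

end Pool.OddHC
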