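import Pool.Agent.Work.MP_8f87b2_h17.Nat6
import Pool.Agent.Work.MP_8f87b2_h60.A0Gad
import Pool.Agent.Work.MP_8f87b2_mid.Types

/-!
# Mirror images of hop pairs and E data
-/

set_option autoImplicit false

namespace Pool.OddHC

namespace HN

open Finset BinaryTree Multiset Pool.OddHop

variable {i j k : ℕ}

theorem lv_snoc (m : ℕ) : app (lv m .nil) ((.nil : BinaryTree Unit) △ .nil) = lv (m + 1) .nil := by
  induction m with
  | zero => rfl
  | succ m ih =>
    change .nil △ app (lv m .nil) (.nil △ .nil) = _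
    rw [ih]
    rfl

theorem mir_lv (m : ℕ) (X : BinaryTree Unit) : Tsq.mir (lv m X) = app (Tsq.mir X) (lv m .nil) := by
  induction m with
  | zero => rw [lv, lv, app_nil']
  | succ m ih =>
    rw [lv, Tsq.mir_node, ih, app_assoc']
    congr 1
    exact lv_snoc m

theorem mir_ne {t : BinaryTree Unit} (h : t ≠ .nil) : Tsq.mir t ≠ .nil := by
  intro h0
  apply h
  rw [← Tsq.mir_mir t, h0]
  rfl

theorem bump_rev (A : BinaryTree Unit) (a : List ℕ) (ha : a.length = 2 * A.numNodes + 1) :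
    bump (Tsq.mir A) a.reverse = (bump A a).reverse := by
  cases A with
  | nil =>
    obtain ⟨x, rfl⟩ : ∃ x, a = [x] := List.length_eq_one_iff.1 (by simpa using ha)
    rfl
  | node _ A₁ A₂ =>
    have h1 : Tsq.mir (A₁ △ A₂) ≠ .nil := mir_ne (by simp)
    cases h : Tsq.mir (A₁ △ A₂) with
    | nil => exact absurd h h1
    | node _ B₁ B₂ => rfl

theorem bump_length (A : BinaryTree Unit) (a : List ℕ) (ha : a ≠ []) : (bump A a).length = a.length := by
  cases A with
  | nil =>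
    cases a with
    | nil => exact absurd rfl ha
    | cons x a => rfl
  | node _ A₁ A₂ => rfl

theorem ins_comp (C : BinaryTree Unit) (a : List ℕ) (n m : ℕ) (ha : a.length = 2 * C.numNodes + 1) :
    ins (C △ .nil) (m :: (a ++ [n])) = lv m (ins C (bump C a) △ lv n .nil) := by
  have h1 : (m :: (a ++ [n])).tail.take (2 * C.numNodes + 1) = a := List.take_left' ha
  have h2 : (m :: (a ++ [n])).drop (2 * C.numNodes + 2) = [n] := List.drop_left' ha
  rw [ins, h1, h2]
  rfl

/-- mirror image of an inflated word -/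
theorem mir_ins : ∀ (t : BinaryTree Unit) (e : List ℕ), e.length = 2 * t.numNodes + 1 →
    Tsq.mir (ins t e) = ins (Tsq.mir t) e.reverse := by
  intro t
  induction t with
  | nil =>
    intro e he
    obtain ⟨x, rfl⟩ : ∃ x, e = [x] := List.length_eq_one_iff.1 (by simpa using he)
    change Tsq.mir (lv x .nil) = lv x .nil
    rw [mir_lv]
    rfl
  | node _ A B ihA ihB =>
    intro e he
    obtain ⟨n, a, b, h1, h2, h3, h4, h5⟩ := split_e he
    have e0 : (BinaryTree.node () A B) = A △ B := rfl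
    rw [e0, ins, h4, h5, mir_lv, Tsq.mir_node, Tsq.mir_node, ihB b h3, ihA _ (by
      rw [bump_length A a (by rintro rfl; simp at h2), h2]), h1]
    have e1 : (n :: (a ++ b)).reverse = b.reverse ++ (a.reverse ++ [n]) := by simp
    rw [e1, ins_app _ _ _ _ (by rw [List.length_reverse, Tsq.mir_num]; exact h3)]
    rw [app_assoc']
    congr 1
    have h6 : a.reverse.length = 2 * (Tsq.mir A).numNodes + 1 := by
      rw [List.length_reverse, Tsq.mir_num]
      exact h2
    rw [ins_comp _ _ _ _ h6, bump_rev A a h2]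
    rfl

theorem lf_rev {N : ℕ} [NeZero N] (F : ZMod N → ℕ) :
    (lf F).reverse = lf (fun z => F (-1 - z)) := by
  apply List.ext_getElem
  · rw [List.length_reverse, lf_length, lf_length]
  · intro i h1 h2
    rw [List.length_reverse, lf_length] at h1
    rw [List.getElem_reverse, lf_getElem, lf_getElem, lf_length]
    congr 1
    have h3 : N - 1 - i + (1 + i) = N := by omega
    have h4 : (((N - 1 - i + (1 + i) : ℕ)) : ZMod N) = 0 := by
      rw [h3]
      exact ZMod.natCast_self N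
    push_cast at h4
    linear_combination h4

theorem mir_ins_lf (u : X j) (F : ZMod (2 * j + 1) → ℕ) :
    Tsq.mir (ins u.1 (lf F)) = ins (Tsq.mirX u).1 (lf (fun z => F (-1 - z))) := by
  rw [mir_ins _ _ (by rw [lf_length, X_num]), lf_rev]
  rfl

theorem pkn_mir (u : X j) : pkn (Tsq.mirX u).1 = pkn u.1 := by
  change pkn (Tsq.mir u.1) = pkn u.1
  have h1 := (ins_num u.1 (List.replicate (2 * u.1.numNodes + 1) 0) List.length_replicate).1
  have h2 := (ins_num (Tsq.mir u.1) (List.replicate (2 * u.1.numNodes + 1) 0)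
    (by rw [List.length_replicate, Tsq.mir_num])).1
  have h3 := mir_ins u.1 (List.replicate (2 * u.1.numNodes + 1) 0) List.length_replicate
  rw [List.reverse_replicate] at h3
  rw [← h3, Tsq.mir_num, Tsq.mir_num] at h2
  omega

theorem sum_neg (F : ZMod (2 * j + 1) → ℕ) : ∑ z, F (-1 - z) = ∑ z, F z :=
  Fintype.sum_equiv (Equiv.subLeft (-1)) _ _ (fun _ => rfl)

/-- the mirror of a cycle -/
noncomputable def mc : Cyc k → Cyc k :=
  Quotient.lift (fun w => cyc (Tsq.mirX w)) fun _ _ h => cyc_eq.2 (HM.same_mir h)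

theorem mc_cyc (w : X k) : mc (cyc w) = cyc (Tsq.mirX w) := rfl

theorem mc_mc (p : Cyc k) : mc (mc p) = p := by
  induction p using Quotient.inductionOn with
  | h w =>
    change cyc (Tsq.mirX (Tsq.mirX w)) = cyc w
    rw [HM.mirX_mirX]

theorem mc_inj {p q : Cyc k} (h : mc p = mc q) : p = q := by rw [← mc_mc p, h, mc_mc]

theorem hop_neg {a a' : ZMod (2 * j + 1) → ℕ} (h : Hop a a') :
    Hop (fun z => a (-1 - z)) (fun z => a' (-1 - z)) := by
  obtain ⟨x, y, hxy, hz⟩ := h
  refine ⟨-1 - x, -1 - y, ?_, fun z => ?_⟩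
  · rcases hxy with rfl | rfl
    · right; ring
    · left; ring
  · have h1 := hz (-1 - z)
    have e1 : (-1 - x = z) ↔ (x = -1 - z) := by
      constructor
      · intro h; linear_combination -h
      · intro h; linear_combination -h
    have e2 : (-1 - y = z) ↔ (y = -1 - z) := by
      constructor
      · intro h; linear_combination -h
      · intro h; linear_combination -h
    simp only [e1, e2]
    exact h1

/-- **mirror of a hop pair** -/
theorem hopC_mir {p q : Cyc k} (h : HopC p q) : HopC (mc p) (mc q) := by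
  obtain ⟨j, hj, u0, a, a', h1, h2, hop, rfl, rfl⟩ := h
  have e : ∀ (a : ZMod (2 * j + 1) → ℕ) (h : j + pkn u0.1 + ∑ x, a x = k),
      ∃ h' : j + pkn (Tsq.mirX u0).1 + ∑ x, a (-1 - x) = k,
        cyc (phi (Tsq.mirX u0) (fun z => a (-1 - z)) h') = mc (cyc (phi u0 a h)) := by
    intro a h
    refine ⟨by rw [pkn_mir, sum_neg]; exact h, ?_⟩
    rw [mc_cyc]
    congr 1
    apply Subtype.ext
    change ins (Tsq.mirX u0).1 (lf _) = Tsq.mir (ins u0.1 (lf a))
    rw [mir_ins_lf]
  obtain ⟨g1, e1⟩ := e a h1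
  obtain ⟨g2, e2⟩ := e a' h2
  exact ⟨j, hj, Tsq.mirX u0, _, _, g1, g2, hop_neg hop, e1, e2⟩

theorem hopC_symm {p q : Cyc k} (h : HopC p q) : HopC q p := by
  obtain ⟨j, hj, u0, a, a', h1, h2, ⟨x, y, hxy, hz⟩, rfl, rfl⟩ := h
  exact ⟨j, hj, u0, a', a, h2, h1, ⟨y, x, hxy.symm, fun z => (hz z).symm⟩, rfl, rfl⟩

/-- a hop pair with the phase `X` -/
def PhX (p q : Cyc k) (Y : BinaryTree Unit) : Prop :=
  ∃ (j : ℕ) (r : X j) (f : ZMod (2 * j + 1) → ℕ), EData p q j r f ∧ Y = ins r.1 (lf f)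

theorem rd_mir {w : X k} {u : X j} {a : ZMod (2 * j + 1) → ℕ} (hw : w.1 = ins u.1 (lf a)) :
    Rd (mc (cyc w)) = ⟨j, cyc (Tsq.mirX u)⟩ := by
  rw [mc_cyc]
  refine Rd_ins (lf_length (fun z => a (-1 - z))) ?_
  rw [← mir_ins_lf, ← hw]
  rfl

theorem eData_mir {p q : Cyc k} {j : ℕ} {r : X j} {f : ZMod (2 * j + 1) → ℕ} (h : EData p q j r f) :
    EData (mc p) (mc q) j (Tsq.mirX r) (fun z => f (-1 - z)) := by
  have hw : ∀ w : X k, w.1 = .nil △ ins (Tsq.mirX r).1 (lf fun z => f (-1 - z)) →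
      (Tsq.mirX w).1 = app (ins r.1 (lf f)) (.nil △ .nil) := by
    intro w hw
    change Tsq.mir w.1 = _
    rw [hw, ← mir_ins_lf, Tsq.mir_node, Tsq.mir_mir]
    rfl
  have hw' : ∀ w : X k, w.1 = app (ins (Tsq.mirX r).1 (lf fun z => f (-1 - z))) (.nil △ .nil) →
      (Tsq.mirX w).1 = .nil △ ins r.1 (lf f) := by
    intro w hw
    change Tsq.mir w.1 = _
    rw [hw, ← mir_ins_lf, Tsq.mir_app, Tsq.mir_mir]
    rfl
  have hk : (ins r.1 (lf f)).numNodes + 1 = k := by
    have h1 := (ins_num r.1 (lf f) (by rw [lf_length, X_num])).1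
    rw [lf_sum, X_num] at h1
    have := h.size
    omega
  obtain ⟨a, b, c, ha, hb, hc⟩ := e_words hk
  have hRb : Rd (mc (cyc b)) = ⟨j, cyc (Tsq.mirX r)⟩ := rd_mir (hb.trans (ins_back r f).symm)
  have hRc : Rd (mc (cyc c)) = ⟨j, cyc (Tsq.mirX r)⟩ := rd_mir (hc.trans (ins_front r f).symm)
  refine ⟨h.hj, by rw [pkn_mir, sum_neg]; exact h.size, ?_, ?_, ?_⟩
  · rcases h.words with h1 | h1
    · rw [← (h1 c b hc hb).1]; exact hRc
    · rw [← (h1 c b hc hb).2]; exact hRb
  · rcases h.words with h1 | h1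
    · rw [← (h1 c b hc hb).2]; exact hRb
    · rw [← (h1 c b hc hb).1]; exact hRc
  · rcases h.words with h1 | h1
    · right
      intro w w' g1 g2
      obtain ⟨h2, h3⟩ := h1 (Tsq.mirX w') (Tsq.mirX w) (hw' w' g2) (hw w g1)
      rw [← h2, ← h3, mc_cyc, mc_cyc, HM.mirX_mirX, HM.mirX_mirX]
      exact ⟨rfl, rfl⟩
    · left
      intro w w' g1 g2
      obtain ⟨h2, h3⟩ := h1 (Tsq.mirX w') (Tsq.mirX w) (hw' w' g2) (hw w g1)
      rw [← h2, ← h3, mc_cyc, mc_cyc, HM.mirX_mirX, HM.mirX_mirX]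
      exact ⟨rfl, rfl⟩

theorem PhX.mir {p q : Cyc k} {Y : BinaryTree Unit} (h : PhX p q Y) : PhX (mc p) (mc q) (Tsq.mir Y) := by
  obtain ⟨j, r, f, h1, h2⟩ := h
  exact ⟨j, _, _, eData_mir h1, by rw [h2, mir_ins_lf]⟩

end HN

end Pool.OddHC
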