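import Pool.Agent.Work.MP_8f87b2_h17.Nat7
import Pool.Agent.Work.MP_8f87b2_h71.NatHost

/-!
# Natural hop pairs with beads: the host is `NatX`
-/

set_option autoImplicit false

namespace Pool.OddHC

namespace HN

open Finset BinaryTree Multiset Pool.OddHop

variable {i j k : ℕ}

theorem natX_mir {p : ℕ} {Y : BinaryTree Unit} (h : H1.NatX p Y) : H1.NatX p (Tsq.mir Y) := by
  have hc : Tsq.mir (H1.ch p) = H1.ch p := by rw [H1.ch_eq, HM.mir_pc]
  cases h with
  | @fst V hV =>
    rw [Tsq.mir_app, hc]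
    exact .lst (mir_ne hV)
  | @lst V hV =>
    rw [Tsq.mir_app, hc]
    exact .fst (mir_ne hV)
  | @fst' V V' hV =>
    rw [Tsq.mir_node, Tsq.mir_app, hc]
    exact .lst' (mir_ne hV)
  | @lst' V V' hV =>
    rw [Tsq.mir_app, Tsq.mir_node, Tsq.mir_app, hc]
    exact .fst' (mir_ne hV)

theorem ins_ne {t : BinaryTree Unit} (h : t ≠ .nil) (e : List ℕ) : ins t e ≠ .nil := by
  cases t with
  | nil => exact absurd rfl h
  | node _ A B =>
    rw [ins]
    cases e.headD 0 with
    | zero => simp [lv]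
    | succ n => simp [lv]

theorem app_ne_right {A B : BinaryTree Unit} (h : B ≠ .nil) : app A B ≠ .nil := by
  cases A with
  | nil => exact h
  | node _ _ _ => simp [app]

/-- `n` beads at the end -/
theorem ins_end_n (A : BinaryTree Unit) (n : ℕ) :
    ins A (List.replicate (2 * A.numNodes) 0 ++ [n]) = app (inf A) (lv n .nil) := by
  have h1 := mir_ins (Tsq.mir A) (n :: List.replicate (2 * A.numNodes) 0)
    (by rw [List.length_cons, List.length_replicate, Tsq.mir_num])
  rw [ins_lv, mir_lv, Tsq.mir_mir, List.reverse_cons, List.reverse_replicate] at h1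
  rw [← h1]
  congr 1
  have h2 := mir_ins (Tsq.mir A) (0 :: List.replicate (2 * A.numNodes) 0)
    (by rw [List.length_cons, List.length_replicate, Tsq.mir_num])
  rw [Tsq.mir_mir] at h2
  rw [h2]
  have h3 : (0 :: List.replicate (2 * A.numNodes) 0 : List ℕ) = List.replicate (2 * A.numNodes + 1) 0 := rfl
  rw [h3, List.reverse_replicate]
  rfl

theorem list_split {e : List ℕ} {m : ℕ} (hm : m < e.length) (h : ∀ a < m, e.getD a 0 = 0) :
    ∃ n f, e = List.replicate m 0 ++ n :: f := by
  refine ⟨e.getD m 0, e.drop (m + 1), ?_⟩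
  apply List.ext_getElem
  · rw [List.length_append, List.length_cons, List.length_replicate, List.length_drop]
    omega
  · intro a h1 h2
    rcases lt_trichotomy a m with h3 | h3 | h3
    · have := h a h3
      rw [List.getD_eq_getElem _ _ h1] at this
      rw [List.getElem_append_left (by rw [List.length_replicate]; exact h3), this,
        List.getElem_replicate]
    · subst h3
      rw [List.getElem_append_right (by rw [List.length_replicate])]
      simp only [List.length_replicate, Nat.sub_self, List.getElem_cons_zero]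
      rw [List.getD_eq_getElem _ _ h1]
    · rw [List.getElem_append_right (by rw [List.length_replicate]; omega)]
      simp only [List.length_replicate]
      obtain ⟨b, hb⟩ : ∃ b, a - m = b + 1 := ⟨a - m - 1, by omega⟩
      simp only [hb, List.getElem_cons_succ, List.getElem_drop]
      congr 1
      omega

theorem front_list (Y : ℕ) {V : BinaryTree Unit} (hV : V ≠ .nil) {e : List ℕ}
    (he : e.length = 2 * (pc Y △ V).numNodes + 1) (h0 : ∀ a < 2 * Y + 2, e.getD a 0 = 0) :
    ∃ V', V' ≠ .nil ∧ ins (pc Y △ V) e = app (H1.ch (Y + 2)) V' := by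
  have hn : (pc Y △ V).numNodes = Y + V.numNodes + 1 := by
    change (pc Y).numNodes + V.numNodes + 1 = _
    rw [pc_num]
  obtain ⟨n, f, rfl⟩ := list_split (m := 2 * Y + 2) (by rw [he, hn]; omega) h0
  refine ⟨app (lv n .nil) (ins V (0 :: f)), app_ne_right (ins_ne hV _), ?_⟩
  have h1 : List.replicate (2 * Y + 2) 0 ++ n :: f =
      (List.replicate (2 * (pc (Y + 1)).numNodes) 0 ++ [n]) ++ f := by
    rw [pc_num, List.append_assoc]
    rfl
  have h2 : pc Y △ V = app (pc (Y + 1)) V := rfl
  rw [h1, h2, ins_app _ _ _ _ (by simp), ins_end_n, inf_pc (by omega), app_assoc', H1.ch_eq]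

theorem f1_list (Y : ℕ) {A B : BinaryTree Unit} (hA : A ≠ .nil) {e : List ℕ}
    (he : e.length = 2 * ((pc Y △ A) △ B).numNodes + 1) (h0 : ∀ a < 2 * Y + 3, e.getD a 0 = 0) :
    ∃ A' B', A' ≠ .nil ∧ ins ((pc Y △ A) △ B) e = app (H1.ch (Y + 2)) A' △ B' := by
  obtain ⟨n, a, b, h1, h2, h3, h4, h5⟩ := split_e he
  have hn : n = 0 := by
    have := h0 0 (by omega)
    rw [h1] at this
    exact this
  have hlen : 2 * Y + 2 < a.length := by
    rw [h2]
    change 2 * Y + 2 < 2 * ((pc Y).numNodes + A.numNodes + 1) + 1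
    rw [pc_num]
    have : A.numNodes ≠ 0 := by
      intro h
      cases A with
      | nil => exact hA rfl
      | node _ _ _ => simp at h
    omega
  have ha : ∀ x < 2 * Y + 2, a.getD x 0 = 0 := by
    intro x hx
    have := h0 (x + 1) (by omega)
    rw [h1, List.getD_cons_succ, List.getD_append _ _ _ _ (by omega)] at this
    exact this
  obtain ⟨A', h6, h7⟩ := front_list Y hA h2 ha
  refine ⟨A', ins B b, h6, ?_⟩
  have h8 : bump (pc Y △ A) a = a := rfl
  rw [ins, h4, h5, h1, List.headD_cons, hn, h8, h7]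
  rfl

theorem back_list (Y : ℕ) {V : BinaryTree Unit} (hV : V ≠ .nil) {e : List ℕ}
    (he : e.length = 2 * (app V (pc Y △ .nil)).numNodes + 1)
    (h0 : ∀ a < 2 * Y + 2, e.reverse.getD a 0 = 0) :
    H1.NatX (Y + 2) (ins (app V (pc Y △ .nil)) e) := by
  have h1 : Tsq.mir (app V (pc Y △ .nil)) = pc Y △ Tsq.mir V := by
    rw [Tsq.mir_app, Tsq.mir_node, HM.mir_pc]
    rfl
  have h2 := mir_ins (app V (pc Y △ .nil)) e he
  rw [h1] at h2
  obtain ⟨V', h3, h4⟩ := front_list Y (mir_ne hV) (e := e.reverse)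
    (by rw [List.length_reverse, he, ← h1, Tsq.mir_num]) h0
  rw [h4] at h2
  rw [← Tsq.mir_mir (ins (app V (pc Y △ .nil)) e), h2]
  exact natX_mir (.fst h3)

theorem l1_list (Y : ℕ) {P A : BinaryTree Unit} (hA : A ≠ .nil) {e : List ℕ}
    (he : e.length = 2 * (app P (app A (pc Y △ .nil) △ .nil)).numNodes + 1)
    (h0 : ∀ a < 2 * Y + 3, e.reverse.getD a 0 = 0) :
    H1.NatX (Y + 2) (ins (app P (app A (pc Y △ .nil) △ .nil)) e) := by
  have h1 : Tsq.mir (app P (app A (pc Y △ .nil) △ .nil)) = (pc Y △ Tsq.mir A) △ Tsq.mir P := by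
    rw [Tsq.mir_app, Tsq.mir_node, Tsq.mir_app, Tsq.mir_node, HM.mir_pc]
    rfl
  have h2 := mir_ins _ e he
  rw [h1] at h2
  obtain ⟨A', B', h3, h4⟩ := f1_list Y (mir_ne hA) (B := Tsq.mir P) (e := e.reverse)
    (by rw [List.length_reverse, he, ← h1, Tsq.mir_num]) h0
  rw [h4] at h2
  rw [← Tsq.mir_mir (ins (app P (app A (pc Y △ .nil) △ .nil)) e), h2]
  exact natX_mir (.fst' h3)

/-! ### Contents -/

theorem cont_iy (t : BinaryTree Unit) (e : List ℕ) (he : e.length = 2 * t.numNodes + 1) : ∀ Y : ℕ,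
    cont (iy (Y + 1) t e) = (cont t).map (· + (Y + 1)) + replicate e.sum (Y + 1) := by
  intro Y
  induction Y with
  | zero => exact cont_ins t e he
  | succ Y ih =>
    change cont (inf (iy (Y + 1) t e)) = _
    rw [cont_inf, ih, Multiset.map_add, Multiset.map_map, Multiset.map_replicate]
    congr 1

end HN

end Pool.OddHC
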