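import Pool.Agent.Work.MP_8f87b2_h17.Nat8

/-!
# Natural phases with beads: existence

`NatL` : the letter `l` is natural and the beads are away from the soliton.
`natL_nat`, `nat_gen` : a natural letter gives a natural phase (`PhX`, `NatC`).
-/

set_option autoImplicit false

namespace Pool.OddHC

namespace HN

open Finset BinaryTree Multiset Pool.OddHop

variable {i j k : ℕ}

/-- the letter `l` is natural, the beads `f` are away from the soliton -/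
def NatL (Y : ℕ) (x0 : ZMod (2 * i + 1)) (f : ZMod (2 * j + 1) → ℕ) (l : ZMod (2 * j + 1)) : Prop :=
  (Res Y (x0 + 0) l ∧ ∀ a : ℕ, a < 2 * Y + 2 → f (l + a) = 0) ∨
  (Res Y (x0 + 1) l ∧ ∀ a : ℕ, a < 2 * Y + 2 → f (l - 1 - a) = 0) ∨
  (Res Y (x0 + -1) l ∧ ∀ a : ℕ, a < 2 * Y + 3 → f (l + a) = 0) ∨
  (Res Y (x0 + 2) l ∧ ∀ a : ℕ, a < 2 * Y + 3 → f (l - 1 - a) = 0)

/-- natural host with its content -/
def NatC (p : ℕ) (X : BinaryTree Unit) : Prop :=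
  H1.NatX p X ∧ ∃ M : Multiset ℕ, cont X = p ::ₘ M ∧ ∀ x ∈ M, x = 1 ∨ p < x

theorem cont_mirror (t : BinaryTree Unit) : cont (Tsq.mir t) = cont t := HM.cont_mir t

theorem NatC.mir {p : ℕ} {X : BinaryTree Unit} (h : NatC p X) : NatC p (Tsq.mir X) := by
  obtain ⟨h1, M, h2, h3⟩ := h
  exact ⟨natX_mir h1, M, by rw [cont_mirror, h2], h3⟩

theorem natC_cont (u : X i) (x : ZMod (2 * i + 1)) (Y : ℕ) (r : X j)
    (hr : cont r.1 = cont (iy (Y + 1) u.1 (lf (dl i x)))) (e : List ℕ) (he : e.length = 2 * j + 1) :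
    ∃ M : Multiset ℕ, cont (ins r.1 e) = (Y + 2) ::ₘ M ∧ ∀ x ∈ M, x = 1 ∨ Y + 2 < x := by
  refine ⟨(cont u.1).map (· + (Y + 2)) + replicate e.sum 1, ?_, ?_⟩
  · rw [cont_ins _ _ (by rw [he, X_num]), hr, cont_iy _ _ (by rw [lf_length, X_num]), lf_sum, dl_sum,
      Multiset.map_add, Multiset.map_map, Multiset.map_replicate]
    have h1 : (replicate 1 (Y + 1 + 1) : Multiset ℕ) = {Y + 2} := rfl
    rw [h1, add_assoc, add_comm ({Y + 2} : Multiset ℕ), ← add_assoc, ← Multiset.singleton_add,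
      add_comm ({Y + 2} : Multiset ℕ)]
    congr 2
  · intro x hx
    rw [Multiset.mem_add] at hx
    rcases hx with hx | hx
    · right
      obtain ⟨y, hy, rfl⟩ := Multiset.mem_map.1 hx
      have := cont_pos u.1 y hy
      omega
    · left
      exact (Multiset.mem_replicate.1 hx).2

theorem lf_getD' {n : ℕ} [NeZero n] (b : ZMod n → ℕ) {a : ℕ} (ha : a < n) : (lf b).getD a 0 = b (a : ZMod n) := by
  rw [List.getD_eq_getElem _ _ (by rw [lf_length]; exact ha), lf_getElem]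

/-- **NATURAL PHASES** -/
theorem natL_nat (hi : 1 ≤ i) (hj : 1 ≤ j) (u : X i) (x0 : ZMod (2 * i + 1)) (Y : ℕ) (W : X j)
    (hW : W.1 = iy (Y + 1) u.1 (lf (dl i x0))) {p q : Cyc k} {f : ZMod (2 * j + 1) → ℕ}
    {l : ZMod (2 * j + 1)} (hE : ∀ t, sp W t = l → EData p q j ((TT ^ t) W) (fun z => f (z + l)))
    (h : NatL Y x0 f l) : ∃ X, PhX p q X ∧ NatC (Y + 2) X := by
  have hsz := size_iy u x0 Y W hW
  have hbig : 2 * Y + 3 < 2 * j + 1 := by
    have : Y + 1 ≤ (Y + 1) * (pkn u.1 + 1) := Nat.le_mul_of_pos_right _ (Nat.succ_pos _)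
    omega
  have hne : ∀ s : ℕ, inf^[Y + 1] ((TT ^ s) u).1 ≠ .nil := by
    intro s h0
    have h1 := inf_iter_num ((TT ^ s) u).1 Y
    rw [h0, X_num] at h1
    change 0 = _ at h1
    omega
  have hc : ∀ t : ℕ, cont ((TT ^ t) W).1 = cont (iy (Y + 1) u.1 (lf (dl i x0))) := by
    intro t
    rw [cont_pow, hW]
  -- the list of the beads
  have hfr : ∀ (m : ℕ), m < 2 * j + 1 → (∀ a : ℕ, a < m → f (l + a) = 0) →
      ∀ a < m, (lf (fun z => f (z + l))).getD a 0 = 0 := by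
    intro m hm h0 a ha
    rw [lf_getD' _ (by omega), add_comm]
    exact h0 a ha
  have hbk : ∀ (m : ℕ), m < 2 * j + 1 → (∀ a : ℕ, a < m → f (l - 1 - a) = 0) →
      ∀ a < m, (lf (fun z => f (z + l))).reverse.getD a 0 = 0 := by
    intro m hm h0 a ha
    rw [lf_rev, lf_getD' _ (by omega)]
    have e1 : (-1 - (a : ZMod (2 * j + 1)) + l) = l - 1 - a := by ring
    rw [e1]
    exact h0 a ha
  have hsumf : ∀ t, sp W t = l → ∃ M : Multiset ℕ,
      cont (ins ((TT ^ t) W).1 (lf fun z => f (z + l))) = (Y + 2) ::ₘ M ∧ ∀ x ∈ M, x = 1 ∨ Y + 2 < x :=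
    fun t _ => natC_cont u x0 Y _ (hc t) _ (lf_length _)
  rcases h with ⟨h1, h2⟩ | ⟨h1, h2⟩ | ⟨h1, h2⟩ | ⟨h1, h2⟩
  · obtain ⟨t, h3, h4⟩ := nat_time hj u x0 Y W hW h1
    rw [neg_zero, iy_front] at h4
    refine ⟨_, ⟨j, _, _, hE t h3, rfl⟩, ?_, hsumf t h3⟩
    rw [h4]
    obtain ⟨V', h5, h6⟩ := front_list Y (hne t) (e := lf (fun z => f (z + l)))
      (by rw [lf_length, ← h4, X_num]) (hfr _ (by omega) h2)
    rw [h6]
    exact .fst h5
  · obtain ⟨t, h3, h4⟩ := nat_time hj u x0 Y W hW h1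
    rw [iy_back] at h4
    refine ⟨_, ⟨j, _, _, hE t h3, rfl⟩, ?_, hsumf t h3⟩
    rw [h4]
    exact back_list Y (hne t) (e := lf (fun z => f (z + l)))
      (by rw [lf_length, ← h4, X_num]) (hbk _ (by omega) h2)
  · obtain ⟨t, h3, h4⟩ := nat_time hj u x0 Y W hW h1
    rw [neg_neg] at h4
    obtain ⟨A, B, g0, g1, g2⟩ := iy_f1 hi ((TT ^ t) u) Y
    rw [g2] at h4
    refine ⟨_, ⟨j, _, _, hE t h3, rfl⟩, ?_, hsumf t h3⟩
    rw [h4]
    obtain ⟨A', B', h5, h6⟩ := f1_list Y g0 (B := B) (e := lf (fun z => f (z + l)))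
      (by rw [lf_length, ← h4, X_num]) (hfr _ (by omega) h2)
    rw [h6]
    exact .fst' h5
  · obtain ⟨t, h3, h4⟩ := nat_time hj u x0 Y W hW h1
    obtain ⟨P, A, g0, g1, g2⟩ := iy_l1 hi ((TT ^ t) u) Y
    rw [g2] at h4
    refine ⟨_, ⟨j, _, _, hE t h3, rfl⟩, ?_, hsumf t h3⟩
    rw [h4]
    exact l1_list Y g0 (e := lf (fun z => f (z + l)))
      (by rw [lf_length, ← h4, X_num]) (hbk _ (by omega) h2)

/-- **THE GENERAL LEMMA** -/
theorem nat_gen (hi : 1 ≤ i) (hj : 1 ≤ j) (u : X i) (x0 : ZMod (2 * i + 1)) (Y : ℕ) (W : X j)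
    (hW : W.1 = iy (Y + 1) u.1 (lf (dl i x0))) (b : ZMod (2 * j + 1) → ℕ) {p q : Cyc k} (h : HopC p q)
    {w : X k} (hw : w.1 = ins W.1 (lf b)) (hp : cyc w = p)
    (hN : ∀ (f : ZMod (2 * j + 1) → ℕ) (x : ZMod (2 * j + 1)), b = (fun z => f z + dl j x z) →
      NatL Y x0 f x ∧ NatL Y x0 f (x + 1)) : ∃ X, PhX p q X ∧ NatC (Y + 2) X := by
  obtain ⟨f, x, hb, l, hl, hE⟩ := hop_gen hj W b h hw hp
  obtain ⟨h1, h2⟩ := hN f x hb
  rcases hl with rfl | rfl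
  · exact natL_nat hi hj u x0 Y W hW hE h1
  · exact natL_nat hi hj u x0 Y W hW hE h2

end HN

end Pool.OddHC
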