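import Pool.Agent.Work.MP_8f87b2_h17.TyJ2B
import Pool.Agent.Work.MP_8f87b2_h35.GadJBM
import Pool.Agent.Work.MP_8f87b2_h99.Ty9
import Pool.Agent.Work.MP_8f87b2_h60.A0Gad

/-!
# MP_8f87b2_co: type J2BM = the mirror image of J2B (helper35's `gadJBM`)

`TyJ2RM R B S F g` : the words are the mirror images of the words of J2B over `R`; group `{cyc (())R', cyc R'(())}`, `R' = mir R`;
arcs 11 > 1, 12 > 3, 15 > 6, 14 > 8. `TyJ2RM.mirr` : the bridge to `TyJ2R`.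
-/

set_option autoImplicit false

namespace Pool.OddHC

open Finset Equiv BinaryTree Pool.Agent.Work.MP_8f87b2_co

open J3

variable {k : ℕ} {F : Set (Cyc k)} {g : DG k} {R B S : BinaryTree Unit}

/-- the mirrored words -/
noncomputable def sZ (R B S : BinaryTree Unit) (w0 : X k) (i : ℕ) : X k := Tsq.mirX (sX R B S w0 i)

/-- TYPE J2BM with its phase -/
def TyJ2RM (R B S : BinaryTree Unit) (F : Set (Cyc k)) (g : DG k) : Prop :=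
  ∃ w0 : X k, SqD k R B S ∧ J2OK R B S w0 ∧
    F = {cyc (sZ R B S w0 0), cyc (sZ R B S w0 4)} ∧ g = gadJBM (sZ R B S w0)

/-- TYPE J2BM -/
def TyJ2BM (F : Set (Cyc k)) (g : DG k) : Prop := ∃ R B S : BinaryTree Unit, TyJ2RM R B S F g

namespace J2M

theorem mir2 (x : X k) : Tsq.mirX (Tsq.mirX x) = x := Subtype.ext (Tsq.mir_mir x.1)

theorem cyc_mir_iff {x y : X k} : cyc (Tsq.mirX x) = cyc (Tsq.mirX y) ↔ cyc x = cyc y := by
  constructor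
  · intro h
    have := cyc_mir h
    rwa [mir2, mir2] at this
  · exact cyc_mir

theorem same_mir {x y : X k} : TT.SameCycle (Tsq.mirX x) (Tsq.mirX y) ↔ TT.SameCycle x y := by
  rw [← cyc_eq, ← cyc_eq]
  exact cyc_mir_iff

theorem exc (c : Cyc k) : ∃ x : X k, cyc x = c := by
  induction c using Quotient.inductionOn with
  | h x => exact ⟨x, rfl⟩

end J2M

open J2M

theorem mem_gadJBM {w : ℕ → X k} {x : X k} : x ∈ (gadJBM w).B ↔ ∃ i < 20, w i = x := by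
  unfold gadJBM
  rw [mem_gadOf_B]
  constructor
  · rintro ⟨i, hi, e⟩
    exact ⟨i, (by decide : ∀ i ∈ ixJBM, i < 20) i hi, e⟩
  · rintro ⟨i, hi, e⟩
    refine ⟨i, ?_, e⟩
    interval_cases i <;> decide

theorem TyJ2RM.sqd (h : TyJ2RM R B S F g) : SqD k R B S := by
  obtain ⟨w0, h1, _⟩ := h
  exact h1

/-- **THE BRIDGE** -/
theorem TyJ2RM.mirr (h : TyJ2RM R B S F g) : ∃ (F0 : Set (Cyc k)) (g0 : DG k), TyJ2R R B S F0 g0 ∧
    (∀ x : X k, x ∈ g.B ↔ Tsq.mirX x ∈ g0.B) ∧ (∀ x : X k, cyc x ∈ F ↔ cyc (Tsq.mirX x) ∈ F0) ∧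
    (∀ p : X k × X k, p ∈ g.arcs → (Tsq.mirX p.2, Tsq.mirX p.1) ∈ g0.arcs) := by
  obtain ⟨w0, h1, hp, rfl, rfl⟩ := h
  refine ⟨_, _, ⟨w0, h1, hp, rfl, rfl⟩, ?_, ?_, ?_⟩
  · intro x
    rw [mem_gadJBM, mem_gadJB]
    constructor
    · rintro ⟨i, hi, rfl⟩
      exact ⟨i, hi, by rw [sZ, mir2]⟩
    · rintro ⟨i, hi, e⟩
      exact ⟨i, hi, by rw [sZ, e, mir2]⟩
  · intro x
    have e : ∀ i, cyc x = cyc (sZ R B S w0 i) ↔ cyc (Tsq.mirX x) = cyc (sX R B S w0 i) := by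
      intro i
      rw [sZ]
      constructor
      · intro e
        have := cyc_mir e
        rwa [mir2] at this
      · intro e
        have := cyc_mir e
        rwa [mir2] at this
    constructor
    · rintro (e1 | e1)
      · exact Or.inl ((e 0).1 e1)
      · exact Or.inr ((e 4).1 e1)
    · rintro (e1 | e1)
      · exact Or.inl ((e 0).2 e1)
      · exact Or.inr ((e 4).2 e1)
  · rintro p ⟨q, hq, rfl⟩
    have key : ∀ q ∈ arJBM, (q.2, q.1) ∈ arJB := by decide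
    exact ⟨_, key q hq, by simp only [sZ, mir2]⟩

theorem TyJ2RM.hF (h : TyJ2RM R B S F g) : ∀ w, w ∈ g.F ↔ cyc w ∈ F := by
  obtain ⟨w0, h1, hp, rfl, rfl⟩ := h
  intro w
  unfold gadJBM
  rw [mem_gadOf_F]
  constructor
  · rintro ⟨c, hc, hs⟩
    have hc' : c = 4 ∨ c = 0 := by simpa [sgJBM, prJBM] using hc
    rcases hc' with rfl | rfl
    · exact Or.inr (cyc_eq.2 hs).symm
    · exact Or.inl (cyc_eq.2 hs).symm
  · rintro (hs | hs)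
    · exact ⟨0, by simp [sgJBM, prJBM], cyc_eq.1 hs.symm⟩
    · exact ⟨4, by simp [sgJBM, prJBM], cyc_eq.1 hs.symm⟩

theorem TyJ2RM.new (h : TyJ2RM R B S F g) : ∀ c ∈ F, ∃ u ∈ g.B, cyc u = c := by
  obtain ⟨w0, h1, hp, rfl, rfl⟩ := h
  rintro c (rfl | rfl)
  · exact ⟨_, mem_gadJBM.2 ⟨0, by norm_num, rfl⟩, rfl⟩
  · exact ⟨_, mem_gadJBM.2 ⟨4, by norm_num, rfl⟩, rfl⟩

/-- the mirrored gadget absorbs -/
theorem TyJ2RM.abs (h : TyJ2RM R B S F g) : g.Abs := by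
  obtain ⟨w0, h, hp, rfl, rfl⟩ := h
  have e := h.num
  have es := h.size
  have n0 : (BinaryTree.nil : BinaryTree Unit).numNodes = 0 := rfl
  have hlt : ∀ i ∈ ixJBM, i < 20 := by decide
  refine gadJBM_abs (R := Tsq.mir R) (Q := .nil) (B := Tsq.mir B) (S := Tsq.mir S) ?_ ?_ ?_ ?_ ?_ ?_ ?_
  · rw [Tsq.mir_num]; omega
  · rw [Tsq.mir_num, Tsq.mir_num]; omega
  · intro i hi
    change Tsq.mir (sX R B S w0 i).1 = _
    rw [h.word w0 (hlt i hi), HM.mir_W _ _ _ _ (hlt i hi)]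
    rfl
  · intro i hi j hj e1
    exact h.inj2 hp i (hlt i hi) j (hlt j hj) (by
      have := congrArg Tsq.mirX e1
      simp only [sZ, mir2] at this
      exact this)
  · intro p hq
    obtain rfl : p = (0, 10) := by simpa [prJBM] using hq
    exact same_mir.2 (h.same w0 (i := 0) (j := 10) (by simp))
  · intro i hi j hj hs
    have hs := same_mir.1 hs
    have hi' : i = 4 ∨ i = 0 := by simpa [sgJBM, prJBM] using hi
    have hj' : j = 4 ∨ j = 0 := by simpa [sgJBM, prJBM] using hj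
    rcases hi' with rfl | rfl <;> rcases hj' with rfl | rfl
    · rfl
    · exact absurd (cyc_eq.2 hs) hp.n4
    · exact absurd (cyc_eq.2 hs).symm hp.n4
    · rfl
  · intro i hi j hj hs
    exact h.old2 hp i hi j hj (same_mir.1 hs)

/-- contents of the group -/
theorem TyJ2RM.contF (h : TyJ2RM R B S F g) : ∀ c ∈ F, contc c = OddHC.cont R + {2} := by
  obtain ⟨F0, g0, h0, _, hF, _⟩ := h.mirr
  intro c hc
  obtain ⟨x, rfl⟩ := exc c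
  have h1 := h0.contF _ ((hF x).1 hc)
  have e : contc (cyc (Tsq.mirX x)) = contc (cyc x) := HM.cont_mir x.1
  rw [e] at h1
  exact h1

theorem TyJ2RM.htp' (h : TyJ2RM R B S F g) : ∀ c ∈ F, htc c = OddHC.ht R := by
  intro c hc
  have h1 := h.contF c hc
  change (contc c).sup = _
  rw [h1, h.sqd.supz]

theorem TyJ2RM.htg (h : TyJ2RM R B S F g) : ∀ c ∈ F, ∀ d ∈ F, htc c = htc d := by
  intro c hc d hd
  rw [h.htp' c hc, h.htp' d hd]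

/-- all words -/
theorem TyJ2RM.words (h : TyJ2RM R B S F g) : ∀ w ∈ g.B, ∃ i < 20, w.1 = Tsq.mir (H1.W R .nil B S i) := by
  obtain ⟨w0, h1, hp, rfl, rfl⟩ := h
  intro w hw
  obtain ⟨i, hi, rfl⟩ := mem_gadJBM.1 hw
  exact ⟨i, hi, by rw [← h1.word w0 hi]; rfl⟩

/-- rank -/
theorem TyJ2RM.rank (h : TyJ2RM R B S F g) : ∀ w ∈ g.B, cyc w ∈ F ∨
    H1.Lower (contc (cyc w)) (OddHC.cont R + {2}) ∨
    (B = .nil ∧ w.1 = Tsq.mir (app S ((.nil △ .nil) △ .nil)) ∧ contc (cyc w) = OddHC.cont R + {2}) := by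
  obtain ⟨F0, g0, h0, hB, hF, _⟩ := h.mirr
  intro w hw
  have e : contc (cyc (Tsq.mirX w)) = contc (cyc w) := HM.cont_mir w.1
  rcases h0.rank _ ((hB w).1 hw) with h1 | h1 | ⟨h1, h2, h3⟩
  · exact Or.inl ((hF w).2 h1)
  · rw [e] at h1
    exact Or.inr (Or.inl h1)
  · rw [e] at h3
    refine Or.inr (Or.inr ⟨h1, ?_, h3⟩)
    rw [← h2]
    exact (Tsq.mir_mir w.1).symm

theorem TyJ2RM.old (h : TyJ2RM R B S F g) : ∃ u ∈ g.B, cyc u ∉ F := by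
  obtain ⟨F0, g0, h0, hB, hF, _⟩ := h.mirr
  obtain ⟨u, hu, hu'⟩ := h0.old
  refine ⟨Tsq.mirX u, (hB _).2 (by rw [mir2]; exact hu), ?_⟩
  intro e
  rw [hF, mir2] at e
  exact hu' e

theorem TyJ2RM.path (h : TyJ2RM R B S F g) : ∀ a ∈ g.arcs, ∃ n : ℕ, (TT ^ (n + 1)) a.1 = a.2 ∧ a.1 ∈ g.B ∧
    ∀ i < n, (TT ^ (i + 1)) a.1 ∈ innA a := by
  obtain ⟨w0, h1, hp, rfl, rfl⟩ := h
  intro p hq
  have hq' : ∃ q ∈ arJBM, p = (sZ R B S w0 q.1, sZ R B S w0 q.2) := hq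
  obtain ⟨q, hq1, rfl⟩ := hq'
  have h2 : q.1 < 20 ∧ (q.2, q.1) ∈ [(0, 10), (1, 11), (3, 12), (6, 15), (8, 14), (9, 17)] :=
    (by decide : ∀ q ∈ arJBM, q.1 < 20 ∧ (q.2, q.1) ∈ [(0, 10), (1, 11), (3, 12), (6, 15), (8, 14), (9, 17)]) q hq1
  refine ⟨1, ?_, mem_gadJBM.2 ⟨q.1, h2.1, rfl⟩, ?_⟩
  · rw [pow_succ, pow_one, Perm.mul_apply]
    exact Tsq.TT_mir2 (h1.link w0 h2.2)
  · intro n hn
    obtain rfl : n = 0 := by omega
    rw [pow_one]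
    rfl

/-! ### The same for `TyJ2BM` -/

theorem TyJ2BM.hF (h : TyJ2BM F g) : ∀ w, w ∈ g.F ↔ cyc w ∈ F := by
  obtain ⟨R, B, S, h⟩ := h
  exact h.hF

theorem TyJ2BM.new (h : TyJ2BM F g) : ∀ c ∈ F, ∃ u ∈ g.B, cyc u = c := by
  obtain ⟨R, B, S, h⟩ := h
  exact h.new

theorem TyJ2BM.abs (h : TyJ2BM F g) : g.Abs := by
  obtain ⟨R, B, S, h⟩ := h
  exact h.abs

theorem TyJ2BM.htg (h : TyJ2BM F g) : ∀ c ∈ F, ∀ d ∈ F, htc c = htc d := by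
  obtain ⟨R, B, S, h⟩ := h
  exact h.htg

theorem TyJ2BM.old (h : TyJ2BM F g) : ∃ u ∈ g.B, cyc u ∉ F := by
  obtain ⟨R, B, S, h⟩ := h
  exact h.old

theorem TyJ2BM.path (h : TyJ2BM F g) : ∀ a ∈ g.arcs, ∃ n : ℕ, (TT ^ (n + 1)) a.1 = a.2 ∧ a.1 ∈ g.B ∧
    ∀ i < n, (TT ^ (i + 1)) a.1 ∈ innA a := by
  obtain ⟨R, B, S, h⟩ := h
  exact h.path

theorem TyJ2BM.mirr (h : TyJ2BM F g) : ∃ (F0 : Set (Cyc k)) (g0 : DG k), TyJ2B F0 g0 ∧
    (∀ x : X k, x ∈ g.B ↔ Tsq.mirX x ∈ g0.B) ∧ (∀ x : X k, cyc x ∈ F ↔ cyc (Tsq.mirX x) ∈ F0) ∧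
    (∀ p : X k × X k, p ∈ g.arcs → (Tsq.mirX p.2, Tsq.mirX p.1) ∈ g0.arcs) := by
  obtain ⟨R, B, S, h⟩ := h
  obtain ⟨F0, g0, h1, h2⟩ := h.mirr
  exact ⟨F0, g0, ⟨R, B, S, h1⟩, h2⟩

theorem TyJ2BM.rank (h : TyJ2BM F g) : ∃ M : Multiset ℕ, M.count 1 = 0 ∧ (∀ c ∈ F, contc c = M + {2}) ∧
    ∀ w ∈ g.B, cyc w ∈ F ∨ H1.Lower (contc (cyc w)) (M + {2}) ∨ contc (cyc w) = M + {2} := by
  obtain ⟨R, B, S, h⟩ := h
  refine ⟨OddHC.cont R, h.sqd.one, h.contF, ?_⟩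
  intro w hw
  rcases h.rank w hw with h1 | h1 | ⟨_, _, h1⟩
  · exact Or.inl h1
  · exact Or.inr (Or.inl h1)
  · exact Or.inr (Or.inr h1)

end Pool.OddHC
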