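import Pool.Agent.Work.MP_8f87b2_h17.TyJ2B
import Pool.Agent.Work.MP_8f87b2_h17.GadJP

/-!
# MP_8f87b2_co: type J2P (helper97's repair of J2B at the D-phases)

The twenty words `W R nil nil S i` of `SqD k R nil S` (`sq R = (S, e)`), arcs 1 > 11, 3 > 12, 6 > 15, 8 > 14; new T-cycles
`{0, 10}` (`R(()) ~ (())S`) and `{13}` (`S(())`); the word 4 = `(())R` is old, of the same content. It is used for the pair
`{z_x, z_(x+1)}` of the phase `S`, with the words over `R = T^-2 S`.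
-/

set_option autoImplicit false

namespace Pool.OddHC

open Finset Equiv BinaryTree Pool.Agent.Work.MP_8f87b2_co

namespace J3

variable {k : ℕ} {R S : BinaryTree Unit}

/-- the conditions of J2P -/
structure J2POK (R S : BinaryTree Unit) (w0 : X k) : Prop where
  n10 : sX R .nil S w0 0 ≠ sX R .nil S w0 10
  n13 : cyc (sX R .nil S w0 13) ≠ cyc (sX R .nil S w0 0)
  n4 : cyc (sX R .nil S w0 4) ≠ cyc (sX R .nil S w0 0)
  n413 : cyc (sX R .nil S w0 4) ≠ cyc (sX R .nil S w0 13)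

theorem J2POK.toOK {w0 : X k} (h : J2POK R S w0) : J2OK R .nil S w0 :=
  ⟨h.n10, h.n4, fun _ => ⟨h.n13, fun e => h.n413 e.symm⟩⟩

theorem J2OK.toP {w0 : X k} (h : J2OK R .nil S w0) : J2POK R S w0 :=
  ⟨h.n10, (h.b13 rfl).1, h.n4, fun e => (h.b13 rfl).2 e.symm⟩

/-- the old words are not on the new T-cycles -/
theorem SqD.oldP (h : SqD k R .nil S) {w0 : X k} (hp : J2POK R S w0) : ∀ i ∈ [13, 0], ∀ j ∈ odJP,
    ¬ TT.SameCycle (sX R .nil S w0 i) (sX R .nil S w0 j) := by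
  intro i hi j hj hs
  have hj' : j < 20 ∧ j ≠ 0 ∧ j ≠ 13 ∧ j ≠ 10 :=
    (by decide : ∀ j ∈ odJP, j < 20 ∧ j ≠ 0 ∧ j ≠ 13 ∧ j ≠ 10) j hj
  obtain ⟨b1, b2, b3, b4⟩ := hj'
  have hc : OddHC.cont (sX R .nil S w0 i).1 = OddHC.cont R + {2} := by
    simp only [List.mem_cons, List.not_mem_nil, or_false] at hi
    rcases hi with rfl | rfl
    · exact h.cont13 w0
    · exact h.cont0 w0
  by_cases h4 : j = 4
  · subst h4
    simp only [List.mem_cons, List.not_mem_nil, or_false] at hi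
    rcases hi with rfl | rfl
    · exact hp.n413 (cyc_eq.2 hs).symm
    · exact hp.n4 (cyc_eq.2 hs).symm
  · exact h.other0 w0 b1 b2 h4 b4 (fun h1 => absurd h1 b3) hc hs

/-- the absorber -/
theorem SqD.absP (h : SqD k R .nil S) {w0 : X k} (hp : J2POK R S w0) : (gadJP (sX R .nil S w0)).Abs := by
  have e := h.num
  have es := h.size
  have n0 : (BinaryTree.nil : BinaryTree Unit).numNodes = 0 := rfl
  have hlt : ∀ i ∈ ixJP, i < 20 := by decide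
  refine gadJP_abs (R := R) (Q := .nil) (B := .nil) (S := S) (by omega) (by omega) ?_ ?_ ?_ ?_ ?_
  · intro i hi
    rw [h.word w0 (hlt i hi), H1.W_w20 _ _ _ _ i (hlt i hi)]
  · exact fun i hi j hj => h.inj2 hp.toOK i (hlt i hi) j (hlt j hj)
  · intro p hq
    obtain rfl : p = (0, 10) := by simpa [prJP] using hq
    exact h.same w0 (i := 0) (j := 10) (by simp)
  · intro i hi j hj hs
    have hi' : i = 13 ∨ i = 0 := by simpa [sgJP, prJP] using hi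
    have hj' : j = 13 ∨ j = 0 := by simpa [sgJP, prJP] using hj
    rcases hi' with rfl | rfl <;> rcases hj' with rfl | rfl
    · rfl
    · exact absurd (cyc_eq.2 hs) hp.n13
    · exact absurd (cyc_eq.2 hs).symm hp.n13
    · rfl
  · intro i hi j hj
    exact h.oldP hp i hi j hj

end J3

open J3

variable {k : ℕ} {F : Set (Cyc k)} {g : DG k} {R S : BinaryTree Unit}

/-- TYPE J2P with its phase -/
def TyJ2RP (R S : BinaryTree Unit) (F : Set (Cyc k)) (g : DG k) : Prop :=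
  ∃ w0 : X k, SqD k R .nil S ∧ J2POK R S w0 ∧
    F = {cyc (sX R .nil S w0 0), cyc (sX R .nil S w0 13)} ∧ g = gadJP (sX R .nil S w0)

/-- TYPE J2P -/
def TyJ2P (F : Set (Cyc k)) (g : DG k) : Prop := ∃ R S : BinaryTree Unit, TyJ2RP R S F g

theorem mem_gadJP {w : ℕ → X k} {x : X k} : x ∈ (gadJP w).B ↔ ∃ i < 20, w i = x := by
  unfold gadJP
  rw [mem_gadOf_B]
  constructor
  · rintro ⟨i, hi, e⟩
    exact ⟨i, (by decide : ∀ i ∈ ixJP, i < 20) i hi, e⟩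
  · rintro ⟨i, hi, e⟩
    refine ⟨i, ?_, e⟩
    interval_cases i <;> decide

theorem TyJ2RP.sqd (h : TyJ2RP R S F g) : SqD k R .nil S := by
  obtain ⟨w0, h1, _⟩ := h
  exact h1

/-- the J2B group over the same phase `R`: the same words, the same arcs (its T-cycles are `z_(x+1)`, `z_(x+2)`) -/
theorem TyJ2RP.base (h : TyJ2RP R S F g) : ∃ (F0 : Set (Cyc k)) (g0 : DG k), TyJ2R R .nil S F0 g0 ∧
    (∀ x : X k, x ∈ g.B ↔ x ∈ g0.B) ∧ (∀ p : X k × X k, p ∈ g.arcs ↔ p ∈ g0.arcs) := by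
  obtain ⟨w0, h1, hp, rfl, rfl⟩ := h
  refine ⟨_, _, ⟨w0, h1, hp.toOK, rfl, rfl⟩, ?_, ?_⟩
  · intro x
    rw [mem_gadJP, mem_gadJB]
  · intro p
    exact Iff.rfl

theorem TyJ2RP.hF (h : TyJ2RP R S F g) : ∀ w, w ∈ g.F ↔ cyc w ∈ F := by
  obtain ⟨w0, h1, hp, rfl, rfl⟩ := h
  intro w
  unfold gadJP
  rw [mem_gadOf_F]
  constructor
  · rintro ⟨c, hc, hs⟩
    have hc' : c = 13 ∨ c = 0 := by simpa [sgJP, prJP] using hc
    rcases hc' with rfl | rfl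
    · exact Or.inr (cyc_eq.2 hs).symm
    · exact Or.inl (cyc_eq.2 hs).symm
  · rintro (hs | hs)
    · exact ⟨0, by simp [sgJP, prJP], cyc_eq.1 hs.symm⟩
    · exact ⟨13, by simp [sgJP, prJP], cyc_eq.1 hs.symm⟩

theorem TyJ2RP.new (h : TyJ2RP R S F g) : ∀ c ∈ F, ∃ u ∈ g.B, cyc u = c := by
  obtain ⟨w0, h1, hp, rfl, rfl⟩ := h
  rintro c (rfl | rfl)
  · exact ⟨_, mem_gadJP.2 ⟨0, by norm_num, rfl⟩, rfl⟩
  · exact ⟨_, mem_gadJP.2 ⟨13, by norm_num, rfl⟩, rfl⟩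

theorem TyJ2RP.abs (h : TyJ2RP R S F g) : g.Abs := by
  obtain ⟨w0, h1, hp, rfl, rfl⟩ := h
  exact h1.absP hp

/-- contents of the group -/
theorem TyJ2RP.contF (h : TyJ2RP R S F g) : ∀ c ∈ F, contc c = OddHC.cont R + {2} := by
  obtain ⟨w0, h1, hp, rfl, rfl⟩ := h
  rintro c (rfl | rfl)
  · exact h1.cont0 w0
  · exact h1.cont13 w0

theorem TyJ2RP.htp' (h : TyJ2RP R S F g) : ∀ c ∈ F, htc c = OddHC.ht R := by
  intro c hc
  have h1 := h.contF c hc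
  change (contc c).sup = _
  rw [h1, h.sqd.supz]

theorem TyJ2RP.htg (h : TyJ2RP R S F g) : ∀ c ∈ F, ∀ d ∈ F, htc c = htc d := by
  intro c hc d hd
  rw [h.htp' c hc, h.htp' d hd]

/-- all words -/
theorem TyJ2RP.words (h : TyJ2RP R S F g) : ∀ w ∈ g.B, ∃ i < 20, w.1 = H1.W R .nil .nil S i := by
  obtain ⟨w0, h1, hp, rfl, rfl⟩ := h
  intro w hw
  obtain ⟨i, hi, rfl⟩ := mem_gadJP.1 hw
  exact ⟨i, hi, h1.word w0 hi⟩

theorem TyJ2RP.wordsX (h : TyJ2RP R S F g) (w0 : X k) : ∀ w, w ∈ g.B ↔ ∃ i < 20, w = sX R .nil S w0 i := by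
  obtain ⟨F0, g0, h0, hB, _⟩ := h.base
  intro w
  rw [hB w, h0.wordsX w0 w]

theorem TyJ2RP.memF (h : TyJ2RP R S F g) (w0 : X k) : ∀ c, c ∈ F ↔
    c = cyc (sX R .nil S w0 0) ∨ c = cyc (sX R .nil S w0 13) := by
  obtain ⟨w1, h1, hp, rfl, rfl⟩ := h
  have e : ∀ i < 20, sX R .nil S w1 i = sX R .nil S w0 i := fun i hi => Subtype.ext (by
    rw [h1.word w1 hi, h1.word w0 hi])
  intro c
  rw [← e 0 (by norm_num), ← e 13 (by norm_num)]
  exact Iff.rfl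

theorem TyJ2RP.arcs (h : TyJ2RP R S F g) (w0 : X k) : ∀ p, p ∈ g.arcs ↔
    ∃ q ∈ [(1, 11), (3, 12), (6, 15), (8, 14)], p = (sX R .nil S w0 q.1, sX R .nil S w0 q.2) := by
  obtain ⟨F0, g0, h0, _, ha⟩ := h.base
  intro p
  rw [ha p, h0.arcs w0 p]

theorem TyJ2RP.path (h : TyJ2RP R S F g) : ∀ a ∈ g.arcs, ∃ n : ℕ, (TT ^ (n + 1)) a.1 = a.2 ∧ a.1 ∈ g.B ∧
    ∀ i < n, (TT ^ (i + 1)) a.1 ∈ innA a := by
  obtain ⟨F0, g0, h0, hB, ha⟩ := h.base
  intro a h1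
  obtain ⟨n, h2, h3, h4⟩ := h0.path a ((ha a).1 h1)
  exact ⟨n, h2, (hB _).2 h3, h4⟩

theorem TyJ2RP.inn (h : TyJ2RP R S F g) (w0 : X k) : ∀ p ∈ g.arcs, ∀ w ∈ innA p,
    ∃ i ∈ [1, 3, 6, 8], w = TT (sX R .nil S w0 i) := by
  obtain ⟨F0, g0, h0, hB, ha⟩ := h.base
  intro p hp
  exact h0.inn w0 p ((ha p).1 hp)

/-- rank: every old word is `Lower` than `z`, or it is the word 4 = `(())R`, of the content of `z` -/
theorem TyJ2RP.rank (h : TyJ2RP R S F g) : ∀ w ∈ g.B, cyc w ∈ F ∨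
    H1.Lower (contc (cyc w)) (OddHC.cont R + {2}) ∨
    (w.1 = (.nil △ .nil) △ R ∧ contc (cyc w) = OddHC.cont R + {2}) := by
  obtain ⟨w0, h1, hp, rfl, rfl⟩ := h
  intro w hw
  obtain ⟨i, hi, rfl⟩ := mem_gadJP.1 hw
  by_cases n0 : i = 0
  · subst n0; exact Or.inl (Or.inl rfl)
  · by_cases n10 : i = 10
    · subst n10
      exact Or.inl (Or.inl (cyc_eq.2 (h1.same w0 (i := 0) (j := 10) (by simp))).symm)
    · by_cases n13 : i = 13
      · subst n13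
        exact Or.inl (Or.inr rfl)
      · by_cases n4 : i = 4
        · subst n4
          right; right
          exact ⟨h1.word w0 (by norm_num), h1.cont4 w0⟩
        · right; left
          exact h1.rank w0 i hi n0 n4 n10 (fun a _ => n13 a)

theorem TyJ2RP.old (h : TyJ2RP R S F g) : ∃ u ∈ g.B, cyc u ∉ F := by
  have hh := h.htp'
  obtain ⟨w0, h1, hp, rfl, rfl⟩ := h
  refine ⟨_, mem_gadJP.2 ⟨6, by norm_num, rfl⟩, ?_⟩
  intro e
  have e1 := hh _ e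
  rw [htc_cyc, h1.word w0 (by norm_num)] at e1
  change OddHC.ht (R △ (.nil △ .nil)) = _ at e1
  rw [ht_node] at e1
  omega

/-! ### The same for `TyJ2P` -/

theorem TyJ2P.hF (h : TyJ2P F g) : ∀ w, w ∈ g.F ↔ cyc w ∈ F := by
  obtain ⟨R, S, h⟩ := h
  exact h.hF

theorem TyJ2P.new (h : TyJ2P F g) : ∀ c ∈ F, ∃ u ∈ g.B, cyc u = c := by
  obtain ⟨R, S, h⟩ := h
  exact h.new

theorem TyJ2P.abs (h : TyJ2P F g) : g.Abs := by
  obtain ⟨R, S, h⟩ := h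
  exact h.abs

theorem TyJ2P.htg (h : TyJ2P F g) : ∀ c ∈ F, ∀ d ∈ F, htc c = htc d := by
  obtain ⟨R, S, h⟩ := h
  exact h.htg

theorem TyJ2P.old (h : TyJ2P F g) : ∃ u ∈ g.B, cyc u ∉ F := by
  obtain ⟨R, S, h⟩ := h
  exact h.old

theorem TyJ2P.path (h : TyJ2P F g) : ∀ a ∈ g.arcs, ∃ n : ℕ, (TT ^ (n + 1)) a.1 = a.2 ∧ a.1 ∈ g.B ∧
    ∀ i < n, (TT ^ (i + 1)) a.1 ∈ innA a := by
  obtain ⟨R, S, h⟩ := h
  exact h.path

theorem TyJ2P.rank (h : TyJ2P F g) : ∃ M : Multiset ℕ, M.count 1 = 0 ∧ (∀ c ∈ F, contc c = M + {2}) ∧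
    ∀ w ∈ g.B, cyc w ∈ F ∨ H1.Lower (contc (cyc w)) (M + {2}) ∨ contc (cyc w) = M + {2} := by
  obtain ⟨R, S, h⟩ := h
  refine ⟨OddHC.cont R, h.sqd.one, h.contF, ?_⟩
  intro w hw
  rcases h.rank w hw with h1 | h1 | ⟨_, h1⟩
  · exact Or.inl h1
  · exact Or.inr (Or.inl h1)
  · exact Or.inr (Or.inr h1)

end Pool.OddHC
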